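import Mathlib.Tactic.Abel
import Mathlib.Algebra.Notation.Lemmas
import Mathlib.Algebra.Field.ZMod
import Mathlib.Combinatorics.SimpleGraph.Acyclic
import Mathlib.Order.CompletePartialOrder

/-!
Multigraphs, Klein-group flows, cuts and minors.
-/

set_option autoImplicit false

namespace Pool.Agent.MP_e6539c_co.TW

open Finset
open Classical

abbrev K4 := ZMod 2 × ZMod 2

theorem K4_add_self (x : K4) : x + x = 0 := by revert x; decide

theorem K4_eq_of_add (x y : K4) (h : x + y = 0) : x = y := by revert x y; decide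

structure MG (V E : Type) where
  A : Finset E
  l : E → V
  r : E → V

variable {V E : Type}

namespace MG

variable (G : MG V E)

def Ends (e : E) (u v : V) : Prop := (G.l e = u ∧ G.r e = v) ∨ (G.l e = v ∧ G.r e = u)

def Inc (e : E) (v : V) : Prop := G.l e = v ∨ G.r e = v

noncomputable def bd (B : Finset E) (ψ : E → K4) (v : V) : K4 :=
  ∑ e ∈ B, ((if G.l e = v then ψ e else 0) + (if G.r e = v then ψ e else 0))

def NZ (B : Finset E) (ψ : E → K4) : Prop := ∀ e ∈ B, ψ e ≠ 0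

def Flowable : Prop := ∃ ψ, NZ G.A ψ ∧ ∀ v, G.bd G.A ψ v = 0

noncomputable def cut (B : Finset E) (Y : Set V) : Finset E :=
  B.filter (fun e => ¬ (G.l e ∈ Y ↔ G.r e ∈ Y))

def Bridgeless : Prop := ∀ Y, (G.cut G.A Y).card ≠ 1

def Adj (B : Finset E) (u v : V) : Prop := ∃ e ∈ B, G.Ends e u v

def Conn (B : Finset E) (W : Set V) : V → V → Prop :=
  Relation.ReflTransGen (fun x y => x ∈ W ∧ y ∈ W ∧ G.Adj B x y)

def CSet (B : Finset E) (W : Set V) : Prop := ∀ u ∈ W, ∀ v ∈ W, G.Conn B W u v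

/-- edge list of the Petersen graph -/
def petE : List (ℕ × ℕ) :=
  [(0,1),(1,2),(2,3),(3,4),(0,4),(0,5),(1,6),(2,7),(3,8),(4,9),(5,7),(7,9),(6,9),(6,8),(5,8)]

def HasP : Prop := ∃ B : ℕ → Set V, (∀ i < 10, G.CSet G.A (B i)) ∧
  (∀ i < 10, ∀ j < 10, i ≠ j → Disjoint (B i) (B j)) ∧
  ∀ p ∈ petE, ∃ u ∈ B p.1, ∃ v ∈ B p.2, G.Adj G.A u v

def HasTD : Prop := ∃ (ι : Type) (T : SimpleGraph ι) (bag : ι → Finset V), T.IsTree ∧
  (∀ t, (bag t).card ≤ 6) ∧ (∀ e ∈ G.A, ∃ t, G.l e ∈ bag t ∧ G.r e ∈ bag t) ∧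
  ∀ v s t, v ∈ bag s → v ∈ bag t →
    Relation.ReflTransGen (fun a b => T.Adj a b ∧ v ∈ bag a ∧ v ∈ bag b) s t

def minor (A' : Finset E) (ρ : V → V) : MG V E := ⟨A', ρ ∘ G.l, ρ ∘ G.r⟩

def Fib (ρ : V → V) : Prop := ∀ u v, ρ u = ρ v → G.Conn G.A {w | ρ w = ρ u} u v

variable {G}

theorem Ends.symm {e : E} {u v : V} (h : G.Ends e u v) : G.Ends e v u := Or.symm h

theorem Ends.inc_left {e : E} {u v : V} (h : G.Ends e u v) : G.Inc e u := by
  rcases h with h | h
  · exact Or.inl h.1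
  · exact Or.inr h.2

theorem Ends.inc_right {e : E} {u v : V} (h : G.Ends e u v) : G.Inc e v := h.symm.inc_left

theorem ends_lr (e : E) : G.Ends e (G.l e) (G.r e) := Or.inl ⟨rfl, rfl⟩

theorem Inc.exists_ends {e : E} {v : V} (h : G.Inc e v) : ∃ w, G.Ends e v w := by
  rcases h with h | h
  · exact ⟨G.r e, Or.inl ⟨h, rfl⟩⟩
  · exact ⟨G.l e, Or.inr ⟨rfl, h⟩⟩

theorem Ends.inc_iff {e : E} {u v : V} (h : G.Ends e u v) (w : V) : G.Inc e w ↔ w = u ∨ w = v := by
  unfold Inc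
  rcases h with ⟨h1, h2⟩ | ⟨h1, h2⟩ <;> rw [h1, h2] <;> constructor <;> rintro (h | h) <;> simp [h]

theorem Ends.unique {e : E} {u v u' v' : V} (h : G.Ends e u v) (h' : G.Ends e u' v') :
    (u = u' ∧ v = v') ∨ (u = v' ∧ v = u') := by
  rcases h with ⟨h1, h2⟩ | ⟨h1, h2⟩ <;> rcases h' with ⟨h3, h4⟩ | ⟨h3, h4⟩ <;>
    subst h1 h2 <;> simp [h3, h4]

theorem Ends.right_unique {e : E} {u v v' : V} (h : G.Ends e u v) (h' : G.Ends e u v') : v = v' := by
  rcases h.unique h' with h | h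
  · exact h.2
  · rw [h.2, h.1]

theorem Ends.mem_cut_iff {e : E} {u v : V} (h : G.Ends e u v) {B : Finset E} {Y : Set V} :
    e ∈ G.cut B Y ↔ e ∈ B ∧ ¬ (u ∈ Y ↔ v ∈ Y) := by
  unfold cut
  rw [mem_filter]
  rcases h with ⟨h1, h2⟩ | ⟨h1, h2⟩ <;> rw [h1, h2]
  rw [iff_comm (a := v ∈ Y)]

theorem Ends.term {e : E} {u v : V} (h : G.Ends e u v) (x : K4) (w : V) :
    ((if G.l e = w then x else 0) + (if G.r e = w then x else 0)) =
      ((if u = w then x else 0) + (if v = w then x else 0)) := by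
  rcases h with ⟨h1, h2⟩ | ⟨h1, h2⟩ <;> rw [h1, h2]
  exact add_comm _ _

theorem Adj.symm {B : Finset E} {u v : V} (h : G.Adj B u v) : G.Adj B v u := by
  obtain ⟨e, he, h⟩ := h
  exact ⟨e, he, h.symm⟩

theorem Adj.mono {B B' : Finset E} (hB : B ⊆ B') {u v : V} (h : G.Adj B u v) : G.Adj B' u v := by
  obtain ⟨e, he, h⟩ := h
  exact ⟨e, hB he, h⟩

theorem Conn.refl {B : Finset E} {W : Set V} (u : V) : G.Conn B W u u := Relation.ReflTransGen.refl

theorem Conn.trans {B : Finset E} {W : Set V} {u v w : V} (h : G.Conn B W u v)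
    (h' : G.Conn B W v w) : G.Conn B W u w := Relation.ReflTransGen.trans h h'

theorem Conn.single {B : Finset E} {W : Set V} {u v : V} (hu : u ∈ W) (hv : v ∈ W)
    (h : G.Adj B u v) : G.Conn B W u v := Relation.ReflTransGen.single ⟨hu, hv, h⟩

theorem Conn.symm {B : Finset E} {W : Set V} {u v : V} (h : G.Conn B W u v) : G.Conn B W v u := by
  induction h with
  | refl => exact Conn.refl _
  | tail _ h2 ih => exact (Conn.single h2.2.1 h2.1 h2.2.2.symm).trans ih

theorem Conn.mono {B B' : Finset E} (hB : B ⊆ B') {W W' : Set V} (hW : W ⊆ W') {u v : V}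
    (h : G.Conn B W u v) : G.Conn B' W' u v := by
  induction h with
  | refl => exact Conn.refl _
  | tail _ h2 ih => exact ih.trans (Conn.single (hW h2.1) (hW h2.2.1) (h2.2.2.mono hB))

theorem Conn.mem {B : Finset E} {W : Set V} {u v : V} (h : G.Conn B W u v) (hu : u ∈ W) : v ∈ W := by
  induction h with
  | refl => exact hu
  | tail _ h2 _ => exact h2.2.1

/-- a walk stays inside the set of vertices reachable from its start -/
theorem Conn.restrict {B : Finset E} {W : Set V} {u v : V} (h : G.Conn B W u v) :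
    G.Conn B {w | w ∈ W ∧ G.Conn B W u w} u v := by
  induction h with
  | refl => exact Conn.refl _
  | tail h1 h2 ih =>
    exact ih.trans (Conn.single ⟨h2.1, h1⟩
      ⟨h2.2.1, Conn.trans h1 (Conn.single h2.1 h2.2.1 h2.2.2)⟩ h2.2.2)

theorem Conn.cross {B : Finset E} {W : Set V} {u v : V} (h : G.Conn B W u v) {Y : Set V}
    (huv : ¬ (u ∈ Y ↔ v ∈ Y)) : ∃ e ∈ G.cut B Y, G.l e ∈ W ∧ G.r e ∈ W := by
  induction h with
  | refl => exact absurd Iff.rfl huv
  | @tail b c _ h2 ih =>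
    by_cases hb : (u ∈ Y ↔ b ∈ Y)
    · obtain ⟨hbW, hcW, e, he, hen⟩ := h2
      refine ⟨e, hen.mem_cut_iff.2 ⟨he, fun h => huv (hb.trans h)⟩, ?_⟩
      rcases hen with ⟨h1, h2⟩ | ⟨h1, h2⟩ <;> rw [h1, h2] <;> exact ⟨by assumption, by assumption⟩
    · exact ih hb

theorem cut_subset (B : Finset E) (Y : Set V) : G.cut B Y ⊆ B := filter_subset _ _

theorem cut_compl (B : Finset E) (Y : Set V) : G.cut B Yᶜ = G.cut B Y := by
  ext e
  simp only [cut, mem_filter, Set.mem_compl_iff]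
  tauto

theorem cut_congr {B : Finset E} {Y Y' : Set V}
    (h : ∀ e ∈ B, ∀ v, G.Inc e v → (v ∈ Y ↔ v ∈ Y')) : G.cut B Y = G.cut B Y' := by
  unfold cut
  apply filter_congr
  intro e he
  rw [h e he _ (Or.inl rfl), h e he _ (Or.inr rfl)]

theorem cut_union (B B' : Finset E) (Y : Set V) : G.cut (B ∪ B') Y = G.cut B Y ∪ G.cut B' Y :=
  filter_union _ _ _

theorem cut_mono {B B' : Finset E} (h : B ⊆ B') (Y : Set V) : G.cut B Y ⊆ G.cut B' Y :=
  filter_subset_filter _ h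

theorem card_cut_split {B B' : Finset E} (h : B' ⊆ B) (Y : Set V) :
    (G.cut B Y).card = (G.cut (B \ B') Y).card + (G.cut B' Y).card := by
  rw [← card_union_of_disjoint, ← cut_union, sdiff_union_of_subset h]
  exact Disjoint.mono (cut_subset _ _) (cut_subset _ _) sdiff_disjoint

theorem bd_union {B B' : Finset E} (h : Disjoint B B') (ψ : E → K4) (v : V) :
    G.bd (B ∪ B') ψ v = G.bd B ψ v + G.bd B' ψ v := sum_union h

theorem bd_split {B B' : Finset E} (h : B' ⊆ B) (ψ : E → K4) (v : V) :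
    G.bd B ψ v = G.bd (B \ B') ψ v + G.bd B' ψ v := by
  rw [← bd_union sdiff_disjoint, sdiff_union_of_subset h]

theorem bd_congr {B : Finset E} {ψ ψ' : E → K4} {v : V} (h : ∀ e ∈ B, G.Inc e v → ψ e = ψ' e) :
    G.bd B ψ v = G.bd B ψ' v := by
  apply sum_congr rfl
  intro e he
  by_cases h1 : G.l e = v <;> by_cases h2 : G.r e = v <;>
    simp [h1, h2, fun hh => h e he hh, Inc]

theorem bd_eq_zero {B : Finset E} {ψ : E → K4} {v : V} (h : ∀ e ∈ B, ¬ G.Inc e v) :
    G.bd B ψ v = 0 := by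
  apply sum_eq_zero
  intro e he
  have := h e he
  unfold Inc at this
  push Not at this
  simp [this.1, this.2]

theorem bd_sub {B B' : Finset E} (hB : B' ⊆ B) {ψ : E → K4} {v : V}
    (h : ∀ e ∈ B, G.Inc e v → e ∈ B') : G.bd B ψ v = G.bd B' ψ v := by
  rw [bd_split hB, bd_eq_zero, zero_add]
  intro e he hi
  rw [mem_sdiff] at he
  exact he.2 (h e he.1 hi)

theorem bd_add (B : Finset E) (ψ ψ' : E → K4) (v : V) :
    G.bd B (fun e => ψ e + ψ' e) v = G.bd B ψ v + G.bd B ψ' v := by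
  unfold bd
  rw [← sum_add_distrib]
  apply sum_congr rfl
  intro e _
  by_cases h1 : G.l e = v <;> by_cases h2 : G.r e = v <;> simp [h1, h2]
  abel

theorem bd_map (B : Finset E) (ψ : E → K4) (v : V) (σ : K4 →+ K4) :
    G.bd B (fun e => σ (ψ e)) v = σ (G.bd B ψ v) := by
  unfold bd
  rw [map_sum]
  apply sum_congr rfl
  intro e _
  by_cases h1 : G.l e = v <;> by_cases h2 : G.r e = v <;> simp [h1, h2]

theorem bd_insert {B : Finset E} {e : E} (he : e ∉ B) {a b : V} (hen : G.Ends e a b)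
    (ψ : E → K4) (v : V) : G.bd (insert e B) ψ v =
      ((if a = v then ψ e else 0) + (if b = v then ψ e else 0)) + G.bd B ψ v := by
  unfold bd
  rw [sum_insert he, hen.term]

theorem sum_bd' (B : Finset E) (ψ : E → K4) (S : Finset V) (Y : Set V) (h : ∀ v, v ∈ S ↔ v ∈ Y) :
    ∑ v ∈ S, G.bd B ψ v = ∑ e ∈ G.cut B Y, ψ e := by
  unfold bd cut
  rw [sum_comm, sum_filter]
  apply sum_congr rfl
  intro e _
  rw [sum_add_distrib, sum_ite_eq, sum_ite_eq]
  by_cases h1 : G.l e ∈ Y <;> by_cases h2 : G.r e ∈ Y <;> simp [h, h1, h2, K4_add_self]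

theorem bd_eq_cut (B : Finset E) (ψ : E → K4) (v : V) :
    G.bd B ψ v = ∑ e ∈ G.cut B {v}, ψ e := by
  rw [← sum_bd' B ψ {v} {v} (by simp), sum_singleton]

variable [Fintype V]

theorem sum_bd (B : Finset E) (ψ : E → K4) (Y : Set V) :
    ∑ v ∈ univ.filter (· ∈ Y), G.bd B ψ v = ∑ e ∈ G.cut B Y, ψ e := by
  unfold bd cut
  rw [sum_comm, sum_filter]
  apply sum_congr rfl
  intro e _
  rw [sum_add_distrib, sum_ite_eq, sum_ite_eq]
  by_cases h1 : G.l e ∈ Y <;> by_cases h2 : G.r e ∈ Y <;> simp [h1, h2, K4_add_self]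

theorem sum_bd_univ (B : Finset E) (ψ : E → K4) : ∑ v, G.bd B ψ v = 0 := by
  have := sum_bd (G := G) B ψ Set.univ
  simp only [Set.mem_univ, filter_true] at this
  rw [this]
  apply sum_eq_zero
  intro e he
  simp [cut] at he

theorem bd_minor (A' B : Finset E) (ρ : V → V) (ψ : E → K4) (x : V) :
    (G.minor A' ρ).bd B ψ x = ∑ v ∈ univ.filter (fun v => ρ v = x), G.bd B ψ v := by
  unfold bd
  rw [sum_comm]
  apply sum_congr rfl
  intro e _
  rw [sum_add_distrib, sum_ite_eq, sum_ite_eq]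
  simp only [minor, Function.comp, mem_filter, mem_univ, true_and]
  congr

omit [Fintype V] in
theorem cut_minor (A' B : Finset E) (ρ : V → V) (Y : Set V) :
    (G.minor A' ρ).cut B Y = G.cut B (ρ ⁻¹' Y) := rfl

omit [Fintype V] in
theorem hasP_minor {A' : Finset E} (hA : A' ⊆ G.A) {ρ : V → V} (hρ : G.Fib ρ)
    (h : (G.minor A' ρ).HasP) : G.HasP := by
  obtain ⟨B, h1, h2, h3⟩ := h
  have lift : ∀ x y, (G.minor A' ρ).Adj A' x y → ∃ u v, ρ u = x ∧ ρ v = y ∧ G.Adj G.A u v := by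
    rintro x y ⟨e, he, ⟨h1, h2⟩ | ⟨h1, h2⟩⟩
    · exact ⟨_, _, h1, h2, e, hA he, ends_lr e⟩
    · exact ⟨_, _, h2, h1, e, hA he, (ends_lr e).symm⟩
  refine ⟨fun i => ρ ⁻¹' B i, ?_, ?_, ?_⟩
  · intro i hi u hu v hv
    have key : ∀ y, (G.minor A' ρ).Conn A' (B i) (ρ u) y → ∀ v, ρ v = y →
        G.Conn G.A (ρ ⁻¹' B i) u v := by
      intro y hy
      induction hy with
      | refl =>
        intro v hv
        refine (hρ u v hv.symm).mono subset_rfl ?_
        intro w hw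
        simp only [Set.mem_ofPred_eq] at hw
        simpa [hw] using hu
      | @tail b c _ h2 ih =>
        intro v hv
        obtain ⟨u', v', hu', hv', ha⟩ := lift _ _ h2.2.2
        refine (ih u' hu').trans ((Conn.single (by simpa [hu'] using h2.1)
          (by simpa [hv'] using h2.2.1) ha).trans ?_)
        refine (hρ v' v (hv'.trans hv.symm)).mono subset_rfl ?_
        intro w hw
        simp only [Set.mem_ofPred_eq] at hw
        simpa [hw, hv'] using h2.2.1
    exact key _ (h1 i hi _ hu _ hv) v rfl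
  · intro i hi j hj hij
    exact (h2 i hi j hj hij).preimage _
  · intro p hp
    obtain ⟨x, hx, y, hy, ha⟩ := h3 p hp
    obtain ⟨u, v, hu, hv, ha⟩ := lift _ _ ha
    exact ⟨u, by simpa [hu] using hx, v, by simpa [hv] using hy, ha⟩

omit [Fintype V] in
theorem tw_minor {A' : Finset E} (hA : A' ⊆ G.A) {ρ : V → V} (hρ : G.Fib ρ)
    (h : G.HasTD) : (G.minor A' ρ).HasTD := by
  obtain ⟨ι, T, bag, hT, h1, h2, h3⟩ := h
  refine ⟨ι, T, fun t => (bag t).image ρ, hT, fun t => card_image_le.trans (h1 t), ?_, ?_⟩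
  · intro e he
    obtain ⟨t, ht1, ht2⟩ := h2 e (hA he)
    exact ⟨t, mem_image_of_mem _ ht1, mem_image_of_mem _ ht2⟩
  · intro x s t hs ht
    obtain ⟨u, hu, rfl⟩ := mem_image.1 hs
    obtain ⟨v, hv, hvu⟩ := mem_image.1 ht
    have one : ∀ w s t, ρ w = ρ u → w ∈ bag s → w ∈ bag t → Relation.ReflTransGen
        (fun a b => T.Adj a b ∧ ρ u ∈ (bag a).image ρ ∧ ρ u ∈ (bag b).image ρ) s t := by
      intro w s t hw hs ht
      refine Relation.ReflTransGen.mono ?_ _ _ (h3 w s t hs ht)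
      rintro a b ⟨hab, ha, hb⟩
      exact ⟨hab, mem_image.2 ⟨w, ha, hw⟩, mem_image.2 ⟨w, hb, hw⟩⟩
    have key : ∀ v, G.Conn G.A {w | ρ w = ρ u} u v → ρ v = ρ u → ∀ t, v ∈ bag t →
        Relation.ReflTransGen
        (fun a b => T.Adj a b ∧ ρ u ∈ (bag a).image ρ ∧ ρ u ∈ (bag b).image ρ) s t := by
      intro v hv
      induction hv with
      | refl => intro _ t ht; exact one u s t rfl hu ht
      | @tail b c _ hbc ih =>
        intro hc t ht
        obtain ⟨hb, -, e, he, hen⟩ := hbc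
        obtain ⟨t', ht1, ht2⟩ := h2 e he
        have : b ∈ bag t' ∧ c ∈ bag t' := by
          rcases hen with ⟨h1, h2⟩ | ⟨h1, h2⟩ <;> rw [← h1, ← h2] <;> exact ⟨by assumption, by assumption⟩
        exact (ih hb t' this.1).trans (one c t' t hc this.2 ht)
    exact key v (hρ u v hvu.symm) hvu t hv

end MG

/-- a minimal counterexample -/
structure Min (G : MG V E) : Prop where
  br : G.Bridgeless
  nf : ¬ G.Flowable
  np : ¬ G.HasP
  tw : G.HasTD
  mn : ∀ A' ρ, A' ⊆ G.A → A'.card < G.A.card → G.Fib ρ → (G.minor A' ρ).Bridgeless →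
    (G.minor A' ρ).Flowable

theorem main_of_no_min (h : ∀ G : MG V E, ¬ Min G) (G : MG V E) (h1 : G.Bridgeless)
    (h2 : ¬ G.HasP) (h3 : G.HasTD) : G.Flowable := by
  induction hn : G.A.card using Nat.strong_induction_on generalizing G with
  | _ n ih =>
    by_contra hf
    refine h G ⟨h1, hf, h2, h3, ?_⟩
    intro A' ρ hA hc hρ hb
    exact ih A'.card (hn ▸ hc) _ hb (fun hp => h2 (MG.hasP_minor hA hρ hp))
      (MG.tw_minor hA hρ h3) rfl

end Pool.Agent.MP_e6539c_co.TW
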