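import Pool.Agent.MP_e6539c_co.TW.Quasi

-- ======== part 0: formerly Pool.Agent.MP_e6539c_co.TW.Data0
section MrgPart0

set_option autoImplicit false
set_option maxRecDepth 100000

namespace Pool.Agent.MP_e6539c_co.TW

def pieces : List (List (ℕ × ℕ)) :=
 [[(0,1)],
  [(6,2),(1,6),(0,6)],
  [(6,3),(2,6),(1,6),(0,6)],
  [(7,3),(2,7),(6,7),(1,6),(0,6)],
  [(6,4),(3,6),(2,6),(1,6),(0,6)],
  [(7,4),(3,7),(2,7),(6,7),(1,6),(0,6)],
  [(8,4),(7,3),(7,8),(2,7),(6,8),(1,6),(0,6)],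
  [(9,4),(8,3),(8,9),(0,8),(7,9),(2,7),(6,7),(1,6),(0,6)],
  [(10,4),(9,3),(8,2),(8,10),(8,9),(7,9),(1,7),(6,7),(6,10),(0,6)],
  [(10,4),(9,3),(2,9),(8,9),(8,10),(7,8),(1,7),(0,7),(6,10),(2,6),(0,6)],
  [(10,4),(3,10),(9,10),(0,9),(8,9),(2,8),(7,8),(3,7),(6,7),(1,6),(0,6)],
  [(10,4),(9,3),(9,10),(8,9),(2,8),(0,8),(7,10),(2,7),(6,7),(1,6),(0,6)],
  [(11,4),(10,3),(9,2),(9,11),(8,11),(10,8),(0,8),(7,10),(9,7),(6,7),(1,6),(0,6)],
  [(11,4),(10,3),(9,2),(9,10),(8,9),(8,11),(1,8),(7,10),(1,7),(6,7),(6,11),(0,6)],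
  [(12,4),(11,3),(10,2),(9,1),(9,10),(8,10),(8,12),(7,8),(7,11),(0,7),(6,12),(11,6),(9,6)]]

def progs : List (List (ℕ × ℕ × ℕ)) :=
 [[(0,0,1)],
  [(2,2,2),(0,1,2),(0,0,2)],
  [(2,3,3),(0,2,3),(0,1,3),(0,0,3)],
  [(2,3,3),(0,2,3),(2,3,3),(0,1,3),(0,0,3)],
  [(2,4,4),(0,3,4),(0,2,4),(0,1,4),(0,0,4)],
  [(2,4,4),(0,3,4),(0,2,4),(2,4,4),(0,1,4),(0,0,4)],
  [(2,4,4),(2,3,3),(0,3,4),(0,2,3),(2,4,4),(0,1,4),(0,0,4)],
  [(2,4,4),(2,3,3),(0,3,4),(0,0,3),(2,4,4),(0,2,4),(2,4,4),(0,1,4),(0,0,4)],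
  [(2,4,4),(2,3,3),(2,2,2),(0,2,4),(0,2,3),(2,3,3),(0,1,3),(2,3,3),(0,3,4),(0,0,3)],
  [(2,4,4),(2,3,3),(0,2,3),(2,3,3),(0,3,4),(2,3,3),(0,1,3),(0,0,3),(2,4,4),(0,2,4),(0,0,4)],
  [(2,4,4),(0,3,4),(2,4,4),(0,0,4),(2,4,4),(0,2,4),(2,4,4),(0,3,4),(2,4,4),(0,1,4),(0,0,4)],
  [(2,4,4),(2,3,3),(0,3,4),(2,3,3),(0,2,3),(0,0,3),(2,4,4),(0,2,4),(2,4,4),(0,1,4),(0,0,4)],
  [(2,4,4),(2,3,3),(2,2,2),(0,2,4),(2,4,4),(0,3,4),(0,0,4),(2,3,3),(0,2,3),(2,3,3),(0,1,3),(0,0,3)],
  [(2,4,4),(2,3,3),(2,2,2),(0,2,3),(2,2,2),(0,2,4),(0,1,2),(2,3,3),(0,1,3),(2,3,3),(0,3,4),(0,0,3)],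
  [(2,4,4),(2,3,3),(2,2,2),(2,1,1),(0,1,2),(2,2,2),(0,2,4),(2,2,2),(0,2,3),(0,0,2),(2,4,4),(0,3,4),(0,1,4)]]

def auts : List (List (ℕ × ℕ)) :=
 [[(32,32),(1,1)],
  [(0x180000820,0x180000820),(0x180000440,0x180000440),(0x180000801,0x180000801),(0x180000041,0x180000402),(0x180000402,0x180000041),(0x180000022,0x180000022)],
  [(0x180018820,0x180018820),(0x180010c20,0x180010c20),(0x180018440,0x180018440),(0x180008c40,0x180010460),(0x180010460,0x180008c40),(0x180008860,0x180008860),(0x180018801,0x180018801),(0x180010c01,0x180010c01),(0x180018041,0x180018402),(0x180000c41,0x180010403),(0x180010061,0x180008c02),(0x180000861,0x180008803),(0x180018402,0x180018041),(0x180008c02,0x180010061),(0x180018022,0x180018022),(0x180000c22,0x180010023),(0x180008062,0x180008062),(0x180000462,0x180008043),(0x180010403,0x180000c41),(0x180008803,0x180000861),(0x180010023,0x180000c22),(0x180000823,0x180000823),(0x180008043,0x180000462),(0x180000443,0x180000443)],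
  [(0x3980018820,0x3980018820),(0x3980010c20,0x3980010c20),(0x3980018801,0x3980018801),(0x3980010c01,0x3980010c01),(0x31c0008062,0x31c0008062),(0x31c0000462,0x31c0008043),(0x31c0008043,0x31c0000462),(0x31c0000443,0x31c0000443)],
  [(0x180418820,0x180418820),(0x180320820,0x180320820),(0x180410c20,0x180410c20),(0x180220c20,0x180311020),(0x180311020,0x180220c20),(0x180219020,0x180219020),(0x180418440,0x180418440),(0x180320440,0x180320440),(0x180408c40,0x180410460),(0x180120c40,0x180310480),(0x180309040,0x180220460),(0x180119040,0x180218480),(0x180410460,0x180408c40),(0x180220460,0x180309040),(0x180408860,0x180408860),(0x180120860,0x180308880),(0x180209060,0x180209060),(0x180111060,0x180208c80),(0x180310480,0x180120c40),(0x180218480,0x180119040),(0x180308880,0x180120860),(0x180118880,0x180118880),(0x180208c80,0x180111060),(0x180110c80,0x180110c80),(0x180418801,0x180418801),(0x180320801,0x180320801),(0x180410c01,0x180410c01),(0x180220c01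,0x180311001),(0x180311001,0x180220c01),(0x180219001,0x180219001),(0x180418041,0x180418402),(0x180320041,0x180320402),(0x180400c41,0x180410403),(0x180020c41,0x180310404),(0x180301041,0x180220403),(0x180019041,0x180218404),(0x180410061,0x180408c02),(0x180220061,0x180309002),(0x180400861,0x180408803),(0x180020861,0x180308804),(0x180201061,0x180209003),(0x180011061,0x180208c04),(0x180310081,0x180120c02),(0x180218081,0x180119002),(0x180300881,0x180120803),(0x180018881,0x180118804),(0x180200c81,0x180111003),(0x180010c81,0x180110c04),(0x180418402,0x180418041),(0x180320402,0x180320041),(0x180408c02,0x180410061),(0x180120c02,0x180310081),(0x180309002,0x180220061),(0x180119002,0x180218081),(0x180418022,0x180418022),(0x180320022,0x180320022),(0x180400c22,0x180410023),(0x180020c22,0x180310024),(0x180301022,0x180220023),(0x180019022,0x180218024),(0x180408062,0x180408062),(0x180120062,0x180308082),(0x180400462,0x180408043),(0x180020462,0x18030804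4),(0x180101062,0x180208083),(0x180009062,0x180208064),(0x180308082,0x180120062),(0x180118082,0x180118082),(0x180300482,0x180120043),(0x180018482,0x180118044),(0x180100c82,0x180110083),(0x180008c82,0x180110064),(0x180410403,0x180400c41),(0x180220403,0x180301041),(0x180408803,0x180400861),(0x180120803,0x180300881),(0x180209003,0x180201061),(0x180111003,0x180200c81),(0x180410023,0x180400c22),(0x180220023,0x180301022),(0x180400823,0x180400823),(0x180020823,0x180300824),(0x180201023,0x180201023),(0x180011023,0x180200c24),(0x180408043,0x180400462),(0x180120043,0x180300482),(0x180400443,0x180400443),(0x180020443,0x180300444),(0x180101043,0x180200483),(0x180009043,0x180200464),(0x180208083,0x180101062),(0x180110083,0x180100c82),(0x180200483,0x180101043),(0x180010483,0x180100c44),(0x180100883,0x180100883),(0x180008883,0x180100864),(0x180310404,0x180020c41),(0x180218404,0x180019041),(0x180308804,0x180020861),(0x180118804,0x180018881),(0x18020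8c04,0x180011061),(0x180110c04,0x180010c81),(0x180310024,0x180020c22),(0x180218024,0x180019022),(0x180300824,0x180020823),(0x180018824,0x180018824),(0x180200c24,0x180011023),(0x180010c24,0x180010c24),(0x180308044,0x180020462),(0x180118044,0x180018482),(0x180300444,0x180020443),(0x180018444,0x180018444),(0x180100c44,0x180010483),(0x180008c44,0x180010464),(0x180208064,0x180009062),(0x180110064,0x180008c82),(0x180200464,0x180009043),(0x180010464,0x180008c44),(0x180100864,0x180008883),(0x180008864,0x180008864)],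
  [(0x3980418820,0x3980418820),(0x3980320820,0x3980320820),(0x3980410c20,0x3980410c20),(0x3980220c20,0x3980311020),(0x3980311020,0x3980220c20),(0x3980219020,0x3980219020),(0x3980418801,0x3980418801),(0x3980320801,0x3980320801),(0x3980410c01,0x3980410c01),(0x3980220c01,0x3980311001),(0x3980311001,0x3980220c01),(0x3980219001,0x3980219001)],
  [(0x83980418820,0x83980418820),(0x83980410c20,0x83980410c20),(0x83980418801,0x83980418801),(0x83980410c01,0x83980410c01),(0x831c0408062,0x831c0408062),(0x831c0400462,0x831c0408043),(0x831c0408043,0x831c0400462),(0x831c0400443,0x831c0400443)],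
  [(0x1283980418820,0x1283980418820),(0xe64a00209060,0xe64a00209060)],
  [(0x29283980418820,0x29283980418820),(0x1d095180110c80,0x1d095180110c80),(0x254831c0320801,0x254831c0320801),(0x190a49c0011061,0x20e93280208c04),(0x28e64a00408062,0x28e64a00408062),(0x24c75200300482,0x1d464240120043),(0x20ca3a40201023,0x20ca3a40201023),(0x1d464240120043,0x24c75200300482),(0x20e93280208c04,0x190a49c0011061),(0x19274280018444,0x19274280018444)],
  [(0x29283980418820,0x29283980418820),(0x28e84980408062,0x28e84980408062)],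
  [(0x29283980418820,0x29283980418820),(0x18e84a80100883,0x18e84a80100883)],
  [(0x29283980418820,0x29283980418820)],
  [(0x5a9283980418820,0x5a9283980418820)],
  [(0x5a9283980418820,0x5a9283980418820),(0x52cc74240320022,0x52cc74240320022),(0x499683a80201023,0x499683a80201023),(0x3254742c0010c24,0x3254742c0010c24)],
  [(0xc5a9283980418820,0xc5a9283980418820),(0xc52ce64a00410c01,0xc52ce64a00410c01),(0xc49d685180408062,0xc49d685180408062),(0xc3a5465a00400443,0xc3a5465a00400443)]]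

def terms : List ℕ := [2,3,4,4,5,5,5,5,5,5,5,5,5,5,5]

def roots : List (List ℕ) := [[0],[0],[0],[0],[0],[0,2],[0,4],[0,1,2],[0],[0,1,4],[0,1,2],[0,1,2,3,4],[0,1,2,3,4],[0,1],[0,4]]

end Pool.Agent.MP_e6539c_co.TW

end MrgPart0

-- ======== part 1: formerly Pool.Agent.MP_e6539c_co.TW.Defs2
section MrgPart1

/-!
Executable part of the certificate checker: gluing, search trees and the higher rules.
-/

set_option autoImplicit false

namespace Pool.Agent.MP_e6539c_co.TW

noncomputable section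

def PP (j : ℕ) : List (ℕ × ℕ) := lget pieces [] j
def prog (j : ℕ) : List (ℕ × ℕ × ℕ) := lget progs [] j
def aut (j : ℕ) : List (ℕ × ℕ) := lget auts [] j
def tt (j : ℕ) : ℕ := lget terms 0 j
def RR (j : ℕ) : List ℕ := lget roots [] j

structure Ent where
  j : ℕ
  pi : ℕ
  n : ℕ
  len : ℕ
  att : ℕ
  adj : ℕ
  L0 : ℕ
  L1 : ℕ
  L2 : ℕ
  L3 : ℕ
  ys : ℕ

def eX (e : Ent) : List (ℕ × ℕ) := pmap (rl e.pi) (PP e.j)
def entOK (e : Ent) : Bool :=
  force (run e.pi (prog e.j)) fun c =>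
    an (eqL c.X (eX e)) (an (Nat.beq e.n c.n) (an (Nat.beq e.len c.len) (an (Nat.beq e.att c.att)
      (an (Nat.beq e.adj c.adj) (an (Nat.beq e.L0 c.L0) (an (Nat.beq e.L1 c.L1)
        (an (Nat.beq e.L2 c.L2) (an (Nat.beq e.L3 c.L3) (ysOK c.F e.ys)))))))))

def rowsT : ℕ := Nat.sub (Nat.pow 2 192) 1
def colsT : ℕ := rp 63 32 5
def mTT : ℕ := Nat.land rowsT colsT
def mTI : ℕ := Nat.xor rowsT mTT
def mIT : ℕ := Nat.xor colsT mTT
def mII : ℕ := Nat.xor a1k (Nat.lor rowsT colsT)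
def sft (d i : ℕ) : ℕ := cd (Nat.ble i 5) i (Nat.add i d)
def glue (c : Cfg) (e : Ent) : Cfg :=
  ⟨app c.X (pmap (sft (Nat.sub c.n 6)) (eX e)), Nat.add (Nat.sub c.n 6) e.n, conv c.F e.ys,
    Nat.land c.L0 e.L0, Nat.lor (Nat.land c.L0 e.L1) (Nat.land c.L1 e.L0),
    Nat.lor (Nat.lor (Nat.land c.L0 e.L2) (Nat.land c.L1 e.L1)) (Nat.land c.L2 e.L0),
    Nat.lor (Nat.lor (Nat.land c.L0 e.L3) (Nat.land c.L1 e.L2))
      (Nat.lor (Nat.land c.L2 e.L1) (Nat.land c.L3 e.L0)),
    cd (Nat.ble (Nat.add c.n e.n) 38)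
      (Nat.lor (Nat.lor c.adj (Nat.land e.adj mTT))
        (Nat.lor (Nat.shiftLeft (Nat.land e.adj mTI) (Nat.sub c.n 6))
          (Nat.lor (Nat.shiftLeft (Nat.land e.adj mIT) (Nat.mul 32 (Nat.sub c.n 6)))
            (Nat.shiftLeft (Nat.land e.adj mII) (Nat.mul 33 (Nat.sub c.n 6)))))) 0,
    Nat.lor c.att e.att, Nat.add c.len e.len⟩

def kills (c : Cfg) (l : List Ent) : List ℕ → Bool :=
  List.rec (fun _ => true) (fun e _ ih ks => List.rec true (fun k r _ =>
    an (Nat.rec true (fun _ _ => kill0 (glue c e) k) k) (ih r)) ks) l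
def alive (l : List Ent) : List ℕ → List Ent :=
  List.rec (fun _ => []) (fun e r ih ks => List.rec (e :: r) (fun k s _ =>
    Nat.rec (e :: ih s) (fun _ _ => ih s) k) ks) l

inductive Tr (α : Type) : Type
  | nil : Tr α
  | node : List ℕ → α → Tr α → Tr α → Tr α

def goF {α : Type} (act : Cfg → α → Bool) (t : Tr α) : Cfg → List Ent → Bool :=
  Tr.rec (fun _ al => List.rec true (fun _ _ _ => false) al)
    (fun ks a _ _ ih1 ih2 c al => List.rec true (fun e r _ =>
      an (force (glue c e) fun c' => an (act c' a) (an (kills c' (e :: r) ks)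
        (ih1 c' (alive (e :: r) ks)))) (ih2 c r)) al) t
def node {α : Type} (act : Cfg → α → Bool) (c : Cfg) (l : List Ent) (ks : List ℕ) (a : α)
    (t : Tr α) : Bool :=
  an (act c a) (an (kills c l ks) (goF act t c (alive l ks)))

def fin (c : Cfg) (s : ℕ) : Bool :=
  Nat.rec (tb c.F 0) (fun t _ => Nat.rec (nz (Nat.land c.L2 (ntm c.att))) (fun _ _ => kill0 c s) t) s
def cnt (n x : ℕ) : ℕ := Nat.rec 0 (fun i acc => cd (tb x i) (Nat.succ acc) acc) n
def five (X : List (ℕ × ℕ)) : Bool := st (usedOf X) fun u => Nat.ble 5 (cnt 32 u)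
def starX (n N : ℕ) (X : List (ℕ × ℕ)) : List (ℕ × ℕ) :=
  Nat.rec X (fun l acc => cd (tb N l) ((l, n) :: acc) acc) 6
def star1 (c : Cfg) (N s : ℕ) : Bool :=
  Nat.rec (st (adjOf (starX c.n N c.X)) fun A => pet A (Nat.div s 2))
    (fun _ _ => red c (ntm N) 0 (Nat.div s 2)) (Nat.mod s 2)
def stars (c : Cfg) (ns : List ℕ) : Bool :=
  Nat.rec (motive := fun _ => List ℕ → Bool) (fun _ => true) (fun N ih l =>
    cd (an (sub N c.att) (Nat.ble 4 (cnt 6 N)))
      (List.rec false (fun s r _ => an (star1 c N s) (ih r)) l) (ih l)) 64 ns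
def lfil {α : Type} (p : α → Bool) (l : List α) : List α :=
  List.rec [] (fun a _ ih => cd (p a) (a :: ih) ih) l

inductive K1 : Type
  | k0 : ℕ → K1
  | star : List ℕ → List ℕ → ℕ → Tr ℕ → K1

def chk1 (SC : List Ent) (c0 : Cfg) (k : K1) : Bool :=
  force c0 fun c => K1.rec (fun s => kill0 c s) (fun ns ks a t => an (five c.X) (an (stars c ns)
    (node fin c (lfil (fun e => sub e.att c.att) SC) ks a t))) k

def one (x : ℕ) : Bool := an (nz x) (nt (two x))
def onem (t : ℕ) : ℕ := mkM 64 fun u => orr (one (Nat.land u t)) (one (Nat.land t (Nat.xor 63 u)))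
def ex2 (t : ℕ) (ps : List (ℕ × ℕ × K1 × K1 × K1)) : ℕ :=
  List.rec 0 (fun p _ acc => Nat.lor acc (patm t (Nat.lor (Nat.pow 2 p.1) (Nat.pow 2 p.2.1)))) ps

inductive K2 : Type
  | k1 : K1 → K2
  | ext : ℕ → List K1 → List (ℕ × ℕ × K1 × K1 × K1) → K2

def chk2 (SC : List Ent) (c0 : Cfg) (k : K2) : Bool :=
  force c0 fun c => K2.rec (fun k => chk1 SC c k) (fun s fs ps => an (five c.X)
    (an (rall 6 fun a => orr (nt (tb c.att a)) (chk1 SC (opFor c a) (lget fs (K1.k0 0) a)))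
      (an (lall ps fun p => an (tb c.att p.1) (an (tb c.att p.2.1) (an (nt (Nat.beq p.1 p.2.1))
          (an (chk1 SC (opFor (opAdd c p.1 p.2.1) p.1) p.2.2.1)
            (an (chk1 SC (opFor (opAdd c p.1 p.2.1) p.2.1) p.2.2.2.1)
              (chk1 SC (opFor (opAdd (opPen c p.1) p.1 p.2.1) p.2.1) p.2.2.2.2))))))
        (red c (Nat.lor (onem c.att) (ex2 c.att ps)) (ex2 c.att ps) s)))) k

def sg (σ i : ℕ) : ℕ := fld σ (Nat.mul 5 i) 32
def idok (σ τ i : ℕ) : Bool :=
  an (Nat.beq (sg τ (sg σ i)) i) (cd (Nat.ble i 5) (Nat.ble (sg σ i) 5) (Nat.ble 6 (sg σ i)))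
def isob (X Y : List (ℕ × ℕ)) (σ τ : ℕ) : Bool :=
  st (adjOf Y) fun A => st (adjOf (pmap (sg σ) X)) fun B =>
    an (lall X fun p => an (eb A (sg σ p.1) (sg σ p.2)) (an (idok σ τ p.1) (idok σ τ p.2)))
      (lall Y fun q => an (Nat.ble q.2 31) (eb B q.1 q.2))

inductive Act : Type
  | iso : ℕ → ℕ → ℕ → Act
  | kill : K2 → Act

def act (SC : List Ent) (c : Cfg) (a : Act) : Bool :=
  Act.rec (fun j σ τ => an (Nat.ble j 14) (isob (opFor c 5).X (PP j) σ τ))
    (fun k => chk2 SC (opFor c 5) k) a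

def code (f : ℕ → ℕ) (t : ℕ) : ℕ := Nat.rec 0 (fun l acc => Nat.add acc (Nat.mul (f l) (Nat.pow 8 l))) t
def mark (j : ℕ) (T : List Ent) : ℕ :=
  List.rec 0 (fun e _ acc => List.rec acc (fun μ _ acc' => st acc' fun A =>
    Nat.lor A (Nat.pow 2 (code (fun l => rl e.pi (sg μ.1 l)) (tt j)))) (aut j)) T
def allInj (k : ℕ → ℕ → Bool) (t : ℕ) : ℕ → ℕ → Bool :=
  Nat.rec (motive := fun _ => ℕ → ℕ → Bool) k (fun l ih c u => rall 6 fun a => orr (tb u a)
    (st (Nat.add c (Nat.mul a (Nat.pow 8 l))) fun c' => st (Nat.lor u (Nat.pow 2 a)) fun u' => ih c' u')) t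
def cover (j : ℕ) (T : List Ent) (n5 : Bool) : Bool :=
  an (lall T fun e => an (Nat.beq e.j j) (entOK e))
    (st (mark j T) fun M => allInj (fun c u => orr (an n5 (nt (tb u 5))) (tb M c)) (tt j) 0 0)
def pieceOK (j : ℕ) : Bool :=
  an (ndb (PP j)) (an (Nat.beq (attOf (PP j)) (Nat.sub (Nat.pow 2 (tt j)) 1)) (an (Nat.ble (tt j) 5)
    (an (Nat.ble 1 (tt j)) (an (lall (aut j) fun μ => isob (PP j) (PP j) μ.1 μ.2)
      (rall (tt j) fun r => lany (aut j) fun μ => lany (RR j) fun r' => Nat.beq (sg μ.1 r) r')))))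
def swc (r : ℕ) : ℕ := code (fun l => cd (Nat.beq l r) 5 (cd (Nat.beq l 5) r l)) 6
def root (SC : List Ent) (j r : ℕ) (l : List Ent) (ks : List ℕ) (a : Act) (t : Tr Act) : Bool :=
  st (swc r) fun π => force (run π (prog j)) fun c =>
    an (eqL c.X (pmap (rl π) (PP j))) (node (act SC) c l ks a t)

end

end Pool.Agent.MP_e6539c_co.TW

end MrgPart1

-- ======== part 2: formerly Pool.Agent.MP_e6539c_co.TW.Pure
section MrgPart2

/-!
Meaning of the masks carried by a configuration.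
-/

set_option autoImplicit false
set_option exponentiation.threshold 2000

namespace Pool.Agent.MP_e6539c_co.TW

open Finset Finsupp
open Classical

abbrev EL := List (ℕ × ℕ)

def Us (X : EL) (i : ℕ) : Prop := ∃ p ∈ X, p.1 = i ∨ p.2 = i
def Ed (X : EL) (a b : ℕ) : Prop := (a, b) ∈ X ∨ (b, a) ∈ X
noncomputable def ev (p : ℕ × ℕ) (c : K4) : ℕ →₀ K4 := single p.1 c + single p.2 c
def Real : EL → (ℕ →₀ K4) → Prop
  | [], f => f = 0
  | p :: X, f => ∃ c, c ≠ 0 ∧ ∃ g, Real X g ∧ f = ev p c + g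
noncomputable def put (x : ℕ) : ℕ →₀ K4 := ∑ l ∈ range 6, single l (ext x l)
def FE (X : EL) (M : ℕ) : Prop := ∀ x < 1024, M.testBit x = true → Real X (put x)
noncomputable def cutL (X : EL) (W : ℕ → Prop) : ℕ := X.countP (fun p => decide (¬ (W p.1 ↔ W p.2)))
def Lam (X : EL) (k M : ℕ) : Prop :=
  ∀ t < 64, M.testBit t = true → ∃ W : ℕ → Prop, (∀ l < 6, W l ↔ t.testBit l = true) ∧ cutL X W ≤ k
def AdjS (X : EL) (A : ℕ) : Prop := ∀ a b, b < 32 → A.testBit (32 * a + b) = true → Ed X a b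

structure Cfg.OK (c : Cfg) : Prop where
  n6 : 6 ≤ c.n
  bnd : ∀ i, Us c.X i → i < c.n
  F : FE c.X c.F
  L0 : Lam c.X 0 c.L0
  L1 : Lam c.X 1 c.L1
  L2 : Lam c.X 2 c.L2
  L3 : Lam c.X 3 c.L3
  adj : AdjS c.X c.adj
  att : ∀ l, c.att.testBit l = true ↔ l < 6 ∧ Us c.X l
  len : c.len ≤ c.X.length

theorem Ed.symm {X : EL} {a b : ℕ} (h : Ed X a b) : Ed X b a := Or.symm h
theorem Ed.us {X : EL} {a b : ℕ} (h : Ed X a b) : Us X a := by
  rcases h with h | h
  · exact ⟨_, h, Or.inl rfl⟩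
  · exact ⟨_, h, Or.inr rfl⟩
theorem Us.ed {X : EL} {a : ℕ} (h : Us X a) : ∃ b, Ed X a b := by
  obtain ⟨p, hp, rfl | rfl⟩ := h
  · exact ⟨p.2, Or.inl hp⟩
  · exact ⟨p.1, Or.inr hp⟩
theorem us_l {X : EL} {p : ℕ × ℕ} (h : p ∈ X) : Us X p.1 := ⟨p, h, Or.inl rfl⟩
theorem us_r {X : EL} {p : ℕ × ℕ} (h : p ∈ X) : Us X p.2 := ⟨p, h, Or.inr rfl⟩
theorem us_nil (i : ℕ) : ¬ Us [] i := by simp [Us]
theorem us_cons {p : ℕ × ℕ} {X : EL} {i : ℕ} : Us (p :: X) i ↔ (p.1 = i ∨ p.2 = i) ∨ Us X i := by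
  simp [Us]
theorem us_append {X Y : EL} {i : ℕ} : Us (X ++ Y) i ↔ Us X i ∨ Us Y i := by
  simp only [Us, List.mem_append, or_and_right, exists_or]
theorem pmap_eq (f : ℕ → ℕ) (X : EL) : pmap f X = X.map (fun p => (f p.1, f p.2)) := lmap_eq _ _
theorem us_pmap {f : ℕ → ℕ} {X : EL} {j : ℕ} : Us (pmap f X) j ↔ ∃ i, Us X i ∧ f i = j := by
  rw [pmap_eq]
  constructor
  · rintro ⟨q, hq, h⟩
    obtain ⟨p, hp, rfl⟩ := List.mem_map.1 hq
    rcases h with h | h
    · exact ⟨_, us_l hp, h⟩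
    · exact ⟨_, us_r hp, h⟩
  · rintro ⟨i, ⟨p, hp, h⟩, rfl⟩
    refine ⟨_, List.mem_map_of_mem hp, ?_⟩
    rcases h with rfl | rfl <;> simp
theorem Ed.pmap {X : EL} {a b : ℕ} (h : Ed X a b) (f : ℕ → ℕ) : Ed (pmap f X) (f a) (f b) := by
  rw [pmap_eq]
  rcases h with h | h
  · exact Or.inl (List.mem_map_of_mem (f := fun p : ℕ × ℕ => (f p.1, f p.2)) h)
  · exact Or.inr (List.mem_map_of_mem (f := fun p : ℕ × ℕ => (f p.1, f p.2)) h)
theorem ed_pmap {X : EL} {a b : ℕ} {f : ℕ → ℕ} (h : Ed (pmap f X) a b) :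
    ∃ i j, Ed X i j ∧ f i = a ∧ f j = b := by
  rw [pmap_eq] at h
  rcases h with h | h <;> obtain ⟨p, hp, h⟩ := List.mem_map.1 h <;> simp only [Prod.mk.injEq] at h
  · exact ⟨p.1, p.2, Or.inl hp, h⟩
  · exact ⟨p.2, p.1, Or.inr hp, h.2, h.1⟩

theorem Real.append {X Y : EL} {f g : ℕ →₀ K4} (h : Real X f) (h' : Real Y g) :
    Real (X ++ Y) (f + g) := by
  induction X generalizing f with
  | nil => obtain rfl : f = 0 := h; simpa using h'
  | cons p X ih =>
    obtain ⟨c, hc, f', hf, rfl⟩ := h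
    exact ⟨c, hc, _, ih hf, add_assoc _ _ _⟩
theorem Real.map {X : EL} {f : ℕ →₀ K4} (h : Real X f) (σ : ℕ → ℕ) :
    Real (pmap σ X) (mapDomain σ f) := by
  rw [pmap_eq]
  induction X generalizing f with
  | nil => obtain rfl : f = 0 := h; exact mapDomain_zero
  | cons p X ih =>
    obtain ⟨c, hc, f', hf, rfl⟩ := h
    refine ⟨c, hc, _, ih hf, ?_⟩
    simp [ev, mapDomain_add, mapDomain_single]

theorem put_apply (x k : ℕ) : put x k = if k < 6 then ext x k else 0 := by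
  simp [put, Finsupp.finsetSum_apply, single_apply]
theorem put_xor (x y : ℕ) : put (x ^^^ y) = put x + put y := by
  ext1 k
  simp only [put_apply, Finsupp.add_apply, ext_xor]
  split_ifs <;> simp
theorem put_zero : put 0 = 0 := by
  ext1 k
  simp [put_apply, ext_zero]
theorem ev_apply (p : ℕ × ℕ) (c : K4) (k : ℕ) :
    ev p c k = (if p.1 = k then c else 0) + (if p.2 = k then c else 0) := by
  simp [ev, single_apply]
theorem put_vk (c : K4) {a b : ℕ} (ha : a < 6) (hb : b < 6) (x : ℕ) :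
    put x = ev (a, b) c + put (x ^^^ vk c a ^^^ vk c b) := by
  ext1 k
  simp only [put_apply, Finsupp.add_apply, ev_apply]
  by_cases h : k < 6
  · rw [if_pos h, if_pos h, ext_vk2 c (by omega) (by omega) (by omega)]
    generalize ((if a = k then c else 0) + (if b = k then c else 0)) = u
    have := K4_add_self u
    linear_combination -this
  · rw [if_neg h, if_neg h, if_neg (by omega), if_neg (by omega)]
    simp
theorem map_put {α : Type} (σ : ℕ → α) (x : ℕ) :
    mapDomain σ (put x) = ∑ l ∈ range 6, single (σ l) (ext x l) := by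
  simp [put, mapDomain_finsetSum, mapDomain_single]
theorem rn_eq (a n i : ℕ) : rn a n i = if i = a then n else i := by simp [rn, cd_eq]
theorem map_rn {a : ℕ} (ha : a < 6) (n x : ℕ) :
    put x = ev (n, a) (ext x a) + mapDomain (rn a n) (put x) := by
  rw [map_put, put, ← Finset.add_sum_erase _ _ (mem_range.2 ha), ← Finset.add_sum_erase _ _ (mem_range.2 ha),
    rn_eq, if_pos rfl]
  rw [sum_congr rfl (s₁ := (range 6).erase a) (f := fun l => single (rn a n l) (ext x l))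
    (g := fun l => single l (ext x l)) (fun l hl => by rw [rn_eq, if_neg (mem_erase.1 hl).1])]
  have : single n (ext x a) + single n (ext x a) = (0 : ℕ →₀ K4) := by
    rw [← single_add, K4_add_self, single_zero]
  unfold ev
  rw [add_comm (single n _), add_assoc, ← add_assoc (single n _), this, zero_add]

theorem cutL_cons (p : ℕ × ℕ) (X : EL) (W : ℕ → Prop) :
    cutL (p :: X) W = cutL X W + if W p.1 ↔ W p.2 then 0 else 1 := by
  unfold cutL
  rw [List.countP_cons]
  by_cases h : (W p.1 ↔ W p.2) <;> simp [h]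
theorem cutL_append (X Y : EL) (W : ℕ → Prop) : cutL (X ++ Y) W = cutL X W + cutL Y W :=
  List.countP_append
theorem cutL_pmap (f : ℕ → ℕ) (X : EL) (W : ℕ → Prop) :
    cutL (pmap f X) W = cutL X (fun i => W (f i)) := by
  rw [pmap_eq]
  unfold cutL
  rw [List.countP_map]
  rfl
theorem cutL_congr {X : EL} {W W' : ℕ → Prop} (h : ∀ i, Us X i → (W i ↔ W' i)) :
    cutL X W = cutL X W' := by
  apply List.countP_congr
  intro p hp
  simp only [h _ (us_l hp), h _ (us_r hp)]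

theorem adjOf_s (X : EL) : AdjS X (adjOf X) := by
  intro a b hb
  induction X with
  | nil => simp [adjOf]
  | cons p X ih =>
    have : adjOf (p :: X) = cd (an (Nat.ble p.1 31) (Nat.ble p.2 31))
      (adjOf X ||| (2 ^ (32 * p.1 + p.2) ||| 2 ^ (32 * p.2 + p.1))) (adjOf X) := rfl
    rw [this, cd_eq]
    have mono : Ed X a b → Ed (p :: X) a b :=
      fun h => h.imp (List.mem_cons_of_mem _) (List.mem_cons_of_mem _)
    split_ifs with h
    · simp only [an_iff, Nat.ble_eq] at h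
      simp only [Nat.testBit_or, Bool.or_eq_true, Nat.testBit_two_pow, decide_eq_true_eq]
      rintro (h' | h' | h')
      · exact mono (ih h')
      · left
        have : p = (a, b) := Prod.ext (by simp only; omega) (by simp only; omega)
        simp [this]
      · right
        have : p = (b, a) := Prod.ext (by simp only; omega) (by simp only; omega)
        simp [this]
    · exact fun h' => mono (ih h')
theorem usedOf_bit (X : EL) (i : ℕ) : (usedOf X).testBit i = true ↔ Us X i := by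
  induction X with
  | nil => simp [usedOf, us_nil]
  | cons p X ih =>
    have : usedOf (p :: X) = usedOf X ||| (2 ^ p.1 ||| 2 ^ p.2) := rfl
    rw [this, us_cons, or_comm]
    simp only [Nat.testBit_or, Bool.or_eq_true, Nat.testBit_two_pow, decide_eq_true_eq, ih]
theorem attOf_bit (X : EL) (l : ℕ) : (attOf X).testBit l = true ↔ l < 6 ∧ Us X l := by
  unfold attOf
  rw [Nat.land_eq, Nat.testBit_and, Bool.and_eq_true, usedOf_bit,
    show 63 = 2 ^ 6 - 1 from rfl, Nat.testBit_two_pow_sub_one, and_comm]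
  simp

theorem mkC_ok {X : EL} {n F L0 L1 L2 L3 : ℕ} (h1 : 6 ≤ n) (h2 : ∀ i, Us X i → i < n)
    (h3 : FE X F) (h4 : Lam X 0 L0) (h5 : Lam X 1 L1) (h6 : Lam X 2 L2) (h7 : Lam X 3 L3) :
    (mkC X n F L0 L1 L2 L3).OK :=
  ⟨h1, h2, h3, h4, h5, h6, h7, adjOf_s X, attOf_bit X, (llen_eq X).le⟩

theorem emp_ok : emp.OK := by
  have : ∀ k, Lam [] k a64 := fun k t _ _ => ⟨fun l => t.testBit l = true, fun _ _ => Iff.rfl, by simp [cutL]⟩
  refine mkC_ok le_rfl (fun i h => absurd h (us_nil i)) ?_ (this _) (this _) (this _) (this _)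
  intro x _ h
  rw [Nat.testBit_one_eq_true_iff_self_eq_zero] at h
  subst h
  exact put_zero

theorem Lam.or {X : EL} {k A B : ℕ} (h : Lam X k A) (h' : Lam X k B) : Lam X k (Nat.lor A B) := by
  intro t ht hb
  rw [Nat.lor_eq, Nat.testBit_or, Bool.or_eq_true] at hb
  exact hb.elim (h t ht) (h' t ht)
theorem Lam.same {X : EL} {k A a b : ℕ} (h : Lam X k A) (ha : a < 6) (hb : b < 6) :
    Lam ((a, b) :: X) k (Nat.land A (sam a b)) := by
  intro t ht h'
  rw [Nat.land_eq, Nat.testBit_and, Bool.and_eq_true, sam_bit (by omega) (by omega) (by omega)] at h'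
  obtain ⟨W, h1, h2⟩ := h t ht h'.1
  refine ⟨W, h1, ?_⟩
  rw [cutL_cons, if_pos (by rw [h1 a ha, h1 b hb]; exact h'.2)]
  exact h2
theorem Lam.succ {X : EL} {k A : ℕ} (h : Lam X k A) (p : ℕ × ℕ) : Lam (p :: X) (k + 1) A := by
  intro t ht h'
  obtain ⟨W, h1, h2⟩ := h t ht h'
  refine ⟨W, h1, ?_⟩
  rw [cutL_cons]
  split_ifs <;> omega

theorem opAdd_ok {c : Cfg} (h : c.OK) {a b : ℕ} (ha : a < 6) (hb : b < 6) : (opAdd c a b).OK := by
  refine mkC_ok h.n6 ?_ ?_ (h.L0.same ha hb) ((h.L1.same ha hb).or (h.L0.succ _))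
    ((h.L2.same ha hb).or (h.L1.succ _)) ((h.L3.same ha hb).or (h.L2.succ _))
  · intro i hi
    have := h.n6
    rcases us_cons.1 hi with (rfl | rfl) | hi
    · simp only; omega
    · simp only; omega
    · exact h.bnd i hi
  · intro x hx hb'
    obtain ⟨k, hk, h'⟩ := (addE_bit (by omega) (by omega) _ (by omega)).1 hb'
    exact ⟨k, hk, _, h.F _ (Nat.xor_lt_two_pow (n := 10) (Nat.xor_lt_two_pow (n := 10) hx (vk_lt' k a ha))
      (vk_lt' k b hb)) h', put_vk k ha hb x⟩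

theorem lam_rn {X : EL} {n a t : ℕ} (hn : 6 ≤ n) (hb : ∀ i, Us X i → i < n) (W : ℕ → Prop)
    (h : ∀ l < 6, l ≠ a → (W l ↔ t.testBit l = true)) :
    ∃ W' : ℕ → Prop, (∀ l < 6, W' l ↔ t.testBit l = true) ∧ cutL (pmap (rn a n) X) W' = cutL X W ∧
      (W' n ↔ W a) := by
  refine ⟨fun i => if i = n then W a else if i = a then t.testBit a = true else W i, ?_, ?_, by simp⟩
  · intro l hl
    beta_reduce
    rw [if_neg (by omega)]
    split_ifs with h'
    · rw [h']
    · exact h l hl h'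
  · rw [cutL_pmap]
    apply cutL_congr
    intro i hi
    have := hb i hi
    rw [rn_eq]
    by_cases h' : i = a
    · simp [h']
    · rw [if_neg h', if_neg (by omega), if_neg h']
theorem Lam.rn1 {X : EL} {k A n a : ℕ} (h : Lam X k A) (hn : 6 ≤ n) (hb : ∀ i, Us X i → i < n) :
    Lam (pmap (rn a n) X) k A := by
  intro t ht h'
  obtain ⟨W, h1, h2⟩ := h t ht h'
  obtain ⟨W', h3, h4, -⟩ := lam_rn (a := a) hn hb W (fun l hl _ => h1 l hl)
  exact ⟨W', h3, h4 ▸ h2⟩
theorem Lam.rn2 {X : EL} {k A n a : ℕ} (h : Lam X k A) (hn : 6 ≤ n) (hb : ∀ i, Us X i → i < n)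
    (ha : a < 6) : Lam (pmap (rn a n) X) k (swp a A) := by
  intro t ht h'
  rw [swp_bit (by omega) _ (by omega)] at h'
  obtain ⟨W, h1, h2⟩ := h _ (Nat.xor_lt_two_pow (n := 6) ht (Nat.pow_lt_pow_right (by omega) ha)) h'
  obtain ⟨W', h3, h4, -⟩ := lam_rn (a := a) (t := t) hn hb W (fun l hl hla => by
    rw [h1 l hl, Nat.testBit_xor, Nat.testBit_two_pow]
    simp [hla.symm])
  exact ⟨W', h3, h4 ▸ h2⟩
theorem Lam.rn3 {X : EL} {k A n a : ℕ} (h : Lam X k A) (hn : 6 ≤ n) (hb : ∀ i, Us X i → i < n)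
    (ha : a < 6) : Lam ((n, a) :: pmap (rn a n) X) k A := by
  intro t ht h'
  obtain ⟨W, h1, h2⟩ := h t ht h'
  obtain ⟨W', h3, h4, h5⟩ := lam_rn (a := a) hn hb W (fun l hl _ => h1 l hl)
  refine ⟨W', h3, ?_⟩
  rw [cutL_cons, if_pos (by rw [h5, h3 a ha, h1 a ha]), h4]
  exact h2
theorem bnd_rn {X : EL} {n a : ℕ} (hb : ∀ i, Us X i → i < n) (i : ℕ) (hi : Us (pmap (rn a n) X) i) :
    i < n + 1 := by
  obtain ⟨j, hj, rfl⟩ := us_pmap.1 hi
  have := hb j hj
  rw [rn_eq]
  split_ifs <;> omega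

theorem opFor_ok {c : Cfg} (h : c.OK) {a : ℕ} (ha : a < 6) : (opFor c a).OK := by
  refine mkC_ok (Nat.le_succ_of_le h.n6) (bnd_rn h.bnd) ?_
    ((h.L0.rn1 h.n6 h.bnd).or (h.L0.rn2 h.n6 h.bnd ha))
    ((h.L1.rn1 h.n6 h.bnd).or (h.L1.rn2 h.n6 h.bnd ha))
    ((h.L2.rn1 h.n6 h.bnd).or (h.L2.rn2 h.n6 h.bnd ha))
    ((h.L3.rn1 h.n6 h.bnd).or (h.L3.rn2 h.n6 h.bnd ha))
  intro x hx hb
  rw [Nat.land_eq, Nat.testBit_and, Bool.and_eq_true, zm_bit ha hx] at hb
  have := map_rn ha c.n x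
  rw [hb.2, ev, single_zero, single_zero, add_zero, zero_add] at this
  rw [this]
  exact (h.F x hx hb.1).map _

theorem opPen_ok {c : Cfg} (h : c.OK) {a : ℕ} (ha : a < 6) : (opPen c a).OK := by
  refine mkC_ok (Nat.le_succ_of_le h.n6) ?_ ?_ (h.L0.rn3 h.n6 h.bnd ha)
    ((h.L1.rn3 h.n6 h.bnd ha).or ((h.L0.rn2 h.n6 h.bnd ha).succ _))
    ((h.L2.rn3 h.n6 h.bnd ha).or ((h.L1.rn2 h.n6 h.bnd ha).succ _))
    ((h.L3.rn3 h.n6 h.bnd ha).or ((h.L2.rn2 h.n6 h.bnd ha).succ _))
  · intro i hi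
    have := h.n6
    rcases us_cons.1 hi with (rfl | rfl) | hi
    · simp
    · simp only; omega
    · exact bnd_rn h.bnd i hi
  · intro x hx hb
    rw [Nat.land_eq, Nat.testBit_and, Bool.and_eq_true, nzm_bit ha hx] at hb
    exact ⟨_, hb.2, _, (h.F x hx hb.1).map _, map_rn ha c.n x⟩

theorem run_ok (π : ℕ) (pr : List (ℕ × ℕ × ℕ)) : (run π pr).OK := by
  induction pr with
  | nil => exact emp_ok
  | cons o pr ih =>
    change (step π o (run π pr)).OK
    unfold step
    simp only [st_eq, cd_eq, an_iff, Nat.ble_eq]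
    split_ifs with h
    · rcases o.1 with _ | _ | _
      · exact opAdd_ok ih (by omega) (by omega)
      · exact opFor_ok ih (by omega)
      · exact opPen_ok ih (by omega)
    · exact ih

@[simp] theorem force_eq {α : Type} (c : Cfg) (k : Cfg → α) : force c k = k c := by
  simp [force]

theorem eqp_iff (p q : ℕ × ℕ) : eqp p q = true ↔ p = q := by simp [eqp, Prod.ext_iff]
theorem eqL_eq {X Y : EL} (h : eqL X Y = true) : X = Y := by
  induction X generalizing Y with
  | nil => cases Y with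
    | nil => rfl
    | cons q Y => exact absurd h (by simp [eqL])
  | cons p X ih => cases Y with
    | nil => exact absurd h (by simp [eqL])
    | cons q Y =>
      change an (eqp p q) (eqL X Y) = true at h
      rw [an_iff, eqp_iff] at h
      rw [h.1, ih h.2]

def Ent.OK (e : Ent) : Prop :=
  ∃ F, (Cfg.mk (eX e) e.n F e.L0 e.L1 e.L2 e.L3 e.adj e.att e.len).OK ∧ ysOK F e.ys = true

theorem entOK_ok {e : Ent} (h : entOK e = true) : e.OK := by
  unfold entOK at h
  simp only [force_eq, an_iff, Nat.beq_eq] at h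
  obtain ⟨h1, h2, h3, h4, h5, h6, h7, h8, h9, h10⟩ := h
  refine ⟨_, ?_, h10⟩
  rw [← eqL_eq h1, h2, h3, h4, h5, h6, h7, h8, h9]
  exact run_ok _ _

theorem conv_bit {M F s x : ℕ} (hx : x < 1024) (h : ysOK F s = true)
    (h' : (conv M s).testBit x = true) :
    ∃ y < 1024, F.testBit y = true ∧ M.testBit (x ^^^ y) = true := by
  unfold ysOK at h
  unfold conv at h'
  generalize 200 = n at h h'
  suffices H : ∀ acc, (Nat.rec (motive := fun _ => ℕ → ℕ → ℕ) (fun _ acc => acc)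
      (fun _ ih s acc => Nat.rec acc (fun y _ => ih (Nat.div s 2048) (Nat.lor acc (sh M y)))
      (Nat.mod s 2048)) n s acc).testBit x = true → acc.testBit x = true ∨
      ∃ y < 1024, F.testBit y = true ∧ M.testBit (x ^^^ y) = true by
    simpa using H 0 h'
  clear h'
  induction n generalizing s with
  | zero => exact fun _ h => Or.inl h
  | succ n ih =>
    intro acc
    simp only at h ⊢
    generalize Nat.mod s 2048 = y at h
    cases y with
    | zero => exact fun h => Or.inl h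
    | succ y =>
      change an (an _ _) _ = true at h
      rw [an_iff, an_iff, Nat.ble_eq, tb_eq] at h
      intro h'
      rcases ih h.2 _ h' with h2 | h2
      · rw [Nat.lor_eq, Nat.testBit_or, Bool.or_eq_true, sh_bit _ (by omega) (by omega)] at h2
        exact h2.imp_right fun h3 => ⟨y, by omega, h.1.2, h3⟩
      · exact Or.inr h2

theorem sft_eq (d i : ℕ) : sft d i = if i ≤ 5 then i else i + d := by simp [sft, cd_eq]

theorem Lam.glue {X Y : EL} {n i j A B : ℕ} (h : Lam X i A) (h' : Lam Y j B) (hn : 6 ≤ n)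
    (hb : ∀ i, Us X i → i < n) (k : ℕ) (hk : i + j = k) :
    Lam (app X (pmap (sft (Nat.sub n 6)) Y)) k (Nat.land A B) := by
  intro t ht hb'
  rw [Nat.land_eq, Nat.testBit_and, Bool.and_eq_true] at hb'
  obtain ⟨W1, a1, b1⟩ := h t ht hb'.1
  obtain ⟨W2, a2, b2⟩ := h' t ht hb'.2
  refine ⟨fun i => if i < n then W1 i else W2 (i - (n - 6)), ?_, ?_⟩
  · intro l hl
    simp only [if_pos (show l < n by omega)]
    exact a1 l hl
  · rw [app_eq, cutL_append, cutL_pmap, cutL_congr (W' := W1), cutL_congr (X := Y) (W' := W2)]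
    · omega
    · intro i _
      rw [sft_eq, Nat.sub_eq]
      by_cases h5 : i ≤ 5
      · rw [if_pos h5, if_pos (by omega), a1 i (by omega), a2 i (by omega)]
      · rw [if_neg h5, if_neg (by omega), Nat.add_sub_cancel]
    · intro i hi
      rw [if_pos (hb i hi)]

theorem mask_s (m : ℕ) (P : ℕ → Prop) [DecidablePred P] (h1 : m < 2 ^ 1024)
    (h2 : rall 1024 (fun p => orr (nt (tb m p)) (decide (P p))) = true) (p : ℕ)
    (h : m.testBit p = true) : P p := by
  have hp : p < 1024 := by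
    by_contra hc
    rw [Nat.testBit_lt_two_pow (lt_of_lt_of_le h1 (Nat.pow_le_pow_right (by omega) (by omega)))] at h
    exact absurd h (by simp)
  simp only [rall_iff, orr_iff, nt_iff, tb_eq, decide_eq_true_eq] at h2
  exact (h2 p hp).resolve_left (by simp [h])
theorem mTT_s : ∀ p, mTT.testBit p = true → p / 32 ≤ 5 ∧ p % 32 ≤ 5 :=
  mask_s _ _ (by decide +kernel) (by decide +kernel)
theorem mTI_s : ∀ p, mTI.testBit p = true → p / 32 ≤ 5 ∧ ¬ p % 32 ≤ 5 :=
  mask_s _ _ (by decide +kernel) (by decide +kernel)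
theorem mIT_s : ∀ p, mIT.testBit p = true → ¬ p / 32 ≤ 5 ∧ p % 32 ≤ 5 :=
  mask_s _ _ (by decide +kernel) (by decide +kernel)
theorem mII_s : ∀ p, mII.testBit p = true → ¬ p / 32 ≤ 5 ∧ ¬ p % 32 ≤ 5 :=
  mask_s _ _ (by decide +kernel) (by decide +kernel)

theorem glue_ok {c : Cfg} {e : Ent} (h : c.OK) (he : e.OK) : (glue c e).OK := by
  obtain ⟨F, h', hy⟩ := he
  have n1 := h.n6
  have n2 : 6 ≤ e.n := h'.n6
  have g : ∀ {i j A B : ℕ}, Lam c.X i A → Lam (eX e) j B → ∀ k, i + j = k →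
      Lam (app c.X (pmap (sft (Nat.sub c.n 6)) (eX e))) k (Nat.land A B) :=
    fun a b => a.glue b h.n6 h.bnd
  refine ⟨?_, ?_, ?_, g h.L0 h'.L0 _ rfl, (g h.L0 h'.L1 _ rfl).or (g h.L1 h'.L0 _ rfl),
    ((g h.L0 h'.L2 _ rfl).or (g h.L1 h'.L1 _ rfl)).or (g h.L2 h'.L0 _ rfl),
    ((g h.L0 h'.L3 _ rfl).or (g h.L1 h'.L2 _ rfl)).or
      ((g h.L2 h'.L1 _ rfl).or (g h.L3 h'.L0 _ rfl)), ?_, ?_, ?_⟩
  · change 6 ≤ c.n - 6 + e.n
    omega
  · intro i hi
    change i < c.n - 6 + e.n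
    change Us (app _ _) i at hi
    rw [app_eq, us_append, us_pmap] at hi
    rcases hi with hi | ⟨j, hj, rfl⟩
    · have := h.bnd i hi; omega
    · have : j < e.n := h'.bnd j hj
      rw [sft_eq, Nat.sub_eq]
      split_ifs <;> omega
  · intro x hx hb
    obtain ⟨y, hy1, hy2, hy3⟩ := conv_bit hx hy hb
    have e1 : put x = put (x ^^^ y) + mapDomain (sft (Nat.sub c.n 6)) (put y) := by
      rw [map_put, sum_congr rfl (g := fun l => single l (ext y l))
        (fun l hl => by rw [sft_eq, if_pos (by have := mem_range.1 hl; omega)]), ← put, ← put_xor,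
        Nat.xor_assoc, Nat.xor_self, Nat.xor_zero]
    change Real (app _ _) _
    rw [app_eq, e1]
    exact (h.F _ (Nat.xor_lt_two_pow (n := 10) hx hy1) hy3).append ((h'.F y hy1 hy2).map _)
  · intro a b hb hbit
    change Ed (app _ _) a b
    rw [app_eq]
    simp only [glue, cd_eq, Nat.ble_eq, Nat.add_eq, Nat.sub_eq, Nat.mul_eq] at hbit
    split_ifs at hbit with hn
    swap
    · simp at hbit
    have key : ∀ q, e.adj.testBit q = true → sft (Nat.sub c.n 6) (q / 32) = a →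
        sft (Nat.sub c.n 6) (q % 32) = b →
        Ed (c.X ++ pmap (sft (Nat.sub c.n 6)) (eX e)) a b := by
      intro q hq ha hb
      have : Ed (eX e) (q / 32) (q % 32) :=
        h'.adj _ _ (Nat.mod_lt _ (by omega)) (by rw [Nat.div_add_mod]; exact hq)
      have := this.pmap (sft (Nat.sub c.n 6))
      rw [ha, hb] at this
      exact this.imp (List.mem_append_right _) (List.mem_append_right _)
    have bd : ∀ q, e.adj.testBit q = true → q % 32 < e.n := by
      intro q hq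
      have : Ed (eX e) (q / 32) (q % 32) :=
        h'.adj _ _ (Nat.mod_lt _ (by omega)) (by rw [Nat.div_add_mod]; exact hq)
      exact h'.bnd _ this.symm.us
    simp only [Nat.lor_eq, Nat.land_eq, Nat.shiftLeft_eq', Nat.testBit_or, Nat.testBit_and,
      Nat.testBit_shiftLeft, Bool.or_eq_true, Bool.and_eq_true, decide_eq_true_eq] at hbit
    rcases hbit with (h1 | h1) | h1 | h1 | h1
    · exact (h.adj a b hb h1).imp (List.mem_append_left _) (List.mem_append_left _)
    · have := mTT_s _ h1.2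
      refine key _ h1.1 ?_ ?_ <;> rw [sft_eq, if_pos (by omega)] <;> omega
    · have := mTI_s _ h1.2.2
      have := bd _ h1.2.1
      refine key _ h1.2.1 ?_ ?_ <;> rw [sft_eq, Nat.sub_eq] <;> split_ifs <;> omega
    · have := mIT_s _ h1.2.2
      refine key _ h1.2.1 ?_ ?_ <;> rw [sft_eq, Nat.sub_eq] <;> split_ifs <;> omega
    · have := mII_s _ h1.2.2
      have := bd _ h1.2.1
      refine key _ h1.2.1 ?_ ?_ <;> rw [sft_eq, Nat.sub_eq] <;> split_ifs <;> omega
  · intro l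
    change (c.att ||| e.att).testBit l = true ↔ l < 6 ∧ Us (app _ _) l
    rw [Nat.testBit_or, Bool.or_eq_true, h.att, h'.att, app_eq, us_append, us_pmap, and_or_left]
    refine or_congr_right (and_congr_right fun hl => ?_)
    constructor
    · exact fun hu => ⟨l, hu, by rw [sft_eq, if_pos (by omega)]⟩
    · rintro ⟨i, hi, rfl⟩
      rw [sft_eq] at hl ⊢
      split_ifs at hl ⊢
      · exact hi
      · omega
  · change c.len + e.len ≤ (app _ _).length
    rw [app_eq, List.length_append, pmap_eq, List.length_map]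
    exact Nat.add_le_add h.len h'.len

end Pool.Agent.MP_e6539c_co.TW

end MrgPart2

-- ======== part 3: formerly Pool.Agent.MP_e6539c_co.TW.Pure2
section MrgPart3

/-!
Meaning of the reducer masks, branch-set certificates and isomorphism certificates.
-/

set_option autoImplicit false
set_option exponentiation.threshold 2000

namespace Pool.Agent.MP_e6539c_co.TW

open Finset Finsupp
open Classical

def ND (X : EL) : Prop := X.Pairwise (fun p q => s(p.1, p.2) ≠ s(q.1, q.2))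

theorem symp_iff (p q : ℕ × ℕ) : symp p q = true ↔ s(p.1, p.2) = s(q.1, q.2) := by
  simp [symp, eqp, Prod.ext_iff]
theorem ndb_nd {X : EL} (h : ndb X = true) : ND X := by
  induction X with
  | nil => exact List.Pairwise.nil
  | cons p X ih =>
    change an (lall X fun q => nt (symp p q)) (ndb X) = true at h
    simp only [an_iff, lall_iff, nt_iff, symp_iff] at h
    exact List.Pairwise.cons h.1 (ih h.2)
theorem dup_nd {X : EL} {s : ℕ} (h : dup X s = true) : ¬ ND X := by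
  unfold dup at h
  simp only [an_iff, Nat.blt_eq, llen_eq, symp_iff, lget_eq] at h
  obtain ⟨h1, h2, h3⟩ := h
  intro hn
  rw [List.getD_eq_getElem _ _ h2, List.getD_eq_getElem _ _ (h1.trans h2)] at h3
  exact List.pairwise_iff_getElem.1 hn _ _ (h1.trans h2) h2 h1 h3

theorem dgr_eq (X : EL) (i : ℕ) : dgr X i = X.countP (fun p => decide (p.1 = i ∨ p.2 = i)) := by
  induction X with
  | nil => rfl
  | cons p X ih =>
    change cd (orr (Nat.beq p.1 i) (Nat.beq p.2 i)) (Nat.succ (dgr X i)) (dgr X i) = _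
    rw [List.countP_cons, ih]
    simp only [cd_eq, orr_iff, Nat.beq_eq, decide_eq_true_eq]
    split_ifs <;> rfl

theorem re_lt (d : ℕ) : ∀ p ∈ re d, p.1 < 8 ∧ p.2 < 8 := by
  unfold re
  induction fld d 18 8 with
  | zero => simp
  | succ n ih =>
    intro p hp
    rcases List.mem_cons.1 hp with rfl | hp
    · exact ⟨fld_lt _ _ _ (by omega), fld_lt _ _ _ (by omega)⟩
    · exact ih p hp

theorem rM0_bit {E : EL} (hE : ∀ p ∈ E, p.1 < 8 ∧ p.2 < 8) {f : ℕ →₀ K4} (h : Real E f) :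
    ∃ y < 2 ^ 14, (rM0 E).testBit y = true ∧ ∀ l < 8, ext y l = f l := by
  induction E generalizing f with
  | nil =>
    obtain rfl : f = 0 := h
    exact ⟨0, by omega, rfl, fun l _ => ext_zero l⟩
  | cons p E ih =>
    obtain ⟨c, hc, g, hg, rfl⟩ := h
    obtain ⟨y, h1, h2, h3⟩ := ih (fun q hq => hE q (List.mem_cons_of_mem _ hq)) hg
    obtain ⟨ha, hb⟩ := hE p (List.mem_cons_self)
    have hy := Nat.xor_lt_two_pow (Nat.xor_lt_two_pow h1 (vk_lt c _ ha)) (vk_lt c _ hb)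
    refine ⟨_, hy, ?_, ?_⟩
    · change (st p.1 fun a => st p.2 fun b => addE a b (rM0 E)).testBit _ = true
      rw [st_eq, st_eq, addE_bit ha hb _ hy]
      refine ⟨c, hc, ?_⟩
      rw [show y ^^^ vk c p.1 ^^^ vk c p.2 ^^^ vk c p.1 ^^^ vk c p.2 =
        y ^^^ (vk c p.1 ^^^ vk c p.1) ^^^ (vk c p.2 ^^^ vk c p.2) by ac_rfl]
      simpa using h2
    · intro l hl
      rw [ext_vk2 c ha hb hl, h3 l hl, Finsupp.add_apply, ev_apply, add_comm]

theorem ext_inj {x y : ℕ} (hx : x < 2 ^ 14) (hy : y < 2 ^ 14) (h : ∀ l < 8, ext x l = ext y l) :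
    x = y := by
  apply Nat.eq_of_testBit_eq
  intro i
  by_cases hi : i < 14
  · have key : ∀ i < 14, ∃ l < 8, l ≠ 5 ∧ (i = dp l ∨ i = dp l + 1) := by decide +kernel
    obtain ⟨l, hl, h5, hi⟩ := key i hi
    have := h l hl
    unfold ext dg at this
    rw [if_neg h5, if_neg h5, Prod.ext_iff] at this
    have bi : ∀ i, bt x i = bt y i → x.testBit i = y.testBit i := by
      intro i
      unfold bt
      cases x.testBit i <;> cases y.testBit i <;> simp
    rcases hi with rfl | rfl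
    · exact bi _ this.1
    · exact bi _ this.2
  · rw [Nat.testBit_lt_two_pow (lt_of_lt_of_le hx (Nat.pow_le_pow_right (by omega) (by omega))),
      Nat.testBit_lt_two_pow (lt_of_lt_of_le hy (Nat.pow_le_pow_right (by omega) (by omega)))]

structure ROK (d : ℕ) : Prop where
  le : ∀ l < 6, rpf d l ≤ 5
  idem : ∀ l < 6, rpf d (rpf d l) = rpf d l
  root : ∀ p ∈ re d, (6 ≤ p.1 ∨ rpf d p.1 = p.1) ∧ (6 ≤ p.2 ∨ rpf d p.2 = p.2)
  nd : ND (re d)

theorem rok_s {d : ℕ} (h : rok d = true) : ROK d := by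
  unfold rok at h
  simp only [an_iff, rall_iff, lall_iff, orr_iff, Nat.ble_eq, Nat.beq_eq] at h
  exact ⟨fun l hl => (h.1 l hl).1, fun l hl => (h.1 l hl).2, h.2.1, ndb_nd h.2.2⟩

theorem rM_bit {d : ℕ} (hd : ROK d) {f : ℕ →₀ K4} (h : Real (re d) f) {x : ℕ} (hx : x < 1024)
    (hs : ∀ k < 8, ∑ l ∈ range 6, (if rpf d l = k then ext x l else 0) = f k) :
    (rM d).testBit x = true := by
  obtain ⟨y0, h1, h2, h3⟩ := rM0_bit (re_lt d) h
  have key : ∀ n ≤ 6, ∃ y < 2 ^ 14, (Nat.rec (rM0 (re d)) (fun l M => st (rpf d l) fun r =>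
      cd (Nat.beq r l) M (Nat.lor M (addE l r M))) n : ℕ).testBit y = true ∧
      ∀ k < 8, ext y k = f k + ∑ l ∈ range n,
        ((if l = k then ext x l else 0) + (if rpf d l = k then ext x l else 0)) := by
    intro n
    induction n with
    | zero => exact fun _ => ⟨y0, h1, h2, fun k hk => by simp [h3 k hk]⟩
    | succ n ih =>
      intro hn
      obtain ⟨y, a1, a2, a3⟩ := ih (by omega)
      have hr := hd.le n (by omega)
      have hy := Nat.xor_lt_two_pow (Nat.xor_lt_two_pow a1 (vk_lt (ext x n) n (by omega)))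
        (vk_lt (ext x n) (rpf d n) (by omega))
      refine ⟨_, hy, ?_, ?_⟩
      · simp only [st_eq, cd_eq, Nat.beq_eq] at a2 ⊢
        split_ifs with h
        · rw [h, Nat.xor_assoc, Nat.xor_self, Nat.xor_zero]
          exact a2
        · rw [Nat.lor_eq, Nat.testBit_or, Bool.or_eq_true]
          by_cases h0 : ext x n = 0
          · left
            rw [h0]
            simpa [vk] using a2
          · right
            rw [addE_bit (by omega) (by omega) _ hy]
            refine ⟨_, h0, ?_⟩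
            generalize vk (ext x n) n = u
            generalize vk (ext x n) (rpf d n) = v
            rw [show y ^^^ u ^^^ v ^^^ u ^^^ v = y ^^^ (u ^^^ u) ^^^ (v ^^^ v) by ac_rfl]
            simpa using a2
      · intro k hk
        rw [ext_vk2 _ (by omega) (by omega) hk, a3 k hk, sum_range_succ, add_assoc]
  obtain ⟨y, a1, a2, a3⟩ := key 6 le_rfl
  have : y = x := by
    apply ext_inj a1 (by omega)
    intro k hk
    rw [a3 k hk, sum_add_distrib, hs k hk, Finset.sum_ite_eq']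
    have := K4_add_self (f k)
    split_ifs with h
    · linear_combination this
    · rw [ext_hi hx (by simpa using h)]
      linear_combination this
  unfold rM
  rw [Nat.land_eq, Nat.testBit_and, a1k_bit, ← this, a2]
  simpa using this ▸ hx

noncomputable def tr (n : ℕ) (W : ℕ → Prop) : ℕ := mkM n fun i => decide (W i)
theorem tr_bit (n : ℕ) (W : ℕ → Prop) (i : ℕ) : (tr n W).testBit i = true ↔ i < n ∧ W i := by
  unfold tr
  rw [mkM_bit, decide_eq_true_eq]
theorem tr_lt (n : ℕ) (W : ℕ → Prop) : tr n W < 2 ^ n := by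
  apply Nat.lt_pow_two_of_testBit
  intro i hi
  by_contra h
  have := (tr_bit n W i).1 (by simpa using h)
  omega

theorem z_bit {E : EL} (hE : ∀ p ∈ E, p.1 < 8 ∧ p.2 < 8) {u : ℕ} (hu : u < 256) :
    (cutL E (fun k => u.testBit k = true) = 0 → (z0 E).testBit u = true) ∧
    (cutL E (fun k => u.testBit k = true) = 1 → (z1 E).testBit u = true) := by
  induction E with
  | nil => exact ⟨fun _ => by simpa [z0, a256_bit] using hu, fun h => by simp [cutL] at h⟩
  | cons p E ih =>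
    obtain ⟨i0, i1⟩ := ih (fun q hq => hE q (List.mem_cons_of_mem _ hq))
    obtain ⟨ha, hb⟩ := hE p (List.mem_cons_self)
    have e0 : z0 (p :: E) = z0 E &&& sam p.1 p.2 := rfl
    have e1 : z1 (p :: E) = (z1 E &&& sam p.1 p.2) ||| (z0 E &&& dif p.1 p.2) := rfl
    rw [e0, e1, cutL_cons]
    simp only [Nat.testBit_or, Nat.testBit_and, Bool.or_eq_true, Bool.and_eq_true,
      sam_bit ha hb hu, dif_bit ha hb hu]
    split_ifs with h
    · exact ⟨fun h' => ⟨i0 h', h⟩, fun h' => Or.inl ⟨i1 h', h⟩⟩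
    · exact ⟨fun h' => absurd h' (by simp), fun h' => Or.inr ⟨i0 (by omega), h⟩⟩

theorem fold4_bit {A u : ℕ} (hu : u < 256) (h : A.testBit u = true) :
    (fold4 A).testBit (u % 64) = true := by
  unfold fold4
  simp only [Nat.land_eq, Nat.lor_eq, Nat.shiftRight_eq, Nat.testBit_and, Nat.testBit_or,
    Nat.testBit_shiftRight, a64_bit, Bool.and_eq_true, Bool.or_eq_true, decide_eq_true_eq]
  refine ⟨by omega, ?_⟩
  rcases (by omega : u % 64 = u ∨ 64 + u % 64 = u ∨ 128 + u % 64 = u ∨ 192 + u % 64 = u)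
    with e | e | e | e <;> rw [e] <;> simp [h]

theorem rZ_bit {d : ℕ} (hd : ROK d) (W : ℕ → Prop) {t : ℕ} (ht : t < 64)
    (h : ∀ l < 6, t.testBit l = true ↔ W (rpf d l)) :
    (cutL (re d) W = 0 → (rZ0 d).testBit t = true) ∧
    (cutL (re d) W = 1 → (rZ1 d).testBit t = true) := by
  let u := tr 8 (fun k => if k < 6 then t.testBit k = true else W k)
  have hu : u < 256 := tr_lt 8 _
  have hb : ∀ k < 8, (u.testBit k = true ↔ if k < 6 then t.testBit k = true else W k) :=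
    fun k hk => by rw [tr_bit]; simp [hk]
  have e1 : u % 64 = t := by
    apply Nat.eq_of_testBit_eq
    intro i
    rw [show 64 = 2 ^ 6 from rfl, Nat.testBit_mod_two_pow]
    by_cases hi : i < 6
    · rw [Bool.eq_iff_iff]
      simp [hi, hb i (by omega)]
    · rw [Nat.testBit_lt_two_pow (x := t)
        (lt_of_lt_of_le ht (Nat.pow_le_pow_right (n := 2) (by omega) (show 6 ≤ i by omega)))]
      simp [hi]
  have e2 : cutL (re d) W = cutL (re d) (fun k => u.testBit k = true) := by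
    apply cutL_congr
    have : ∀ i < 8, (6 ≤ i ∨ rpf d i = i) → (W i ↔ u.testBit i = true) := by
      intro i hi h'
      rw [hb i hi]
      split_ifs with h6
      · rw [h i h6, h'.resolve_left (by omega)]
      · rfl
    rintro i ⟨p, hp, rfl | rfl⟩
    · exact this _ (re_lt d p hp).1 (hd.root p hp).1
    · exact this _ (re_lt d p hp).2 (hd.root p hp).2
  have e3 : (rC d).testBit u = true := by
    have : ∀ n ≤ 6, (Nat.rec a256 (fun l acc => Nat.land acc (sam l (rpf d l))) n : ℕ).testBit u = true := by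
      intro n
      induction n with
      | zero => intro _; simpa [a256_bit] using hu
      | succ n ih =>
        intro hn
        have := hd.le n (by omega)
        simp only [Nat.land_eq, Nat.testBit_and, Bool.and_eq_true] at ih ⊢
        refine ⟨ih (by omega), (sam_bit (by omega) (by omega) hu).2 ?_⟩
        rw [hb _ (by omega), hb _ (by omega), if_pos (by omega), if_pos (by omega), h _ (by omega),
          h _ (by omega), hd.idem n (by omega)]
    exact this 6 le_rfl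
  obtain ⟨i0, i1⟩ := z_bit (re_lt d) hu
  rw [e2, ← e1]
  constructor <;> intro h' <;> apply fold4_bit hu <;>
    rw [Nat.land_eq, Nat.testBit_and, e3, Bool.and_true]
  · exact i0 h'
  · exact i1 h'

def Kc (K k i : ℕ) : Prop := i < 32 ∧ K.testBit (32 * k + i) = true
structure Inv (X : EL) (K seen : ℕ) : Prop where
  sn : ∀ k i, Kc K k i → seen.testBit i = true
  dj : ∀ k k' i, Kc K k i → Kc K k' i → k = k'
  cn : ∀ k i j, Kc K k i → Kc K k j →
    Relation.ReflTransGen (fun a b => Kc K k a ∧ Kc K k b ∧ Ed X a b) i j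

theorem m32_bit (i : ℕ) : m32.testBit i = decide (i < 32) := Nat.testBit_two_pow_sub_one 32 i

theorem nbr_s {X : EL} {A : ℕ} (hA : AdjS X A) {K u s : ℕ}
    (h : nz (Nat.land (Nat.land (Nat.shiftRight A (Nat.mul 32 u)) (Nat.shiftRight K s)) m32) = true) :
    ∃ w < 32, K.testBit (s + w) = true ∧ Ed X u w := by
  obtain ⟨w, hw⟩ := nz_ex h
  simp only [Nat.land_eq, Nat.shiftRight_eq, Nat.testBit_and, Nat.testBit_shiftRight, m32_bit,
    Bool.and_eq_true, decide_eq_true_eq, Nat.mul_eq] at hw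
  exact ⟨w, hw.2, hw.1.2, hA _ _ hw.2 hw.1.1⟩

theorem cls_s {X : EL} {A : ℕ} (hA : AdjS X A) {k : ℕ → ℕ → Bool} {s K seen : ℕ}
    (hI : Inv X K seen) (h : cls A k s K seen = true) :
    ∃ K' s' seen', Inv X K' seen' ∧ k K' s' = true := by
  unfold cls at h
  generalize 40 = n at h
  induction n generalizing s K seen with
  | zero => simp at h
  | succ n ih =>
    simp only at h
    generalize Nat.mod s 512 = v at h
    cases v with
    | zero => exact ⟨_, _, _, hI, h⟩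
    | succ v =>
      change an _ (an (orr _ _) _) = true at h
      rw [an_iff, an_iff, orr_iff] at h
      obtain ⟨h1, h2, h3⟩ := h
      refine ih ?_ h3
      have hv : Nat.sub v (Nat.mod v 32) = 32 * (v / 32) := by
        rw [Nat.sub_eq, nmod]; omega
      rw [hv] at h2
      have hs : seen.testBit (v % 32) = false := by
        rw [Nat.beq_eq, Nat.land_eq, Nat.pow_eq, nmod] at h1
        have := congrArg (Nat.testBit · (v % 32)) h1
        simpa [Nat.testBit_and] using this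
      have hK : ∀ k i, Kc (Nat.lor K (Nat.pow 2 v)) k i ↔ Kc K k i ∨ (k = v / 32 ∧ i = v % 32) := by
        intro k i
        unfold Kc
        simp only [Nat.lor_eq, Nat.pow_eq, Nat.testBit_or, Bool.or_eq_true, Nat.testBit_two_pow,
          decide_eq_true_eq]
        constructor
        · rintro ⟨a, b | b⟩
          · exact Or.inl ⟨a, b⟩
          · right; omega
        · rintro (⟨a, b⟩ | ⟨a, b⟩)
          · exact ⟨a, Or.inl b⟩
          · exact ⟨by omega, Or.inr (by omega)⟩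
      have hn : ∀ k, ¬ Kc K k (v % 32) := fun k hk => by
        rw [hI.sn _ _ hk] at hs
        exact absurd hs (by simp)
      have mono : ∀ k i j, Kc K k i → Kc K k j → Relation.ReflTransGen (fun a b =>
          Kc (Nat.lor K (Nat.pow 2 v)) k a ∧ Kc (Nat.lor K (Nat.pow 2 v)) k b ∧ Ed X a b) i j :=
        fun k i j hi hj => Relation.ReflTransGen.mono (fun a b h =>
          ⟨(hK _ _).2 (Or.inl h.1), (hK _ _).2 (Or.inl h.2.1), h.2.2⟩) _ _ (hI.cn k i j hi hj)
      refine ⟨?_, ?_, ?_⟩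
      · intro k i hi
        rw [Nat.lor_eq, Nat.pow_eq, nmod, Nat.testBit_or, Bool.or_eq_true, Nat.testBit_two_pow]
        rcases (hK _ _).1 hi with h | h
        · exact Or.inl (hI.sn _ _ h)
        · simp [h.2]
      · intro k k' i hi hj
        rcases (hK _ _).1 hi with h | h <;> rcases (hK _ _).1 hj with h' | h'
        · exact hI.dj _ _ _ h h'
        · exact absurd (h'.2 ▸ h) (hn _)
        · exact absurd (h.2 ▸ h') (hn _)
        · rw [h.1, h'.1]
      · have hw : ∀ i, Kc K (v / 32) i → ∃ w, Kc K (v / 32) w ∧ Ed X (v % 32) w := by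
          intro i hi
          rcases h2 with h2 | h2
          · obtain ⟨w, a, b, c⟩ := nbr_s hA h2
            exact ⟨w, ⟨a, b⟩, c⟩
          · rw [Nat.beq_eq] at h2
            have := congrArg (Nat.testBit · i) h2
            simp [Nat.testBit_and, m32_bit, hi.1, hi.2] at this
        intro k i j hi hj
        rcases (hK _ _).1 hi with h | h <;> rcases (hK _ _).1 hj with h' | h'
        · exact mono _ _ _ h h'
        · obtain ⟨rfl, rfl⟩ := h'
          obtain ⟨w, a, b⟩ := hw i h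
          exact (mono _ _ _ h a).tail ⟨(hK _ _).2 (Or.inl a), hj, b.symm⟩
        · obtain ⟨rfl, rfl⟩ := h
          obtain ⟨w, a, b⟩ := hw j h'
          exact (mono _ _ _ a h').head ⟨hi, (hK _ _).2 (Or.inl a), b⟩
        · rw [h.2, h'.2]

theorem wit_s {X : EL} {A : ℕ} (hA : AdjS X A) {K : ℕ} {E : EL} {s : ℕ} (h : wit A K E s = true) :
    ∀ p ∈ E, ∃ u w, Kc K p.1 u ∧ Kc K p.2 w ∧ Ed X u w := by
  induction E generalizing s with
  | nil => simp
  | cons p E ih =>
    change an _ (an _ (wit A K E _)) = true at h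
    rw [an_iff, an_iff, tb_eq] at h
    intro q hq
    rcases List.mem_cons.1 hq with rfl | hq
    · obtain ⟨w, a, b, c⟩ := nbr_s hA h.2.1
      exact ⟨_, w, ⟨Nat.mod_lt _ (by omega), h.1⟩, ⟨a, b⟩, c⟩
    · exact ih h.2.2 q hq

theorem inv_zero (X : EL) : Inv X 0 0 := by
  have : ∀ k i, ¬ Kc 0 k i := by simp [Kc]
  exact ⟨fun k i h => absurd h (this _ _), fun k _ i h => absurd h (this _ _),
    fun k i _ h => absurd h (this _ _)⟩

theorem inv_root (X : EL) (d : ℕ) : Inv X (rK0 d) (rS0 d) := by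
  have key : ∀ n p, (Nat.rec 0 (fun l acc => cd (Nat.beq (rpf d l) l)
      (Nat.lor acc (Nat.pow 2 (Nat.mul 33 l))) acc) n : ℕ).testBit p = true →
      ∃ l < n, rpf d l = l ∧ p = 33 * l := by
    intro n p
    induction n with
    | zero => simp
    | succ n ih =>
      simp only [cd_eq, Nat.beq_eq] at ih ⊢
      split_ifs with h
      · rw [Nat.lor_eq, Nat.pow_eq, Nat.mul_eq, Nat.testBit_or, Bool.or_eq_true, Nat.testBit_two_pow]
        rintro (h' | h')
        · obtain ⟨l, a, b⟩ := ih h'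
          exact ⟨l, by omega, b⟩
        · exact ⟨n, by omega, h, by simpa [eq_comm] using h'⟩
      · intro h'
        obtain ⟨l, a, b⟩ := ih h'
        exact ⟨l, by omega, b⟩
  have : ∀ k i, Kc (rK0 d) k i → i < 6 ∧ rpf d i = i ∧ k = i := by
    intro k i h
    obtain ⟨l, a, b, c⟩ := key 6 _ h.2
    have := h.1
    obtain rfl : i = l := by omega
    exact ⟨a, b, by omega⟩
  refine ⟨?_, ?_, ?_⟩
  · intro k i h
    unfold rS0
    rw [mkM_bit, Nat.beq_eq]
    exact ⟨(this _ _ h).1, (this _ _ h).2.1⟩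
  · intro k k' i h h'
    rw [(this _ _ h).2.2, (this _ _ h').2.2]
  · intro k i j h h'
    rw [← (this _ _ h).2.2, ← (this _ _ h').2.2]

theorem rep_s {K d : ℕ} (h : Nat.beq (Nat.land K lab) (rREP d) = true) :
    ∀ l < 6, Kc K (rpf d l) l := by
  have key : ∀ n, ∀ l < n, (Nat.rec 0 (fun l acc => Nat.lor acc
      (Nat.pow 2 (Nat.add (Nat.mul 32 (rpf d l)) l))) n : ℕ).testBit (32 * rpf d l + l) = true := by
    intro n
    induction n with
    | zero => simp
    | succ n ih =>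
      intro l hl
      simp only [Nat.lor_eq, Nat.pow_eq, Nat.mul_eq, Nat.add_eq, Nat.testBit_or, Bool.or_eq_true,
        Nat.testBit_two_pow] at ih ⊢
      by_cases h : l < n
      · exact Or.inl (ih l h)
      · obtain rfl : l = n := by omega
        simp
  intro l hl
  have := key 6 l hl
  rw [Nat.beq_eq] at h
  change (rREP d).testBit _ = true at this
  rw [← h, Nat.land_eq, Nat.testBit_and, Bool.and_eq_true] at this
  exact ⟨by omega, this.1⟩

theorem kem_s {P : ℕ → Prop}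
    (hK : ∀ x < 1024, P x → ∀ a, ∀ i < 6, ext x i ≠ 0 → ext x i ≠ kk a →
      ∃ j < 6, j ≠ i ∧ ext x j ≠ 0 ∧ ext x j ≠ kk a ∧ P (x ^^^ vk (kk a) i ^^^ vk (kk a) j))
    {C : ℕ} (hC : ∀ x < 1024, P x → C.testBit x = true) (nk s : ℕ) :
    ∀ x < 1024, P x → (kem C nk s).testBit x = true := by
  unfold kem
  induction nk with
  | zero => exact hC
  | succ n ih =>
    simp only [st_eq] at ih ⊢
    generalize (Nat.rec C _ n : ℕ) = D at ih ⊢
    generalize fld s _ 4 = a
    generalize fld s _ 8 = i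
    intro x hx hP
    unfold kstep
    simp only [cd_eq, an_iff, Nat.ble_eq, Nat.beq_eq]
    split_ifs with h
    swap
    · exact ih x hx hP
    have hi : i < 6 := by omega
    rw [Nat.land_eq, Nat.testBit_and, ih x hx hP, Bool.true_and]
    have key : ∀ n ≤ 6, ((a1k.xor (km a i)).testBit x = true ∨ ∃ j < n, j ≠ i ∧
        ((km a j).land (sc a i (sc a j D))).testBit x = true) →
        (Nat.rec (a1k.xor (km a i)) (fun j acc => if j = i then acc else
          acc.lor ((km a j).land (sc a i (sc a j D)))) n : ℕ).testBit x = true := by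
      intro n
      induction n with
      | zero => simp
      | succ n ih2 =>
        intro hn h
        simp only
        split_ifs with h1
        · apply ih2 (by omega)
          refine h.imp_right ?_
          rintro ⟨j, a, b, c⟩
          exact ⟨j, by omega, b, c⟩
        · rw [Nat.lor_eq, Nat.testBit_or, Bool.or_eq_true]
          rcases h with h | ⟨j, a, b, c⟩
          · exact Or.inl (ih2 (by omega) (Or.inl h))
          · by_cases hj : j = n
            · exact Or.inr (hj ▸ c)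
            · exact Or.inl (ih2 (by omega) (Or.inr ⟨j, by omega, b, c⟩))
    apply key 6 le_rfl
    by_cases hk : (km a i).testBit x = true
    · right
      obtain ⟨j, a1, a2, a3, a4, a5⟩ := hK x hx hP a i hi ((km_bit a hi hx).1 hk).1
        ((km_bit a hi hx).1 hk).2
      refine ⟨j, a1, a2, ?_⟩
      have l1 := Nat.xor_lt_two_pow (n := 10) hx (vk_lt' (kk a) i hi)
      rw [Nat.land_eq, Nat.testBit_and, (km_bit a a1 hx).2 ⟨a3, a4⟩, Bool.true_and,
        sc_bit _ (by omega) _ (by omega), sc_bit _ (by omega) _ (by omega)]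
      exact ih _ (Nat.xor_lt_two_pow (n := 10) l1 (vk_lt' (kk a) j a1)) a5
    · left
      rw [Nat.xor_eq, Nat.testBit_xor, a1k_bit]
      simp [hx, hk]

theorem co_bit {t u l : ℕ} (hl : l < 6) :
    (Nat.land t (Nat.xor 63 u)).testBit l = true ↔ t.testBit l = true ∧ ¬ u.testBit l = true := by
  rw [Nat.land_eq, Nat.xor_eq, Nat.testBit_and, Nat.testBit_xor, show 63 = 2 ^ 6 - 1 from rfl,
    Nat.testBit_two_pow_sub_one]
  simp [hl]
theorem ntm_bit {t : ℕ} (ht : ∀ l, t.testBit l = true → l < 6) {u : ℕ} (hu : u < 64) :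
    (ntm t).testBit u = true ↔ (∃ l, t.testBit l = true ∧ u.testBit l = true) ∧
      ∃ l, t.testBit l = true ∧ ¬ u.testBit l = true := by
  unfold ntm
  rw [mkM_bit, an_iff, nz_iff, nz_iff]
  constructor
  · rintro ⟨-, h1, h2⟩
    obtain ⟨i, hi⟩ := Nat.exists_testBit_of_ne_zero h1
    obtain ⟨j, hj⟩ := Nat.exists_testBit_of_ne_zero h2
    have hj' := hj
    rw [Nat.land_eq, Nat.testBit_and, Bool.and_eq_true] at hi hj'
    exact ⟨⟨i, hi.symm⟩, j, (co_bit (ht j hj'.1)).1 hj⟩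
  · rintro ⟨⟨i, hi⟩, j, hj⟩
    refine ⟨hu, fun h => ?_, fun h => ?_⟩
    · have := congrArg (Nat.testBit · i) h
      simp [Nat.testBit_and, hi.1, hi.2] at this
    · have := (co_bit (ht j hj.1)).2 hj
      rw [h] at this
      simp at this
theorem two_s : ∀ x < 64, two x = true →
    ∃ i < 6, ∃ j < 6, i ≠ j ∧ x.testBit i = true ∧ x.testBit j = true := by decide +kernel
theorem one_s : ∀ x < 64, one x = true → ∃ a < 6, ∀ l < 6, x.testBit l = true ↔ l = a := by
  decide +kernel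
theorem land_lt {t u : ℕ} (hu : u < 64) :
    Nat.land u t < 64 ∧ Nat.land t (Nat.xor 63 u) < 64 :=
  ⟨lt_of_le_of_lt Nat.and_le_left hu,
    lt_of_le_of_lt Nat.and_le_right (Nat.xor_lt_two_pow (n := 6) (by omega) hu)⟩
theorem bigm_bit {t u : ℕ} (h : (bigm t).testBit u = true) :
    (∃ i j, i ≠ j ∧ (t.testBit i = true ∧ u.testBit i = true) ∧
      t.testBit j = true ∧ u.testBit j = true) ∧
    ∃ i j, i ≠ j ∧ (t.testBit i = true ∧ ¬ u.testBit i = true) ∧
      t.testBit j = true ∧ ¬ u.testBit j = true := by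
  unfold bigm at h
  rw [mkM_bit, an_iff] at h
  obtain ⟨i, -, j, -, a, b, c⟩ := two_s _ (land_lt h.1).1 h.2.1
  obtain ⟨i', hi, j', hj, a', b', c'⟩ := two_s _ (land_lt h.1).2 h.2.2
  rw [Nat.land_eq, Nat.testBit_and, Bool.and_eq_true] at b c
  exact ⟨⟨i, j, a, b.symm, c.symm⟩, i', j', a', (co_bit hi).1 b', (co_bit hj).1 c'⟩

theorem eb_s {X : EL} {A : ℕ} (hA : AdjS X A) {a b : ℕ} (hb : b < 32) (h : eb A a b = true) :
    Ed X a b := hA a b hb (by rw [← tb_eq]; exact h)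

theorem isob_s {X Y : EL} {σ τ : ℕ} (h : isob X Y σ τ = true) :
    (∀ a b, Ed (pmap (sg σ) X) a b ↔ Ed Y a b) ∧
    (∀ i j, Us X i → Us X j → sg σ i = sg σ j → i = j) ∧ ∀ i, Us X i → (i < 6 ↔ sg σ i < 6) := by
  unfold isob at h
  simp only [st_eq, an_iff, lall_iff, Nat.ble_eq] at h
  have hid : ∀ i, Us X i → idok σ τ i = true := by
    rintro i ⟨p, hp, rfl | rfl⟩
    · exact (h.1 p hp).2.1
    · exact (h.1 p hp).2.2
  refine ⟨fun a b => ⟨fun h' => ?_, fun h' => ?_⟩, ?_, ?_⟩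
  · obtain ⟨i, j, hij, rfl, rfl⟩ := ed_pmap h'
    rcases hij with hij | hij
    · exact eb_s (adjOf_s Y) (fld_lt _ _ _ (by omega)) (h.1 _ hij).1
    · exact (eb_s (adjOf_s Y) (fld_lt _ _ _ (by omega)) (h.1 _ hij).1).symm
  · rcases h' with h' | h'
    · exact eb_s (adjOf_s _) (Nat.lt_succ_of_le (h.2 _ h').1) (h.2 _ h').2
    · exact (eb_s (adjOf_s _) (Nat.lt_succ_of_le (h.2 _ h').1) (h.2 _ h').2).symm
  · intro i j hi hj e
    have a := hid i hi
    have b := hid j hj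
    simp only [idok, an_iff, Nat.beq_eq] at a b
    rw [← a.1, ← b.1, e]
  · intro i hi
    have a := hid i hi
    simp only [idok, an_iff, cd_eq, Nat.ble_eq] at a
    split_ifs at a <;> simp only [Nat.ble_eq] at a <;> omega

end Pool.Agent.MP_e6539c_co.TW

end MrgPart3

-- ======== part 4: formerly Pool.Agent.MP_e6539c_co.TW.App
section MrgPart4

/-!
Configurations appearing in a minimal counterexample.
-/

set_option autoImplicit false

namespace Pool.Agent.MP_e6539c_co.TW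

open Finset MG
open Classical

set_option linter.unusedSectionVars false

variable {V E : Type} [Fintype V] {G : MG V E} {X : EL} {φ : ℕ → V}

def EA (X : EL) (φ : ℕ → V) (u w : V) : Prop := ∃ a b, Ed X a b ∧ φ a = u ∧ φ b = w
def Clo (G : MG V E) (X : EL) (φ : ℕ → V) (v : V) : Prop := ∀ w, G.Adj G.A v w → EA X φ v w
structure App0 (G : MG V E) (X : EL) (φ : ℕ → V) : Prop where
  adj : ∀ a b, Ed X a b → G.Adj G.A (φ a) (φ b)
  inj : ∀ i j, Us X i → Us X j → φ i = φ j → i = j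
  nd : ND X
structure App (G : MG V E) (X : EL) (φ : ℕ → V) : Prop extends App0 G X φ where
  cl : ∀ i, Us X i → 6 ≤ i → Clo G X φ (φ i)
noncomputable def BX (G : MG V E) (X : EL) (φ : ℕ → V) : Finset E :=
  G.A.filter (fun e => EA X φ (G.l e) (G.r e))

theorem EA.symm {u w : V} (h : EA X φ u w) : EA X φ w u := by
  obtain ⟨a, b, h1, h2, h3⟩ := h
  exact ⟨b, a, h1.symm, h3, h2⟩
theorem EA.us {u w : V} (h : EA X φ u w) : ∃ i, Us X i ∧ φ i = u := by
  obtain ⟨a, b, h1, h2, -⟩ := h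
  exact ⟨a, h1.us, h2⟩
theorem App0.ea (h : App0 G X φ) {u w : V} (h' : EA X φ u w) : G.Adj G.A u w := by
  obtain ⟨a, b, h1, rfl, rfl⟩ := h'
  exact h.adj a b h1
theorem App0.ni (h : App0 G X φ) {i : ℕ} (hi : Us X i) : G.NI (φ i) := by
  obtain ⟨b, hb⟩ := hi.ed
  exact (h.adj _ _ hb).ni
theorem BX_sub : BX G X φ ⊆ G.A := filter_subset _ _
theorem mem_BX {e : E} {u w : V} (hen : G.Ends e u w) : e ∈ BX G X φ ↔ e ∈ G.A ∧ EA X φ u w := by
  unfold BX
  rw [mem_filter]
  rcases hen with ⟨rfl, rfl⟩ | ⟨rfl, rfl⟩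
  · rfl
  · exact and_congr_right fun _ => ⟨EA.symm, EA.symm⟩
theorem mem_ctx {e : E} {u w : V} (hen : G.Ends e u w) :
    e ∈ G.A \ BX G X φ ↔ e ∈ G.A ∧ ¬ EA X φ u w := by
  rw [mem_sdiff, mem_BX hen]
  tauto
theorem App.ctx_lab (h : App G X φ) {e : E} (he : e ∈ G.A \ BX G X φ) {i : ℕ} (hi : Us X i)
    (hinc : G.Inc e (φ i)) : i < 6 := by
  by_contra hc
  obtain ⟨w, hen⟩ := hinc.exists_ends
  rw [mem_ctx hen] at he
  exact he.2 (h.cl i hi (by omega) w ⟨e, he.1, hen⟩)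
theorem BX_us {e : E} (he : e ∈ BX G X φ) {v : V} (hinc : G.Inc e v) : ∃ i, Us X i ∧ φ i = v := by
  obtain ⟨w, hen⟩ := hinc.exists_ends
  exact ((mem_BX hen).1 he).2.us

theorem sum_cut {M : Type} [AddCommMonoid M] {Y : EL} {g : ℕ × ℕ → E} (hn : (Y.map g).Nodup)
    (h : E → M) {Z : Set V} {W : ℕ → Prop}
    (hW : ∀ p ∈ Y, (G.l (g p) ∈ Z ↔ G.r (g p) ∈ Z) ↔ (W p.1 ↔ W p.2)) :
    ∑ e ∈ G.cut (Y.map g).toFinset Z, h e =
      (Y.map fun p => if W p.1 ↔ W p.2 then 0 else h (g p)).sum := by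
  unfold cut
  rw [sum_filter, List.sum_toFinset _ hn, List.map_map]
  congr 1
  apply List.map_congr_left
  intro p hp
  simp only [Function.comp, hW p hp, ite_not]

theorem card_cut {Y : EL} {g : ℕ × ℕ → E} (hn : (Y.map g).Nodup) {Z : Set V} {W : ℕ → Prop}
    (hW : ∀ p ∈ Y, (G.l (g p) ∈ Z ↔ G.r (g p) ∈ Z) ↔ (W p.1 ↔ W p.2)) :
    (G.cut (Y.map g).toFinset Z).card = cutL Y W := by
  rw [card_eq_sum_ones, sum_cut hn _ hW]
  clear hn hW
  induction Y with
  | nil => rfl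
  | cons p Y ih => rw [List.map_cons, List.sum_cons, ih, cutL_cons, add_comm]

theorem real_flow {Y : EL} {g : ℕ × ℕ → E} (hg : ∀ p ∈ Y, G.Ends (g p) (φ p.1) (φ p.2))
    (hn : (Y.map g).Nodup) {f : ℕ →₀ K4} (h : Real Y f) :
    ∃ ψ, NZ (Y.map g).toFinset ψ ∧ ∀ v, G.bd (Y.map g).toFinset ψ v = f.mapDomain φ v := by
  induction Y generalizing f with
  | nil =>
    obtain rfl : f = 0 := h
    exact ⟨0, by simp [NZ], by simp [bd]⟩
  | cons p Y ih =>
    obtain ⟨c, hc, f', hf, rfl⟩ := h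
    rw [List.map_cons, List.nodup_cons] at hn
    obtain ⟨ψ, h1, h2⟩ := ih (fun q hq => hg q (List.mem_cons_of_mem _ hq)) hn.2 hf
    have hm : g p ∉ (Y.map g).toFinset := by simpa using hn.1
    rw [List.map_cons, List.toFinset_cons]
    refine ⟨Function.update ψ (g p) c, ?_, ?_⟩
    · intro e he
      by_cases h' : e = g p
      · subst h'; simpa using hc
      · rw [Function.update_of_ne h']
        exact h1 e ((mem_insert.1 he).resolve_left h')
    · intro v
      rw [bd_insert hm (hg p List.mem_cons_self), bd_congr (ψ' := ψ)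
        (fun e he _ => Function.update_of_ne (by rintro rfl; exact hm he) _ _), h2]
      simp [ev, Finsupp.mapDomain_add, Finsupp.mapDomain_single, Finsupp.single_apply]

theorem flow_real {Y : EL} (c : ℕ × ℕ → K4) (hc : ∀ p ∈ Y, c p ≠ 0) :
    ∃ f, Real Y f ∧ ∀ k, f k = (Y.map fun p => if p.1 = k ↔ p.2 = k then 0 else c p).sum := by
  induction Y with
  | nil => exact ⟨0, rfl, by simp⟩
  | cons p Y ih =>
    obtain ⟨f, h1, h2⟩ := ih (fun q hq => hc q (List.mem_cons_of_mem _ hq))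
    refine ⟨_, ⟨c p, hc p List.mem_cons_self, f, h1, rfl⟩, fun k => ?_⟩
    rw [Finsupp.add_apply, ev_apply, h2, List.map_cons, List.sum_cons]
    congr 1
    by_cases a : p.1 = k <;> by_cases b : p.2 = k <;> simp [a, b, K4_add_self]

theorem App0.edges (hG : Min G) (h : App0 G X φ) : ∃ g : ℕ × ℕ → E,
    (∀ p ∈ X, G.Ends (g p) (φ p.1) (φ p.2)) ∧ (X.map g).Nodup ∧ (X.map g).toFinset = BX G X φ := by
  have hne : Nonempty E := by
    by_contra hc
    exact hG.nf ⟨fun e => absurd ⟨e⟩ hc, fun e => absurd ⟨e⟩ hc, fun v => bd_eq_zero fun e => absurd ⟨e⟩ hc⟩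
  have : ∀ p : ℕ × ℕ, ∃ e, p ∈ X → e ∈ G.A ∧ G.Ends e (φ p.1) (φ p.2) := by
    intro p
    by_cases hp : p ∈ X
    · obtain ⟨e, he⟩ := h.adj p.1 p.2 (Or.inl hp)
      exact ⟨e, fun _ => he⟩
    · exact ⟨hne.some, fun h => absurd h hp⟩
  choose g hg using this
  refine ⟨g, fun p hp => (hg p hp).2, ?_, ?_⟩
  · rw [List.Nodup, List.pairwise_map]
    refine List.Pairwise.imp_of_mem ?_ h.nd
    intro p q hp hq hne e
    apply hne
    rcases (hg p hp).2.unique (e ▸ (hg q hq).2) with h' | h'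
    · rw [h.inj _ _ (us_l hp) (us_l hq) h'.1, h.inj _ _ (us_r hp) (us_r hq) h'.2]
    · rw [h.inj _ _ (us_l hp) (us_r hq) h'.1, h.inj _ _ (us_r hp) (us_l hq) h'.2, Sym2.eq_swap]
  · ext e
    rw [List.mem_toFinset, List.mem_map]
    constructor
    · rintro ⟨p, hp, rfl⟩
      exact (mem_BX (hg p hp).2).2 ⟨(hg p hp).1, _, _, Or.inl hp, rfl, rfl⟩
    · intro he
      obtain ⟨heA, a, b, hab, h1, h2⟩ := (mem_BX (ends_lr e)).1 he
      have hen : G.Ends e (φ a) (φ b) := Or.inl ⟨h1.symm, h2.symm⟩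
      rcases hab with hab | hab
      · exact ⟨_, hab, hG.simple (hg _ hab).1 heA (hg _ hab).2 hen⟩
      · exact ⟨_, hab, hG.simple (hg _ hab).1 heA (hg _ hab).2 hen.symm⟩

theorem App0.card (hG : Min G) (h : App0 G X φ) : (BX G X φ).card = X.length := by
  obtain ⟨g, -, h2, h3⟩ := h.edges hG
  rw [← h3, List.toFinset_card_of_nodup h2, List.length_map]

theorem App0.cutB (hG : Min G) (h : App0 G X φ) {Z : Set V} {W : ℕ → Prop}
    (hW : ∀ i, Us X i → (φ i ∈ Z ↔ W i)) : (G.cut (BX G X φ) Z).card = cutL X W := by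
  obtain ⟨g, h1, h2, h3⟩ := h.edges hG
  rw [← h3]
  apply card_cut h2
  intro p hp
  rw [← hW _ (us_l hp), ← hW _ (us_r hp)]
  rcases h1 p hp with ⟨a, b⟩ | ⟨a, b⟩ <;> rw [a, b]
  exact iff_comm

theorem App0.flowB (hG : Min G) (h : App0 G X φ) {f : ℕ →₀ K4} (hf : Real X f) :
    ∃ ψ, NZ (BX G X φ) ψ ∧ ∀ v, G.bd (BX G X φ) ψ v = f.mapDomain φ v := by
  obtain ⟨g, h1, h2, h3⟩ := h.edges hG
  rw [← h3]
  exact real_flow h1 h2 hf

theorem App.cut_wit (hG : Min G) (h : App G X φ) (Y : Set V) (W : ℕ → Prop)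
    (hW : ∀ l < 6, Us X l → (W l ↔ φ l ∈ Y)) :
    ∃ Y', (G.cut G.A Y').card = (G.cut (G.A \ BX G X φ) Y).card + cutL X W ∧
      ∀ i, Us X i → (φ i ∈ Y' ↔ W i) := by
  let Y' : Set V := {v | if ∃ i, Us X i ∧ φ i = v then ∃ i, Us X i ∧ φ i = v ∧ W i else v ∈ Y}
  have key : ∀ i, Us X i → (φ i ∈ Y' ↔ W i) := by
    intro i hi
    simp only [Y', Set.mem_ofPred_eq]
    rw [if_pos ⟨i, hi, rfl⟩]
    constructor
    · rintro ⟨j, hj, e, hw⟩
      rwa [← h.inj _ _ hj hi e]
    · exact fun hw => ⟨i, hi, rfl, hw⟩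
  refine ⟨Y', ?_, key⟩
  rw [card_cut_split BX_sub, h.cutB hG key, cut_congr (Y' := Y)]
  intro e he v hv
  by_cases hu : ∃ i, Us X i ∧ φ i = v
  · obtain ⟨i, hi, rfl⟩ := hu
    rw [key i hi, hW i (h.ctx_lab he hi hv) hi]
  · simp only [Y', Set.mem_ofPred_eq]
    rw [if_neg hu]

theorem App0.rename (h : App0 G X φ) {σ : ℕ → ℕ} (hσ : ∀ i j, Us X i → Us X j → σ i = σ j → i = j)
    {φ' : ℕ → V} (hφ : ∀ i, Us X i → φ' (σ i) = φ i) :
    App0 G (pmap σ X) φ' ∧ ∀ u w, EA (pmap σ X) φ' u w ↔ EA X φ u w := by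
  refine ⟨⟨?_, ?_, ?_⟩, fun u w => ⟨?_, ?_⟩⟩
  · intro a b hab
    obtain ⟨i, j, hij, rfl, rfl⟩ := ed_pmap hab
    rw [hφ i hij.us, hφ j hij.symm.us]
    exact h.adj _ _ hij
  · intro a b ha hb e
    obtain ⟨i, hi, rfl⟩ := us_pmap.1 ha
    obtain ⟨j, hj, rfl⟩ := us_pmap.1 hb
    rw [hφ i hi, hφ j hj] at e
    rw [h.inj _ _ hi hj e]
  · rw [pmap_eq, ND, List.pairwise_map]
    refine List.Pairwise.imp_of_mem ?_ h.nd
    intro p q hp hq hne e
    apply hne
    rcases Sym2.eq_iff.1 e with h' | h'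
    · rw [hσ _ _ (us_l hp) (us_l hq) h'.1, hσ _ _ (us_r hp) (us_r hq) h'.2]
    · rw [hσ _ _ (us_l hp) (us_r hq) h'.1, hσ _ _ (us_r hp) (us_l hq) h'.2, Sym2.eq_swap]
  · rintro ⟨a, b, hab, rfl, rfl⟩
    obtain ⟨i, j, hij, rfl, rfl⟩ := ed_pmap hab
    exact ⟨i, j, hij, (hφ i hij.us).symm, (hφ j hij.symm.us).symm⟩
  · rintro ⟨a, b, hab, rfl, rfl⟩
    exact ⟨_, _, hab.pmap σ, hφ a hab.us, hφ b hab.symm.us⟩

theorem Clo.mono {X' : EL} {φ' : ℕ → V} {v : V} (h : Clo G X φ v)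
    (h' : ∀ u w, EA X φ u w → EA X' φ' u w) : Clo G X' φ' v := fun w hw => h' _ _ (h w hw)

theorem App0.rename' (h : App0 G X φ) {σ : ℕ → ℕ}
    (hσ : ∀ i j, Us X i → Us X j → σ i = σ j → i = j) {φ' : ℕ → V}
    (hφ : ∀ i, Us X i → φ' (σ i) = φ i) (hc : ∀ i, Us X i → 6 ≤ σ i → Clo G X φ (φ i)) :
    App G (pmap σ X) φ' ∧ ∀ u w, EA (pmap σ X) φ' u w ↔ EA X φ u w := by
  obtain ⟨h1, h2⟩ := h.rename hσ hφ
  refine ⟨⟨h1, ?_⟩, h2⟩
  intro j hj h6
  obtain ⟨i, hi, rfl⟩ := us_pmap.1 hj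
  rw [hφ i hi]
  exact (hc i hi h6).mono fun u w => (h2 u w).2

theorem ed_cons {p : ℕ × ℕ} {a b : ℕ} :
    Ed (p :: X) a b ↔ (p = (a, b) ∨ p = (b, a)) ∨ Ed X a b := by
  simp only [Ed, List.mem_cons]
  tauto
theorem ea_cons {a b : ℕ} {u w : V} : EA ((a, b) :: X) φ u w ↔
    ((φ a = u ∧ φ b = w) ∨ (φ a = w ∧ φ b = u)) ∨ EA X φ u w := by
  simp only [EA, ed_cons, Prod.mk.injEq]
  constructor
  · rintro ⟨i, j, (⟨rfl, rfl⟩ | ⟨rfl, rfl⟩) | h, h1, h2⟩
    · exact Or.inl (Or.inl ⟨h1, h2⟩)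
    · exact Or.inl (Or.inr ⟨h2, h1⟩)
    · exact Or.inr ⟨i, j, h, h1, h2⟩
  · rintro ((h | h) | ⟨i, j, h, h'⟩)
    · exact ⟨a, b, Or.inl (Or.inl ⟨rfl, rfl⟩), h⟩
    · exact ⟨b, a, Or.inl (Or.inr ⟨rfl, rfl⟩), h.2, h.1⟩
    · exact ⟨i, j, Or.inr h, h'⟩

theorem App0.cons (hG : Min G) (h : App0 G X φ) {a b : ℕ} (hab : G.Adj G.A (φ a) (φ b))
    (hn : ¬ EA X φ (φ a) (φ b)) (ha : ∀ i, Us X i → φ i = φ a → i = a)
    (hb : ∀ i, Us X i → φ i = φ b → i = b) : App0 G ((a, b) :: X) φ := by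
  have hne := hG.adj_ne hab
  refine ⟨?_, ?_, ?_⟩
  · intro i j hij
    rcases ed_cons.1 hij with (e | e) | hij
    · obtain ⟨rfl, rfl⟩ := Prod.mk.inj e; exact hab
    · obtain ⟨rfl, rfl⟩ := Prod.mk.inj e; exact hab.symm
    · exact h.adj _ _ hij
  · intro i j hi hj e
    rcases us_cons.1 hi with (rfl | rfl) | hi <;> rcases us_cons.1 hj with (rfl | rfl) | hj
    · rfl
    · exact absurd e hne
    · exact (ha j hj e.symm).symm
    · exact absurd e.symm hne
    · rfl
    · exact (hb j hj e.symm).symm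
    · exact ha i hi e
    · exact hb i hi e
    · exact h.inj _ _ hi hj e
  · refine List.Pairwise.cons ?_ h.nd
    intro q hq e
    apply hn
    rcases Sym2.eq_iff.1 e with ⟨h1, h2⟩ | ⟨h1, h2⟩ <;> simp only at h1 h2 <;> subst h1 h2
    · exact ⟨_, _, Or.inl hq, rfl, rfl⟩
    · exact ⟨_, _, Or.inr hq, rfl, rfl⟩

theorem us_congr {Y : EL} (h : ∀ a b, Ed X a b ↔ Ed Y a b) (i : ℕ) : Us X i ↔ Us Y i :=
  ⟨fun hi => hi.ed.elim fun _ hb => ((h _ _).1 hb).us, fun hi => hi.ed.elim fun _ hb => ((h _ _).2 hb).us⟩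

theorem App.iso (h : App G X φ) {Y : EL} {σ τ : ℕ} (hi : isob X Y σ τ = true) (hY : ND Y) :
    ∃ φ', App G Y φ' ∧ (∀ u w, EA Y φ' u w ↔ EA X φ u w) ∧ (∀ i, Us X i → φ' (sg σ i) = φ i) ∧
      ∀ j, Us Y j → ∃ i, Us X i ∧ sg σ i = j ∧ (i < 6 ↔ j < 6) := by
  obtain ⟨h1, h2, h3⟩ := isob_s hi
  let φ' : ℕ → V := fun j => if h : ∃ i, Us X i ∧ sg σ i = j then φ h.choose else φ j
  have hφ : ∀ i, Us X i → φ' (sg σ i) = φ i := by
    intro i hi
    have hex : ∃ j, Us X j ∧ sg σ j = sg σ i := ⟨i, hi, rfl⟩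
    simp only [φ', dif_pos hex]
    rw [h2 _ _ hex.choose_spec.1 hi hex.choose_spec.2]
  obtain ⟨a, b⟩ := h.toApp0.rename' h2 hφ (fun i hi h6 => h.cl i hi (by have := h3 i hi; omega))
  have hu := us_congr h1
  have he : ∀ u w, EA Y φ' u w ↔ EA (pmap (sg σ) X) φ' u w := by
    intro u w
    simp only [EA, h1]
  refine ⟨φ', ⟨⟨fun i j hij => a.adj _ _ ((h1 _ _).2 hij),
    fun i j hi hj => a.inj _ _ ((hu _).2 hi) ((hu _).2 hj), hY⟩, ?_⟩,
    fun u w => (he u w).trans (b u w), hφ, ?_⟩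
  · exact fun i hi h6 => (a.cl i ((hu _).2 hi) h6).mono fun u w => (he u w).2
  · intro j hj
    obtain ⟨i, hi, rfl⟩ := us_pmap.1 ((hu _).2 hj)
    exact ⟨i, hi, rfl, h3 i hi⟩

theorem ed_append {Y : EL} {a b : ℕ} : Ed (X ++ Y) a b ↔ Ed X a b ∨ Ed Y a b := by
  simp only [Ed, List.mem_append]
  tauto
theorem ea_append {Y : EL} {u w : V} : EA (X ++ Y) φ u w ↔ EA X φ u w ∨ EA Y φ u w := by
  simp only [EA, ed_append, or_and_right, exists_or]

theorem App.append {Y : EL} (h : App G X φ) (h' : App G Y φ)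
    (hd : ∀ u w, EA X φ u w → ¬ EA Y φ u w)
    (hl : ∀ i j, i < 6 → j < 6 → Us X i → Us Y j → φ i = φ j → i = j) : App G (X ++ Y) φ := by
  have key : ∀ i j, Us X i → Us Y j → φ i = φ j → i = j := by
    intro i j hi hj e
    by_cases h6 : 6 ≤ i
    · obtain ⟨b, hb⟩ := hj.ed
      exact absurd ⟨j, b, hb, e.symm, rfl⟩ (hd _ _ (h.cl i hi h6 _ (e ▸ h'.adj _ _ hb)))
    · by_cases h6' : 6 ≤ j
      · obtain ⟨b, hb⟩ := hi.ed
        exact absurd (h'.cl j hj h6' _ (e ▸ h.adj _ _ hb)) (hd _ _ ⟨i, b, hb, e, rfl⟩)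
      · exact hl i j (by omega) (by omega) hi hj e
  refine ⟨⟨?_, ?_, ?_⟩, ?_⟩
  · intro a b hab
    exact (ed_append.1 hab).elim (h.adj _ _) (h'.adj _ _)
  · intro i j hi hj e
    rcases us_append.1 hi with hi | hi <;> rcases us_append.1 hj with hj | hj
    · exact h.inj _ _ hi hj e
    · exact key _ _ hi hj e
    · exact (key _ _ hj hi e.symm).symm
    · exact h'.inj _ _ hi hj e
  · refine List.pairwise_append.2 ⟨h.nd, h'.nd, ?_⟩
    intro p hp q hq e
    apply hd (φ p.1) (φ p.2) ⟨_, _, Or.inl hp, rfl, rfl⟩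
    rcases Sym2.eq_iff.1 e with ⟨h1, h2⟩ | ⟨h1, h2⟩ <;> rw [h1, h2]
    · exact ⟨_, _, Or.inl hq, rfl, rfl⟩
    · exact ⟨_, _, Or.inr hq, rfl, rfl⟩
  · intro i hi h6
    rcases us_append.1 hi with hi | hi
    · exact (h.cl i hi h6).mono fun u w h => ea_append.2 (Or.inl h)
    · exact (h'.cl i hi h6).mono fun u w h => ea_append.2 (Or.inr h)

theorem App.congr (h : App G X φ) {φ' : ℕ → V} (hφ : ∀ i, Us X i → φ' i = φ i) :
    App G X φ' ∧ ∀ u w, EA X φ' u w ↔ EA X φ u w := by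
  have := h.toApp0.rename' (σ := id) (fun _ _ _ _ h => h) hφ h.cl
  rwa [show pmap id X = X by simp [pmap_eq]] at this

end Pool.Agent.MP_e6539c_co.TW

end MrgPart4

-- ======== part 5: formerly Pool.Agent.MP_e6539c_co.TW.Red
section MrgPart5

/-!
Kempe changes and the reduction lemma.
-/

set_option autoImplicit false

namespace Pool.Agent.MP_e6539c_co.TW

open Finset MG
open Classical

set_option linter.unusedSectionVars false

variable {V E : Type} [Fintype V] {G : MG V E} {X : EL} {φ : ℕ → V}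

noncomputable def pv (φ : ℕ → V) (f : ℕ → K4) (v : V) : K4 :=
  ∑ l ∈ range 6, if φ l = v then f l else 0

theorem map_put_apply (x : ℕ) (v : V) : (put x).mapDomain φ v = pv φ (ext x) v := by
  rw [map_put, Finsupp.finsetSum_apply]
  simp only [Finsupp.single_apply, pv]

theorem sum_pv (f : ℕ → K4) (Y : Set V) :
    ∑ v ∈ univ.filter (· ∈ Y), pv φ f v = ∑ l ∈ range 6, if φ l ∈ Y then f l else 0 := by
  unfold pv
  rw [sum_comm]
  apply sum_congr rfl
  intro l _
  rw [sum_ite_eq]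
  simp

def Ctx (G : MG V E) (X : EL) (φ : ℕ → V) (x : ℕ) : Prop :=
  ∃ ψ, NZ (G.A \ BX G X φ) ψ ∧ (∀ v, G.bd (G.A \ BX G X φ) ψ v = pv φ (ext x) v) ∧
    ∀ l < 6, ¬ Us X l → ext x l = 0

theorem ctx_F (hG : Min G) (h : App0 G X φ) {M x : ℕ} (hF : FE X M) (hx : x < 1024)
    (hc : Ctx G X φ x) : (Nat.xor a1k M).testBit x = true := by
  rw [Nat.xor_eq, Nat.testBit_xor, a1k_bit]
  cases hb : M.testBit x
  · simpa using hx
  exfalso
  obtain ⟨ψ1, a1, b1⟩ := h.flowB hG (hF x hx hb)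
  obtain ⟨ψ2, a2, b2, -⟩ := hc
  apply hG.nf
  refine ⟨fun e => if e ∈ BX G X φ then ψ1 e else ψ2 e, ?_, ?_⟩
  · intro e he
    by_cases h : e ∈ BX G X φ
    · simp only [h, if_true]; exact a1 e h
    · simp only [h, if_false]; exact a2 e (mem_sdiff.2 ⟨he, h⟩)
  · intro v
    rw [bd_split BX_sub, bd_congr (ψ' := ψ2) (fun e he _ => if_neg (mem_sdiff.1 he).2),
      bd_congr (B := BX G X φ) (ψ' := ψ1) (fun e he _ => if_pos he), b1, b2, map_put_apply,
      K4_add_self]

theorem tjoin {B C : Finset E} (hB : B ⊆ C) (a : K4) {u v : V} (h : G.Conn B Set.univ u v) :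
    ∃ θ : E → K4, (∀ e, θ e = 0 ∨ (θ e = a ∧ e ∈ B)) ∧
      ∀ w, G.bd C θ w = (if u = w then a else 0) + (if v = w then a else 0) := by
  induction h with
  | refl => exact ⟨0, fun _ => Or.inl rfl, fun w => by rw [K4_add_self]; simp [bd]⟩
  | @tail b c _ h2 ih =>
    obtain ⟨θ, h1, h3⟩ := ih
    obtain ⟨-, -, e, he, hen⟩ := h2
    refine ⟨fun f => θ f + if f = e then a else 0, ?_, ?_⟩
    · intro f
      by_cases hf : f = e
      · subst hf
        rcases h1 f with h | h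
        · right; simp [h, he]
        · left; simp [h.1, K4_add_self]
      · simpa [hf] using h1 f
    · intro w
      rw [bd_add, h3, ← insert_erase (hB he), bd_insert (notMem_erase _ _) hen,
        bd_congr (ψ' := fun _ => 0) (fun f hf _ => by simp [(mem_erase.1 hf).1])]
      simp only [bd, ite_self, add_zero, sum_const_zero, if_true]
      have := K4_add_self (if b = w then a else 0)
      linear_combination this

theorem kempe (x : ℕ) (_ : x < 1024) (hc : Ctx G X φ x) (a i : ℕ) (hi : i < 6)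
    (h0 : ext x i ≠ 0) (h1 : ext x i ≠ kk a) : ∃ j < 6, j ≠ i ∧ ext x j ≠ 0 ∧ ext x j ≠ kk a ∧
      Ctx G X φ (x ^^^ vk (kk a) i ^^^ vk (kk a) j) := by
  obtain ⟨ψ, a1, a2, a3⟩ := hc
  generalize kk a = c at h1 ⊢
  let H := (G.A \ BX G X φ).filter (fun e => ψ e ≠ c)
  let Y : Set V := {v | G.Conn H Set.univ (φ i) v}
  have hS : ∀ y z : K4, (y = 0 ∨ y = c) → (z = 0 ∨ z = c) → (y + z = 0 ∨ y + z = c) := by
    rintro y z (rfl | rfl) (rfl | rfl) <;> simp [K4_add_self]
  have h2 : ∑ e ∈ G.cut (G.A \ BX G X φ) Y, ψ e = 0 ∨ ∑ e ∈ G.cut (G.A \ BX G X φ) Y, ψ e = c := by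
    apply sum_induction _ (fun y => y = 0 ∨ y = c) hS (Or.inl rfl)
    intro e he
    right
    by_contra hc
    rw [(ends_lr e).mem_cut_iff] at he
    have : G.Adj H (G.l e) (G.r e) := ⟨e, mem_filter.2 ⟨he.1, hc⟩, ends_lr e⟩
    exact he.2 ⟨fun h => Conn.trans h (Conn.single (Set.mem_univ _) (Set.mem_univ _) this),
      fun h => Conn.trans h (Conn.single (Set.mem_univ _) (Set.mem_univ _) this.symm)⟩
  rw [← sum_bd, sum_congr rfl (fun v _ => a2 v), sum_pv, ← add_sum_erase _ _ (mem_range.2 hi),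
    if_pos (show φ i ∈ Y from Conn.refl _)] at h2
  obtain ⟨j, hj, hY, b0, b1⟩ : ∃ j ∈ (range 6).erase i, φ j ∈ Y ∧ ext x j ≠ 0 ∧ ext x j ≠ c := by
    by_contra hc
    push Not at hc
    have := hS _ _ h2 (sum_induction (s := (range 6).erase i)
      (fun l => if φ l ∈ Y then ext x l else 0) (fun y => y = 0 ∨ y = c) hS (Or.inl rfl) (by
        intro l hl
        split_ifs with h'
        · exact or_iff_not_imp_left.2 (hc l hl h')
        · exact Or.inl rfl))
    rw [add_assoc, K4_add_self, add_zero] at this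
    tauto
  rw [mem_erase, mem_range] at hj
  obtain ⟨θ, c1, c2⟩ := tjoin (C := G.A \ BX G X φ) (filter_subset _ _) c hY
  refine ⟨j, hj.2, hj.1, b0, b1, fun e => ψ e + θ e, ?_, ?_, ?_⟩
  · intro e he
    rcases c1 e with h' | h'
    · simpa [h'] using a1 e he
    · intro h0
      exact (mem_filter.1 h'.2).2 (h'.1 ▸ K4_eq_of_add _ _ h0)
  · intro v
    rw [bd_add, a2, c2]
    unfold pv
    have : ∀ k < 6, (if φ k = v then c else 0) =
        ∑ l ∈ range 6, if φ l = v then (if k = l then c else 0) else 0 := by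
      intro k hk
      rw [sum_eq_single_of_mem k (mem_range.2 hk)]
      · simp
      · intro l _ hl
        simp [hl.symm]
    rw [this i hi, this j hj.2, ← sum_add_distrib, ← sum_add_distrib]
    apply sum_congr rfl
    intro l hl
    rw [ext_vk2 c (by omega) (by omega) (by have := mem_range.1 hl; omega)]
    split_ifs <;> simp
  · intro l hl hu
    have n1 : i ≠ l := by rintro rfl; exact h0 (a3 _ hl hu)
    have n2 : j ≠ l := by rintro rfl; exact b0 (a3 _ hl hu)
    rw [ext_vk2 c (by omega) (by omega) (by omega), a3 l hl hu]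
    simp [n1, n2]

theorem exists_ext (f : ℕ → K4) (h : ∑ l ∈ range 6, f l = 0) :
    ∃ x < 1024, ∀ l < 6, ext x l = f l := by
  refine ⟨vk (f 0) 0 ^^^ vk (f 1) 1 ^^^ vk (f 2) 2 ^^^ vk (f 3) 3 ^^^ vk (f 4) 4, ?_, ?_⟩
  · have x : ∀ {a b : ℕ}, a < 2 ^ 10 → b < 2 ^ 10 → a ^^^ b < 2 ^ 10 := Nat.xor_lt_two_pow
    exact x (x (x (x (vk_lt' _ _ (by omega)) (vk_lt' _ _ (by omega))) (vk_lt' _ _ (by omega)))
      (vk_lt' _ _ (by omega))) (vk_lt' _ _ (by omega))
  · intro l hl
    simp only [ext_xor]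
    rw [ext_vk _ _ (by omega) _ (by omega), ext_vk _ _ (by omega) _ (by omega),
      ext_vk _ _ (by omega) _ (by omega), ext_vk _ _ (by omega) _ (by omega),
      ext_vk _ _ (by omega) _ (by omega)]
    simp only [sum_range_succ, range_zero, sum_empty, zero_add] at h
    interval_cases l <;> simp
    exact K4_eq_of_add _ _ h

theorem ctx_of_flow (h : App0 G X φ) {ψ : E → K4}
    (h2 : ∀ v, (¬ ∃ l < 6, Us X l ∧ φ l = v) → G.bd (G.A \ BX G X φ) ψ v = 0) :
    ∃ x < 1024, (∀ v, G.bd (G.A \ BX G X φ) ψ v = pv φ (ext x) v) ∧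
      ∀ l < 6, ¬ Us X l → ext x l = 0 := by
  let f : ℕ → K4 := fun l => if Us X l then G.bd (G.A \ BX G X φ) ψ (φ l) else 0
  have key : ∀ v, G.bd (G.A \ BX G X φ) ψ v = pv φ f v := by
    intro v
    unfold pv
    by_cases hv : ∃ l < 6, Us X l ∧ φ l = v
    · obtain ⟨i, hi, hu, rfl⟩ := hv
      rw [sum_eq_single_of_mem i (mem_range.2 hi)]
      · simp [f, hu]
      · intro l _ hl
        split_ifs with h'
        · simp only [f]
          rw [if_neg fun hu' => hl (h.inj _ _ hu' hu h')]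
        · rfl
    · rw [h2 v hv, sum_eq_zero]
      intro l hl
      split_ifs with h'
      · simp only [f]
        rw [if_neg fun hu' => hv ⟨l, mem_range.1 hl, hu', h'⟩]
      · rfl
  obtain ⟨x, hx, hf⟩ := exists_ext f (by
    have := sum_pv (φ := φ) f Set.univ
    simp only [Set.mem_univ, filter_true, if_true, ← key, sum_bd_univ] at this
    exact this.symm)
  refine ⟨x, hx, fun v => ?_, fun l hl hu => by rw [hf l hl]; simp [f, hu]⟩
  rw [key]
  exact sum_congr rfl fun l hl => by rw [hf l (mem_range.1 hl)]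

theorem lb3 (hG : Min G) (h : App G X φ) {att : ℕ} (ha : ∀ l, att.testBit l = true ↔ l < 6 ∧ Us X l)
    {k L : ℕ} (hL : Lam X k L) {Y : Set V} (h1 : (ntm att).testBit (tr 6 (φ · ∈ Y)) = true)
    (h2 : L.testBit (tr 6 (φ · ∈ Y)) = true) : 3 ≤ (G.cut (G.A \ BX G X φ) Y).card + k := by
  obtain ⟨W, a, b⟩ := hL _ (tr_lt 6 _) h2
  obtain ⟨Y', c, d⟩ := h.cut_wit hG Y W (fun l hl _ => by rw [a l hl, tr_bit]; simp [hl])
  obtain ⟨⟨i, i1, i2⟩, j, j1, j2⟩ := (ntm_bit (fun l hl => ((ha l).1 hl).1) (tr_lt 6 _)).1 h1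
  rw [ha] at i1 j1
  have := hG.cut_ge_three (Y := Y') ((d i i1.2).2 ((a i i1.1).2 i2))
    (fun h' => j2 ((a j j1.1).1 ((d j j1.2).1 h'))) (h.ni i1.2) (h.ni j1.2)
  omega

theorem lb4 (hG : Min G) (h : App G X φ) {att : ℕ} (ha : ∀ l, att.testBit l = true ↔ l < 6 ∧ Us X l)
    {k L : ℕ} (hL : Lam X k L) {Y : Set V} (h1 : (bigm att).testBit (tr 6 (φ · ∈ Y)) = true)
    (h2 : L.testBit (tr 6 (φ · ∈ Y)) = true) : 4 ≤ (G.cut (G.A \ BX G X φ) Y).card + k := by
  obtain ⟨W, a, b⟩ := hL _ (tr_lt 6 _) h2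
  obtain ⟨Y', c, d⟩ := h.cut_wit hG Y W (fun l hl _ => by rw [a l hl, tr_bit]; simp [hl])
  obtain ⟨⟨i, i', n1, ⟨i1, i2⟩, i3, i4⟩, j, j', n2, ⟨j1, j2⟩, j3, j4⟩ := bigm_bit h1
  rw [ha] at i1 j1 i3 j3
  have := hG.cut_ge_four (Y := Y') ((d i i1.2).2 ((a i i1.1).2 i2)) ((d i' i3.2).2 ((a i' i3.1).2 i4))
    (fun h' => j2 ((a j j1.1).1 ((d j j1.2).1 h'))) (fun h' => j4 ((a j' j3.1).1 ((d j' j3.2).1 h')))
    (fun e => n1 (h.inj _ _ i1.2 i3.2 e)) (fun e => n2 (h.inj _ _ j1.2 j3.2 e))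
    (h.ni i1.2) (h.ni i3.2) (h.ni j1.2) (h.ni j3.2)
  omega

def Lb (G : MG V E) (X : EL) (φ : ℕ → V) (k M : ℕ) : Prop :=
  ∀ Y : Set V, M.testBit (tr 6 (φ · ∈ Y)) = true → k ≤ (G.cut (G.A \ BX G X φ) Y).card

theorem lb_zero (k : ℕ) : Lb G X φ k 0 := fun Y h => by simp at h

theorem red_s (hG : Min G) {c : Cfg} (hc : c.OK) (h : App G c.X φ) {ex1 ex2 s : ℕ}
    (hex1 : Lb G c.X φ 1 ex1) (hex2 : Lb G c.X φ 2 ex2) (hr : red c ex1 ex2 s = true) : False := by
  unfold red at hr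
  simp only [st_eq, an_iff, Nat.ble_eq] at hr
  generalize Nat.mod s p64 = d at hr
  obtain ⟨hd, hlen, hz1, hz0, hfl, hcl⟩ := hr
  have hd := rok_s hd
  obtain ⟨K, s', seen, hI, hk⟩ := cls_s hc.adj (inv_root _ d) hcl
  rw [an_iff] at hk
  have hrep := rep_s hk.1
  have hwit := wit_s hc.adj hk.2
  clear hk hcl
  set X := c.X
  let cl : ℕ → Set V := fun k => {v | ∃ i, Kc K k i ∧ Us X i ∧ φ i = v}
  have hcon : ∀ k i j, Kc K k i → Us X i → Kc K k j → Us X j ∧ G.Conn G.A (cl k) (φ i) (φ j) := by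
    intro k i j hi hu hj
    have := hI.cn k i j hi hj
    clear hj
    induction this with
    | refl => exact ⟨hu, Conn.refl _⟩
    | tail _ h2 ih =>
      exact ⟨h2.2.2.symm.us, ih.2.trans (Conn.single ⟨_, h2.1, ih.1, rfl⟩
        ⟨_, h2.2.1, h2.2.2.symm.us, rfl⟩ (h.adj _ _ h2.2.2))⟩
  have hdj : ∀ k k' v, v ∈ cl k → v ∈ cl k' → k = k' := by
    rintro k k' v ⟨i, a, b, rfl⟩ ⟨j, a', b', e⟩
    obtain rfl := h.inj _ _ b' b e
    exact hI.dj _ _ _ a a'
  have : ∀ k, ∃ r, ∀ i, Kc K k i → Kc K k r := by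
    intro k
    by_cases hk : ∃ i, Kc K k i
    · exact ⟨hk.choose, fun _ _ => hk.choose_spec⟩
    · exact ⟨0, fun i hi => absurd ⟨i, hi⟩ hk⟩
  choose r hr using this
  have hrc : ∀ k v, v ∈ cl k → φ (r k) ∈ cl k := by
    rintro k v ⟨i, a, b, rfl⟩
    exact ⟨_, hr k i a, (hcon k i _ a b (hr k i a)).1, rfl⟩
  let ρ : V → V := fun v => if h : ∃ k, v ∈ cl k then φ (r h.choose) else v
  have hρ : ∀ k v, v ∈ cl k → ρ v = φ (r k) := by
    intro k v hv
    have hex : ∃ k, v ∈ cl k := ⟨k, hv⟩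
    simp only [ρ, dif_pos hex]
    rw [hdj _ _ _ hex.choose_spec hv]
  have hρ' : ∀ v, (¬ ∃ k, v ∈ cl k) → ρ v = v := fun v hv => by simp only [ρ, dif_neg hv]
  have hpre : ∀ k v, v ∈ cl k → ρ ⁻¹' {φ (r k)} = cl k := by
    intro k v hv
    ext w
    simp only [Set.mem_preimage, Set.mem_singleton_iff]
    refine ⟨fun hw => ?_, hρ k w⟩
    by_cases hex : ∃ k, w ∈ cl k
    · obtain ⟨k', hk'⟩ := hex
      rw [hρ k' w hk'] at hw
      rwa [← hdj k' k _ (hrc _ _ hk') (hw ▸ hrc _ _ hv)]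
    · rw [hρ' w hex] at hw
      exact hw ▸ hrc _ _ hv
  have hfib : G.Fib ρ := by
    intro u v huv
    by_cases hu : ∃ k, u ∈ cl k
    · obtain ⟨k, hu⟩ := hu
      have hv : v ∈ cl k := by
        rw [← hpre k u hu, Set.mem_preimage, ← huv, hρ k u hu]; rfl
      obtain ⟨i, a, b, rfl⟩ := id hu
      obtain ⟨j, a', b', rfl⟩ := hv
      refine (hcon k i j a b a').2.mono subset_rfl fun w hw => ?_
      rw [Set.mem_ofPred_eq, hρ k w hw, hρ k _ hu]
    · by_cases hv : ∃ k, v ∈ cl k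
      · obtain ⟨k, hv⟩ := hv
        rw [hρ' u hu, hρ k v hv] at huv
        exact absurd ⟨k, huv ▸ hrc _ _ hv⟩ hu
      · rw [hρ' u hu, hρ' v hv] at huv
        subst huv
        exact Conn.refl _
  have hne : Nonempty E := by
    by_contra hc
    exact hG.nf ⟨fun e => absurd ⟨e⟩ hc, fun e => absurd ⟨e⟩ hc, fun v => bd_eq_zero fun e => absurd ⟨e⟩ hc⟩
  have : ∀ p : ℕ × ℕ, ∃ e, p ∈ re d → e ∈ BX G X φ ∧ ∃ u ∈ cl p.1, ∃ w ∈ cl p.2, G.Ends e u w := by
    intro p
    by_cases hp : p ∈ re d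
    · obtain ⟨u, w, a, b, c⟩ := hwit p hp
      obtain ⟨e, he, hen⟩ := h.adj _ _ c
      exact ⟨e, fun _ => ⟨(mem_BX hen).2 ⟨he, _, _, c, rfl, rfl⟩, _, ⟨u, a, c.us, rfl⟩, _,
        ⟨w, b, c.symm.us, rfl⟩, hen⟩⟩
    · exact ⟨hne.some, fun h => absurd h hp⟩
  choose g hg using this
  have hnd : ((re d).map g).Nodup := by
    rw [List.Nodup, List.pairwise_map]
    refine List.Pairwise.imp_of_mem ?_ hd.nd
    intro p q hp hq hne e
    apply hne
    obtain ⟨-, u, hu, w, hw, hen⟩ := hg p hp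
    obtain ⟨-, u', hu', w', hw', hen'⟩ := hg q hq
    rcases hen.unique (e ▸ hen') with ⟨rfl, rfl⟩ | ⟨rfl, rfl⟩
    · rw [hdj _ _ _ hu hu', hdj _ _ _ hw hw']
    · rw [hdj _ _ _ hu hw', hdj _ _ _ hw hu', Sym2.eq_swap]
  set E' := ((re d).map g).toFinset
  have hE' : E' ⊆ BX G X φ := by
    intro e he
    obtain ⟨p, hp, rfl⟩ := List.mem_map.1 (List.mem_toFinset.1 he)
    exact (hg p hp).1
  have hdis : Disjoint (G.A \ BX G X φ) E' := Disjoint.mono_right hE' sdiff_disjoint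
  have hdc : ∀ Z, Disjoint (G.cut (G.A \ BX G X φ) Z) (G.cut E' Z) :=
    fun Z => Disjoint.mono (cut_subset _ _) (cut_subset _ _) hdis
  have hW : ∀ (Z : Set V) (W : ℕ → Prop), (∀ k v, v ∈ cl k → (v ∈ Z ↔ W k)) → ∀ p ∈ re d,
      (G.l (g p) ∈ Z ↔ G.r (g p) ∈ Z) ↔ (W p.1 ↔ W p.2) := by
    intro Z W hZ p hp
    obtain ⟨-, u, hu, w, hw, hen⟩ := hg p hp
    rw [← hZ _ _ hu, ← hZ _ _ hw]
    rcases hen with ⟨a, b⟩ | ⟨a, b⟩ <;> rw [a, b]
    exact iff_comm
  obtain ⟨ψ, n1, n2⟩ := hG.mn ((G.A \ BX G X φ) ∪ E') ρ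
    (union_subset sdiff_subset (hE'.trans BX_sub)) (by
      rw [card_union_of_disjoint hdis, List.toFinset_card_of_nodup hnd, List.length_map,
        card_sdiff_of_subset BX_sub]
      have := card_le_card (BX_sub (G := G) (X := X) (φ := φ))
      rw [h.card hG] at this ⊢
      have : c.len ≤ X.length := hc.len
      simp only [rL, llen_eq] at hlen
      omega) hfib (by
      intro Y
      change (G.cut ((G.A \ BX G X φ) ∪ E') (ρ ⁻¹' Y)).card ≠ 1
      set Z := ρ ⁻¹' Y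
      have hZ : ∀ k v, v ∈ cl k → (v ∈ Z ↔ φ (r k) ∈ Z) := by
        intro k v hv
        simp only [Z, Set.mem_preimage]
        rw [hρ k v hv, hρ k _ (hrc _ _ hv)]
      rw [cut_union, card_union_of_disjoint (hdc Z), card_cut hnd (hW Z _ hZ)]
      obtain ⟨z0, z1⟩ := rZ_bit hd (fun k => φ (r k) ∈ Z) (tr_lt 6 (φ · ∈ Z)) (by
        intro l hl
        rw [tr_bit, and_iff_right hl]
        by_cases hu : Us X l
        · exact hZ _ _ ⟨l, hrep l hl, hu, rfl⟩
        · rcases (hI.cn _ _ _ (hrep l hl) (hr _ _ (hrep l hl))).cases_head with e | ⟨_, e, -⟩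
          · rw [← e]
          · exact absurd e.2.2.us hu)
      rw [sub_iff] at hz0 hz1
      simp only [Nat.land_eq, Nat.lor_eq, Nat.testBit_and, Nat.testBit_or, Bool.and_eq_true,
        Bool.or_eq_true] at hz0 hz1
      intro h1
      by_cases h0 : cutL (re d) (fun k => φ (r k) ∈ Z) = 0
      · by_cases hnt : (ntm c.att).testBit (tr 6 (φ · ∈ Z)) = true
        · rcases hz0 _ ⟨z0 h0, hnt⟩ with (h' | h') | h'
          · have := lb3 hG h hc.att hc.L1 hnt h'; omega
          · have := lb4 hG h hc.att hc.L2 h'.1 h'.2; omega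
          · have := hex2 _ h'; omega
        · rw [ntm_bit (fun l hl => ((hc.att l).1 hl).1) (tr_lt 6 _), not_and_or] at hnt
          simp only [hc.att, tr_bit, not_exists, not_and, and_imp] at hnt
          rcases hnt with hnt | hnt
          · obtain ⟨Y', a, -⟩ := h.cut_wit hG Z (fun _ => False)
              (fun l hl hu => by simpa using hnt l hl hu hl)
            apply hG.br Y'
            rw [a, show cutL X (fun _ => False) = 0 by simp [cutL]]
            omega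
          · obtain ⟨Y', a, -⟩ := h.cut_wit hG Z (fun _ => True)
              (fun l hl hu => by simpa [hl] using hnt l hl hu)
            apply hG.br Y'
            rw [a, show cutL X (fun _ => True) = 0 by simp [cutL]]
            omega
      · obtain ⟨hnt, (h' | h') | h'⟩ := hz1 _ (z1 (by omega))
        · have := lb3 hG h hc.att hc.L2 hnt h'; omega
        · have := lb4 hG h hc.att hc.L3 h'.1 h'.2; omega
        · have := hex1 _ h'; omega)
  have n3 : ∀ Y, ∑ e ∈ G.cut (G.A \ BX G X φ) (ρ ⁻¹' Y), ψ e = ∑ e ∈ G.cut E' (ρ ⁻¹' Y), ψ e := by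
    intro Y
    apply K4_eq_of_add
    rw [← sum_union (hdc _), ← cut_union, ← cut_minor ((G.A \ BX G X φ) ∪ E'), ← sum_bd]
    exact sum_eq_zero fun v _ => n2 v
  obtain ⟨x, hx, x1, x2⟩ := ctx_of_flow h.toApp0 (ψ := ψ) (by
    intro v hv
    by_cases hu : ∃ i, Us X i ∧ φ i = v
    · obtain ⟨i, hi, rfl⟩ := hu
      exact bd_eq_zero fun e he hinc => hv ⟨i, h.ctx_lab he hi hinc, hi, rfl⟩
    · have hcl : ∀ k, v ∉ cl k := fun k ⟨i, _, b, e⟩ => hu ⟨i, b, e⟩
      have : ρ ⁻¹' {v} = {v} := by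
        ext w
        simp only [Set.mem_preimage, Set.mem_singleton_iff]
        constructor
        · intro hw
          by_cases hex : ∃ k, w ∈ cl k
          · obtain ⟨k, hk⟩ := hex
            rw [hρ k w hk] at hw
            exact absurd (hw ▸ hrc _ _ hk) (hcl k)
          · rwa [hρ' w hex] at hw
        · rintro rfl
          exact hρ' _ (by simpa using hcl)
      rw [bd_eq_cut, ← this, n3, this, ← bd_eq_cut]
      exact bd_eq_zero fun e he hinc => hu (BX_us (hE' he) hinc))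
  obtain ⟨f, f1, f2⟩ := flow_real (Y := re d) (fun p => ψ (g p)) (fun p hp => n1 _
    (mem_union_right _ (List.mem_toFinset.2 (List.mem_map_of_mem hp))))
  have m1 := rM_bit hd f1 hx (by
    intro k _
    have : ∑ e ∈ G.cut (G.A \ BX G X φ) (cl k), ψ e = ∑ e ∈ G.cut E' (cl k), ψ e := by
      by_cases hk : ∃ v, v ∈ cl k
      · obtain ⟨v, hv⟩ := hk
        rw [← hpre k v hv, n3]
      · have : cl k = ∅ := Set.eq_empty_of_forall_notMem (by simpa using hk)
        simp [this, cut]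
    rw [sum_cut hnd _ (W := (· = k)) (hW (cl k) (· = k) fun k' v hv => ⟨fun h => hdj _ _ _ hv h, fun h => h ▸ hv⟩),
      ← sum_bd, sum_congr rfl (fun v _ => x1 v), sum_pv] at this
    rw [f2]
    refine Eq.trans ?_ (this.trans (by congr!))
    apply sum_congr rfl
    intro l hl
    rw [mem_range] at hl
    by_cases hu : Us X l
    · have : φ l ∈ cl (rpf d l) := ⟨l, hrep l hl, hu, rfl⟩
      exact if_congr ⟨fun h => h ▸ this, fun h => hdj _ _ _ this h⟩ rfl rfl
    · simp [x2 l hl hu])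
  have m2 := kem_s kempe (fun x hx hc' => ctx_F hG h.toApp0 hc.F hx hc')
    (fld s 64 16) (Nat.shiftRight s 68) x hx ⟨ψ, fun e he => n1 e (mem_union_left _ he), x1, x2⟩
  rw [Nat.beq_eq] at hfl
  have := congrArg (Nat.testBit · x) hfl
  simp only [Nat.land_eq, Nat.testBit_and, m1, m2] at this
  simp at this

end Pool.Agent.MP_e6539c_co.TW

end MrgPart5

-- marker of a merged file
example : 731051 + 180832 = 731051 + 180832 := rfl
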