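import Mathlib.Tactic.SuppressCompilation
import Mathlib.CategoryTheory.Category.Basic
import Mathlib.Logic.Equiv.PartialEquiv
import Mathlib.Tactic.ENatToNat
import Mathlib.Algebra.Order.Ring.Star
import Mathlib.Tactic.Bound
import Mathlib.Data.Nat.Bitwise
import Mathlib.Data.LawfulXor.Basic
import Mathlib.RingTheory.PiTensorProduct
import Mathlib.RingTheory.WittVector.IsPoly
import Mathlib.Tactic.Polynomial.Basic
import Mathlib.Tactic.ReduceModChar
import Pool.Agent.MP_e6539c_co.TW.Basic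

-- ======== part 0: formerly Pool.Agent.MP_e6539c_co.TW.Defs
section MrgPart0

/-!
Executable part of the certificate checker (written with raw recursors for kernel evaluation).
-/

set_option autoImplicit false

namespace Pool.Agent.MP_e6539c_co.TW

noncomputable section

def st {α : Type} (x : ℕ) (k : ℕ → α) : α := Nat.rec (k 0) (fun n _ => k (Nat.succ n)) x
def cd {α : Type} (b : Bool) (t f : α) : α := Bool.rec f t b
def an (a b : Bool) : Bool := Bool.rec false b a
def orr (a b : Bool) : Bool := Bool.rec b true a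
def nt (a : Bool) : Bool := Bool.rec true false a
def tb (a i : ℕ) : Bool := Nat.beq (Nat.land (Nat.shiftRight a i) 1) 1
def nz (a : ℕ) : Bool := Nat.rec false (fun _ _ => true) a
def sub (a b : ℕ) : Bool := Nat.beq (Nat.land a b) a
def fld (s i m : ℕ) : ℕ := Nat.mod (Nat.shiftRight s i) m
def lall {α : Type} (l : List α) (p : α → Bool) : Bool := List.rec true (fun a _ ih => an (p a) ih) l
def lany {α : Type} (l : List α) (p : α → Bool) : Bool := List.rec false (fun a _ ih => orr (p a) ih) l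
def rall (n : ℕ) (p : ℕ → Bool) : Bool := Nat.rec true (fun i ih => an (p i) ih) n
def app {α : Type} (l m : List α) : List α := List.rec m (fun a _ ih => a :: ih) l
def lmap {α β : Type} (f : α → β) (l : List α) : List β := List.rec [] (fun a _ ih => f a :: ih) l
def llen {α : Type} (l : List α) : ℕ := List.rec 0 (fun _ _ ih => Nat.succ ih) l
def lget {α : Type} (l : List α) (d : α) : ℕ → α :=
  List.rec (fun _ => d) (fun a _ ih i => Nat.rec a (fun j _ => ih j) i) l

def mkM (n : ℕ) (p : ℕ → Bool) : ℕ :=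
  Nat.rec 0 (fun t acc => cd (p t) (Nat.lor acc (Nat.pow 2 t)) acc) n
def rp (M w j : ℕ) : ℕ :=
  Nat.rec M (fun i a => Nat.lor a (Nat.shiftLeft a (Nat.mul w (Nat.pow 2 i)))) j
def mk (k : ℕ) : ℕ :=
  rp (Nat.sub (Nat.pow 2 (Nat.pow 2 k)) 1) (Nat.pow 2 (Nat.succ k)) (Nat.sub 13 k)
def swp (k M : ℕ) : ℕ :=
  Nat.lor (Nat.shiftLeft (Nat.land M (mk k)) (Nat.pow 2 k))
    (Nat.land (Nat.shiftRight M (Nat.pow 2 k)) (mk k))
def sh5 (b M u : ℕ) : ℕ := Nat.rec M (fun i a => cd (tb u i) (swp (Nat.add b i) a) a) 5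
def sh (M y : ℕ) : ℕ := st (Nat.mod y 32) fun u => sh5 5 (sh5 0 M u) (Nat.div y 32)
def conv (M s : ℕ) : ℕ :=
  Nat.rec (motive := fun _ => ℕ → ℕ → ℕ) (fun _ acc => acc)
    (fun _ ih s acc => Nat.rec acc (fun y _ => ih (Nat.div s 2048) (Nat.lor acc (sh M y)))
      (Nat.mod s 2048)) 200 s 0
def ysOK (M s : ℕ) : Bool :=
  Nat.rec (motive := fun _ => ℕ → Bool) (fun _ => true)
    (fun _ ih s => Nat.rec true (fun y _ => an (an (Nat.ble y 1023) (tb M y)) (ih (Nat.div s 2048)))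
      (Nat.mod s 2048)) 200 s

def a64 : ℕ := Nat.sub (Nat.pow 2 64) 1
def a256 : ℕ := Nat.sub (Nat.pow 2 256) 1
def a1k : ℕ := Nat.sub (Nat.pow 2 1024) 1
def m32 : ℕ := 4294967295
def dp (a : ℕ) : ℕ := cd (Nat.ble a 4) (Nat.mul 2 a) (Nat.sub (Nat.mul 2 a) 2)
def s1 (a M : ℕ) : ℕ := cd (Nat.beq a 5) M (swp (dp a) M)
def s2 (a M : ℕ) : ℕ := cd (Nat.beq a 5) M (swp (Nat.succ (dp a)) M)
def addE (a b M : ℕ) : ℕ :=
  Nat.lor (Nat.lor (s1 a (s1 b M)) (s2 a (s2 b M))) (s2 a (s2 b (s1 a (s1 b M))))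
def qk (k : ℕ) : ℕ := Nat.xor a1k (Nat.land a1k (mk k))
def b0 (l : ℕ) : ℕ := cd (Nat.ble l 4) (qk (Nat.mul 2 l))
  (Nat.xor (qk 0) (Nat.xor (qk 2) (Nat.xor (qk 4) (Nat.xor (qk 6) (qk 8)))))
def b1 (l : ℕ) : ℕ := cd (Nat.ble l 4) (qk (Nat.succ (Nat.mul 2 l)))
  (Nat.xor (qk 1) (Nat.xor (qk 3) (Nat.xor (qk 5) (Nat.xor (qk 7) (qk 9)))))
def nzm (l : ℕ) : ℕ := Nat.lor (b0 l) (b1 l)
def zm (l : ℕ) : ℕ := Nat.xor a1k (nzm l)
def km (a l : ℕ) : ℕ := cd (Nat.beq a 1) (b1 l) (cd (Nat.beq a 2) (b0 l) (Nat.xor (b0 l) (b1 l)))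
def sc (a l M : ℕ) : ℕ := cd (Nat.beq a 1) (s1 l M) (cd (Nat.beq a 2) (s2 l M) (s1 l (s2 l M)))
def kstep (a i C : ℕ) : ℕ :=
  cd (an (nz a) (Nat.ble i 5))
    (Nat.land C (Nat.rec (Nat.xor a1k (km a i))
      (fun j acc => cd (Nat.beq j i) acc (Nat.lor acc (Nat.land (km a j) (sc a i (sc a j C))))) 6)) C
def kem (C nk s : ℕ) : ℕ :=
  Nat.rec C (fun i acc =>
    st (fld s (Nat.mul 5 i) 4) fun a => st (fld s (Nat.add (Nat.mul 5 i) 2) 8) fun l => kstep a l acc) nk

def pm (a : ℕ) : ℕ := Nat.xor a256 (Nat.land a256 (mk a))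
def dif (a b : ℕ) : ℕ := Nat.xor (pm a) (pm b)
def sam (a b : ℕ) : ℕ := Nat.xor a256 (dif a b)
def two (x : ℕ) : Bool := nz (Nat.land x (Nat.pred x))
def ntm (t : ℕ) : ℕ := mkM 64 fun u => an (nz (Nat.land u t)) (nz (Nat.land t (Nat.xor 63 u)))
def bigm (t : ℕ) : ℕ := mkM 64 fun u => an (two (Nat.land u t)) (two (Nat.land t (Nat.xor 63 u)))
def patm (t S : ℕ) : ℕ :=
  mkM 64 fun u => orr (Nat.beq (Nat.land u t) S) (Nat.beq (Nat.land t (Nat.xor 63 u)) S)

def eqp (p q : ℕ × ℕ) : Bool := an (Nat.beq p.1 q.1) (Nat.beq p.2 q.2)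
def symp (p q : ℕ × ℕ) : Bool := orr (eqp p q) (an (Nat.beq p.1 q.2) (Nat.beq p.2 q.1))
def ndb (X : List (ℕ × ℕ)) : Bool :=
  List.rec true (fun p r ih => an (lall r fun q => nt (symp p q)) ih) X
def eqL (X : List (ℕ × ℕ)) : List (ℕ × ℕ) → Bool :=
  List.rec (fun Y => List.rec true (fun _ _ _ => false) Y)
    (fun p _ ih Y => List.rec false (fun q r _ => an (eqp p q) (ih r)) Y) X

def rpf (d l : ℕ) : ℕ := fld d (Nat.mul 3 l) 8
def re (d : ℕ) : List (ℕ × ℕ) :=
  Nat.rec [] (fun j acc => (fld d (Nat.add 21 (Nat.mul 6 j)) 8, fld d (Nat.add 24 (Nat.mul 6 j)) 8) :: acc)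
    (fld d 18 8)
def rok (d : ℕ) : Bool :=
  an (rall 6 fun l => an (Nat.ble (rpf d l) 5) (Nat.beq (rpf d (rpf d l)) (rpf d l)))
    (an (lall (re d) fun p => an (orr (Nat.ble 6 p.1) (Nat.beq (rpf d p.1) p.1))
      (orr (Nat.ble 6 p.2) (Nat.beq (rpf d p.2) p.2))) (ndb (re d)))
def rM0 (E : List (ℕ × ℕ)) : ℕ :=
  List.rec 1 (fun p _ M => st p.1 fun a => st p.2 fun b => addE a b M) E
def rM (d : ℕ) : ℕ :=
  Nat.land a1k (Nat.rec (rM0 (re d)) (fun l M => st (rpf d l) fun r =>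
    cd (Nat.beq r l) M (Nat.lor M (addE l r M))) 6)
def z0 (E : List (ℕ × ℕ)) : ℕ := List.rec a256 (fun p _ acc => Nat.land acc (sam p.1 p.2)) E
def z1 (E : List (ℕ × ℕ)) : ℕ :=
  List.rec 0 (fun p r acc => Nat.lor (Nat.land acc (sam p.1 p.2)) (Nat.land (z0 r) (dif p.1 p.2))) E
def rC (d : ℕ) : ℕ := Nat.rec a256 (fun l acc => Nat.land acc (sam l (rpf d l))) 6
def fold4 (A : ℕ) : ℕ :=
  Nat.land a64 (Nat.lor (Nat.lor A (Nat.shiftRight A 64))
    (Nat.lor (Nat.shiftRight A 128) (Nat.shiftRight A 192)))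
def rZ0 (d : ℕ) : ℕ := fold4 (Nat.land (z0 (re d)) (rC d))
def rZ1 (d : ℕ) : ℕ := fold4 (Nat.land (z1 (re d)) (rC d))
def rREP (d : ℕ) : ℕ :=
  Nat.rec 0 (fun l acc => Nat.lor acc (Nat.pow 2 (Nat.add (Nat.mul 32 (rpf d l)) l))) 6
def rK0 (d : ℕ) : ℕ :=
  Nat.rec 0 (fun l acc => cd (Nat.beq (rpf d l) l) (Nat.lor acc (Nat.pow 2 (Nat.mul 33 l))) acc) 6
def rS0 (d : ℕ) : ℕ := mkM 6 fun l => Nat.beq (rpf d l) l
def rL (d : ℕ) : ℕ := Nat.succ (llen (re d))

def cls (adj : ℕ) (k : ℕ → ℕ → Bool) : ℕ → ℕ → ℕ → Bool :=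
  Nat.rec (motive := fun _ => ℕ → ℕ → ℕ → Bool) (fun _ _ _ => false)
    (fun _ ih s K seen => Nat.rec (k K (Nat.div s 512)) (fun v _ =>
      an (Nat.beq (Nat.land seen (Nat.pow 2 (Nat.mod v 32))) 0)
        (an (orr (nz (Nat.land (Nat.land (Nat.shiftRight adj (Nat.mul 32 (Nat.mod v 32)))
              (Nat.shiftRight K (Nat.sub v (Nat.mod v 32)))) m32))
            (Nat.beq (Nat.land (Nat.shiftRight K (Nat.sub v (Nat.mod v 32))) m32) 0))
          (ih (Nat.div s 512) (Nat.lor K (Nat.pow 2 v)) (Nat.lor seen (Nat.pow 2 (Nat.mod v 32))))))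
      (Nat.mod s 512)) 40
def wit (adj K : ℕ) (E : List (ℕ × ℕ)) : ℕ → Bool :=
  List.rec (fun _ => true) (fun p _ ih s =>
    an (tb K (Nat.add (Nat.mul 32 p.1) (Nat.mod s 32)))
      (an (nz (Nat.land (Nat.land (Nat.shiftRight adj (Nat.mul 32 (Nat.mod s 32)))
          (Nat.shiftRight K (Nat.mul 32 p.2))) m32)) (ih (Nat.div s 32)))) E

structure Cfg where
  X : List (ℕ × ℕ)
  n : ℕ
  F : ℕ
  L0 : ℕ
  L1 : ℕ
  L2 : ℕ
  L3 : ℕ
  adj : ℕ
  att : ℕ
  len : ℕ

def force {α : Type} (c : Cfg) (k : Cfg → α) : α :=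
  st c.n fun n => st c.F fun F => st c.L0 fun L0 => st c.L1 fun L1 => st c.L2 fun L2 =>
    st c.L3 fun L3 => st c.adj fun adj => st c.att fun att => st c.len fun len =>
      k ⟨c.X, n, F, L0, L1, L2, L3, adj, att, len⟩

def lab : ℕ := rp 63 32 3
def p64 : ℕ := Nat.pow 2 64

def red (c : Cfg) (ex1 ex2 s : ℕ) : Bool :=
  st (Nat.mod s p64) fun d => st c.att fun t => st (fld s 64 16) fun nk =>
    an (rok d) (an (Nat.ble (rL d) c.len)
      (an (sub (rZ1 d) (Nat.land (ntm t) (Nat.lor (Nat.lor c.L2 (Nat.land (bigm t) c.L3)) ex1)))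
        (an (sub (Nat.land (rZ0 d) (ntm t)) (Nat.lor (Nat.lor c.L1 (Nat.land (bigm t) c.L2)) ex2))
          (an (Nat.beq (Nat.land (rM d) (kem (Nat.xor a1k c.F) nk (Nat.shiftRight s 68))) 0)
            (cls c.adj (fun K s' => an (Nat.beq (Nat.land K lab) (rREP d)) (wit c.adj K (re d) s'))
              (Nat.shiftRight s (Nat.add 68 (Nat.mul 5 nk))) (rK0 d) (rS0 d))))))

def petL : List (ℕ × ℕ) :=
  [(0,1),(1,2),(2,3),(3,4),(0,4),(0,5),(1,6),(2,7),(3,8),(4,9),(5,7),(7,9),(6,9),(6,8),(5,8)]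
def pet (adj s : ℕ) : Bool := cls adj (fun K s' => wit adj K petL s') s 0 0
def eb (adj a b : ℕ) : Bool := tb adj (Nat.add (Nat.mul 32 a) b)
def c3 (adj s : ℕ) : Bool :=
  an (eb adj (fld s 3 32) (fld s 8 32)) (an (eb adj (fld s 8 32) (fld s 13 32))
    (eb adj (fld s 13 32) (fld s 3 32)))
def c4 (adj s : ℕ) : Bool :=
  an (eb adj (fld s 3 32) (fld s 8 32)) (an (eb adj (fld s 8 32) (fld s 13 32))
    (an (eb adj (fld s 13 32) (fld s 18 32)) (an (eb adj (fld s 18 32) (fld s 3 32))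
      (an (nt (Nat.beq (fld s 3 32) (fld s 13 32))) (nt (Nat.beq (fld s 8 32) (fld s 18 32)))))))
def dup (X : List (ℕ × ℕ)) (s : ℕ) : Bool :=
  an (Nat.blt (fld s 3 64) (fld s 9 64)) (an (Nat.blt (fld s 9 64) (llen X))
    (symp (lget X (0, 0) (fld s 3 64)) (lget X (0, 0) (fld s 9 64))))
def dgr (X : List (ℕ × ℕ)) (i : ℕ) : ℕ :=
  List.rec 0 (fun p _ ih => cd (orr (Nat.beq p.1 i) (Nat.beq p.2 i)) (Nat.succ ih) ih) X
def low (X : List (ℕ × ℕ)) (i : ℕ) : Bool :=
  an (Nat.ble 6 i) (an (nz (dgr X i)) (Nat.ble (dgr X i) 2))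
def kill0 (c : Cfg) (s : ℕ) : Bool :=
  Nat.rec (red c 0 0 (Nat.shiftRight s 24)) (fun t _ => Nat.rec (c4 c.adj s) (fun t _ =>
    Nat.rec (c3 c.adj s) (fun t _ => Nat.rec (dup c.X s) (fun t _ =>
      Nat.rec (pet c.adj (Nat.shiftRight s 3)) (fun _ _ => low c.X (Nat.shiftRight s 3)) t) t) t) t)
    (Nat.mod s 8)

def adjOf (X : List (ℕ × ℕ)) : ℕ :=
  List.rec 0 (fun p _ acc => cd (an (Nat.ble p.1 31) (Nat.ble p.2 31))
    (Nat.lor acc (Nat.lor (Nat.pow 2 (Nat.add (Nat.mul 32 p.1) p.2))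
      (Nat.pow 2 (Nat.add (Nat.mul 32 p.2) p.1)))) acc) X
def usedOf (X : List (ℕ × ℕ)) : ℕ :=
  List.rec 0 (fun p _ acc => Nat.lor acc (Nat.lor (Nat.pow 2 p.1) (Nat.pow 2 p.2))) X
def attOf (X : List (ℕ × ℕ)) : ℕ := Nat.land (usedOf X) 63
def pmap (f : ℕ → ℕ) (X : List (ℕ × ℕ)) : List (ℕ × ℕ) := lmap (fun p => (f p.1, f p.2)) X
def rn (a n i : ℕ) : ℕ := cd (Nat.beq i a) n i
def mkC (X : List (ℕ × ℕ)) (n F L0 L1 L2 L3 : ℕ) : Cfg :=
  ⟨X, n, F, L0, L1, L2, L3, adjOf X, attOf X, llen X⟩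
def emp : Cfg := mkC [] 6 1 a64 a64 a64 a64
def opAdd (c : Cfg) (a b : ℕ) : Cfg :=
  mkC ((a, b) :: c.X) c.n (addE a b c.F) (Nat.land c.L0 (sam a b))
    (Nat.lor (Nat.land c.L1 (sam a b)) c.L0) (Nat.lor (Nat.land c.L2 (sam a b)) c.L1)
    (Nat.lor (Nat.land c.L3 (sam a b)) c.L2)
def opFor (c : Cfg) (a : ℕ) : Cfg :=
  mkC (pmap (rn a c.n) c.X) (Nat.succ c.n) (Nat.land c.F (zm a)) (Nat.lor c.L0 (swp a c.L0))
    (Nat.lor c.L1 (swp a c.L1)) (Nat.lor c.L2 (swp a c.L2)) (Nat.lor c.L3 (swp a c.L3))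
def opPen (c : Cfg) (a : ℕ) : Cfg :=
  mkC ((c.n, a) :: pmap (rn a c.n) c.X) (Nat.succ c.n) (Nat.land c.F (nzm a)) c.L0
    (Nat.lor c.L1 (swp a c.L0)) (Nat.lor c.L2 (swp a c.L1)) (Nat.lor c.L3 (swp a c.L2))
def rl (π i : ℕ) : ℕ := cd (Nat.ble i 5) (fld π (Nat.mul 3 i) 8) i
def step (π : ℕ) (o : ℕ × ℕ × ℕ) (c : Cfg) : Cfg :=
  st (rl π o.2.1) fun a => st (rl π o.2.2) fun b => cd (an (Nat.ble a 5) (Nat.ble b 5))
    (Nat.rec (opAdd c a b) (fun t _ => Nat.rec (opFor c a) (fun _ _ => opPen c a) t) o.1) c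
def run (π : ℕ) (pr : List (ℕ × ℕ × ℕ)) : Cfg :=
  List.rec emp (fun o _ ih => step π o ih) pr

end

end Pool.Agent.MP_e6539c_co.TW

end MrgPart0

-- ======== part 1: formerly Pool.Agent.MP_e6539c_co.TW.Bits
section MrgPart1

/-!
Specifications of the bit-level primitives.
-/

set_option autoImplicit false
set_option exponentiation.threshold 2000

namespace Pool.Agent.MP_e6539c_co.TW

theorem nmod (a b : ℕ) : Nat.mod a b = a % b := rfl
theorem ndiv (a b : ℕ) : Nat.div a b = a / b := rfl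

@[simp] theorem st_eq {α : Type} (x : ℕ) (k : ℕ → α) : st x k = k x := by cases x <;> rfl
theorem cd_eq {α : Type} (b : Bool) (t f : α) : cd b t f = if b = true then t else f := by
  cases b <;> rfl
@[simp] theorem an_iff (a b : Bool) : an a b = true ↔ a = true ∧ b = true := by
  cases a <;> cases b <;> simp [an]
@[simp] theorem orr_iff (a b : Bool) : orr a b = true ↔ a = true ∨ b = true := by
  cases a <;> cases b <;> simp [orr]
@[simp] theorem nt_iff (a : Bool) : nt a = true ↔ ¬ a = true := by cases a <;> simp [nt]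
@[simp] theorem tb_eq (a i : ℕ) : tb a i = a.testBit i := by
  unfold tb Nat.testBit
  rw [Nat.land_eq, Nat.shiftRight_eq, Nat.and_comm, Nat.one_and_eq_mod_two]
  rcases Nat.mod_two_eq_zero_or_one (a >>> i) with h | h <;> rw [h] <;> rfl
@[simp] theorem nz_iff (a : ℕ) : nz a = true ↔ a ≠ 0 := by cases a <;> simp [nz]
theorem nz_ex {a : ℕ} (h : nz a = true) : ∃ i, a.testBit i = true :=
  Nat.exists_testBit_of_ne_zero ((nz_iff a).1 h)
theorem sub_iff (a b : ℕ) : sub a b = true ↔ ∀ i, a.testBit i = true → b.testBit i = true := by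
  unfold sub
  rw [Nat.beq_eq, Nat.land_eq]
  constructor
  · intro h i hi
    rw [← h, Nat.testBit_and] at hi
    simp only [Bool.and_eq_true] at hi
    exact hi.2
  · intro h
    apply Nat.eq_of_testBit_eq
    intro i
    rw [Nat.testBit_and]
    cases hi : a.testBit i
    · simp
    · simp [h i hi]
theorem fld_lt (s i m : ℕ) (h : 0 < m) : fld s i m < m := Nat.mod_lt _ h

@[simp] theorem lall_iff {α : Type} (l : List α) (p : α → Bool) :
    lall l p = true ↔ ∀ a ∈ l, p a = true := by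
  induction l with
  | nil => simp [lall]
  | cons a l ih =>
    have : lall (a :: l) p = an (p a) (lall l p) := rfl
    simp [this, ih]
@[simp] theorem lany_iff {α : Type} (l : List α) (p : α → Bool) :
    lany l p = true ↔ ∃ a ∈ l, p a = true := by
  induction l with
  | nil => simp [lany]
  | cons a l ih =>
    have : lany (a :: l) p = orr (p a) (lany l p) := rfl
    simp [this, ih]
@[simp] theorem rall_iff (n : ℕ) (p : ℕ → Bool) : rall n p = true ↔ ∀ i < n, p i = true := by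
  induction n with
  | zero => simp [rall]
  | succ n ih =>
    have : rall (n + 1) p = an (p n) (rall n p) := rfl
    rw [this, an_iff, ih, Nat.forall_lt_succ_right, and_comm]
@[simp] theorem app_eq {α : Type} (l m : List α) : app l m = l ++ m := by
  induction l with
  | nil => rfl
  | cons a l ih => exact congrArg (a :: ·) ih
@[simp] theorem lmap_eq {α β : Type} (f : α → β) (l : List α) : lmap f l = l.map f := by
  induction l with
  | nil => rfl
  | cons a l ih => exact congrArg (f a :: ·) ih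
@[simp] theorem llen_eq {α : Type} (l : List α) : llen l = l.length := by
  induction l with
  | nil => rfl
  | cons a l ih => exact congrArg Nat.succ ih
theorem lget_eq {α : Type} (l : List α) (d : α) (i : ℕ) : lget l d i = l.getD i d := by
  induction l generalizing i with
  | nil => rfl
  | cons a l ih =>
    cases i with
    | zero => rfl
    | succ i => exact ih i

theorem mkM_bit (n : ℕ) (p : ℕ → Bool) (t : ℕ) :
    (mkM n p).testBit t = true ↔ t < n ∧ p t = true := by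
  induction n with
  | zero => simp [mkM]
  | succ n ih =>
    have : mkM (n + 1) p = cd (p n) (Nat.lor (mkM n p) (Nat.pow 2 n)) (mkM n p) := rfl
    rw [this, cd_eq]
    split_ifs with h
    · rw [Nat.lor_eq, Nat.pow_eq, Nat.testBit_or, Bool.or_eq_true, ih, Nat.testBit_two_pow]
      simp only [decide_eq_true_eq]
      constructor
      · rintro (h' | rfl)
        · exact ⟨by omega, h'.2⟩
        · exact ⟨by omega, h⟩
      · rintro ⟨h1, h2⟩
        by_cases h3 : n = t
        · exact Or.inr h3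
        · exact Or.inl ⟨by omega, h2⟩
    · rw [ih]
      constructor
      · exact fun h' => ⟨by omega, h'.2⟩
      · rintro ⟨h1, h2⟩
        refine ⟨?_, h2⟩
        by_contra h3
        have : t = n := by omega
        exact h (this ▸ h2)

theorem rp_bit {M w : ℕ} (hM : M < 2 ^ w) (j p : ℕ) :
    (rp M w j).testBit p = true ↔ p < w * 2 ^ j ∧ M.testBit (p % w) = true := by
  induction j generalizing p with
  | zero =>
    change M.testBit p = true ↔ _
    constructor
    · intro h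
      have : p < w := by
        by_contra hc
        rw [Nat.testBit_lt_two_pow (lt_of_lt_of_le hM (Nat.pow_le_pow_right (by omega) (by omega)))] at h
        exact absurd h (by simp)
      rw [Nat.mod_eq_of_lt this]
      exact ⟨by omega, h⟩
    · rintro ⟨h1, h2⟩
      rwa [Nat.mod_eq_of_lt (by omega)] at h2
  | succ j ih =>
    have : rp M w (j + 1) = rp M w j ||| (rp M w j <<< (w * 2 ^ j)) := rfl
    rw [this, Nat.testBit_or, Bool.or_eq_true, Nat.testBit_shiftLeft, Bool.and_eq_true, ih, ih,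
      pow_succ, ← mul_assoc]
    simp only [ge_iff_le, decide_eq_true_eq]
    by_cases h : w * 2 ^ j ≤ p
    · have e : (p - w * 2 ^ j) % w = p % w := by
        conv_rhs => rw [← Nat.sub_add_cancel h, Nat.add_mul_mod_self_left]
      rw [e]
      constructor
      · rintro (h' | h')
        · omega
        · exact ⟨by omega, h'.2.2⟩
      · exact fun h' => Or.inr ⟨h, by omega, h'.2⟩
    · constructor
      · rintro (h' | h')
        · exact ⟨by omega, h'.2⟩
        · omega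
      · exact fun h' => Or.inl ⟨by omega, h'.2⟩

theorem mk_bit {k : ℕ} (hk : k ≤ 13) (p : ℕ) :
    (mk k).testBit p = true ↔ p < 2 ^ 14 ∧ p.testBit k = false := by
  have : mk k = rp (2 ^ 2 ^ k - 1) (2 ^ (k + 1)) (13 - k) := rfl
  have h1 : 2 ^ 2 ^ k - 1 < 2 ^ 2 ^ (k + 1) :=
    lt_of_lt_of_le (Nat.sub_lt (by positivity) one_pos)
      (Nat.pow_le_pow_right (by omega) (Nat.pow_le_pow_right (by omega) (by omega)))
  rw [this, rp_bit h1, ← pow_add, show k + 1 + (13 - k) = 14 by omega, Nat.testBit_two_pow_sub_one,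
    Nat.testBit_eq_decide_div_mod_eq, Nat.mod_pow_succ]
  have h2 : p % 2 ^ k < 2 ^ k := Nat.mod_lt _ (by positivity)
  rcases Nat.mod_two_eq_zero_or_one (p / 2 ^ k) with h | h <;> simp [h, h2]

theorem xor_pow_of_false (k x : ℕ) (h : x.testBit k = false) : x ^^^ 2 ^ k = x + 2 ^ k := by
  induction k generalizing x with
  | zero =>
    rw [pow_zero]
    apply Nat.xor_one_of_even
    rw [Nat.even_iff]
    simpa [Nat.testBit_zero] using h
  | succ k ih =>
    rw [Nat.testBit_succ] at h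
    have h1 : (x ^^^ 2 ^ (k + 1)) / 2 = x / 2 + 2 ^ k := by
      rw [Nat.xor_div_two, pow_succ, Nat.mul_div_cancel _ two_pos, ih _ h]
    have h2 : (x ^^^ 2 ^ (k + 1)) % 2 = (x + 2 ^ (k + 1)) % 2 := Nat.xor_mod_two_eq
    rw [pow_succ] at *
    omega

theorem swp_bit {k : ℕ} (hk : k ≤ 13) (M : ℕ) {x : ℕ} (hx : x < 2 ^ 14) :
    (swp k M).testBit x = M.testBit (x ^^^ 2 ^ k) := by
  have : swp k M = ((M &&& mk k) <<< (2 ^ k)) ||| ((M >>> (2 ^ k)) &&& mk k) := rfl
  rw [this, Nat.testBit_or, Nat.testBit_shiftLeft, Nat.testBit_and, Nat.testBit_and,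
    Nat.testBit_shiftRight]
  have hk' : 2 ^ k < 2 ^ 14 := Nat.pow_lt_pow_right (by omega) (by omega)
  cases h : x.testBit k
  · rw [xor_pow_of_false k x h, (mk_bit hk x).2 ⟨hx, h⟩, add_comm]
    have : (decide (x ≥ 2 ^ k) && (M.testBit (x - 2 ^ k) && (mk k).testBit (x - 2 ^ k))) = false := by
      by_contra hc
      simp only [Bool.not_eq_false, Bool.and_eq_true, decide_eq_true_eq] at hc
      have h2 := ((mk_bit hk _).1 hc.2.2).2
      have h3 := xor_pow_of_false k _ h2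
      rw [Nat.sub_add_cancel hc.1] at h3
      rw [← h3, Nat.testBit_xor, h2, Nat.testBit_two_pow] at h
      simp at h
    rw [this]
    simp
  · have h2 : (x ^^^ 2 ^ k).testBit k = false := by
      rw [Nat.testBit_xor, h, Nat.testBit_two_pow]; simp
    have h3 := xor_pow_of_false k _ h2
    rw [Nat.xor_assoc, Nat.xor_self, Nat.xor_zero] at h3
    have h4 : x - 2 ^ k = x ^^^ 2 ^ k := by omega
    have h5 : (mk k).testBit x = false := by
      by_contra hc
      have := ((mk_bit hk x).1 (by simpa using hc)).2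
      rw [h] at this
      exact absurd this (by simp)
    rw [h4, h5, (mk_bit hk _).2 ⟨Nat.xor_lt_two_pow hx hk', h2⟩]
    simp [Nat.ge_two_pow_of_testBit h]

theorem sh5_bit {b : ℕ} (hb : b ≤ 5) (M u : ℕ) {x : ℕ} (hx : x < 2 ^ 14) :
    (sh5 b M u).testBit x = M.testBit (x ^^^ (u % 32) * 2 ^ b) := by
  have key : ∀ n ≤ 5, ∀ x < 2 ^ 14, (Nat.rec M (fun i a => cd (tb u i) (swp (Nat.add b i) a) a) n : ℕ).testBit x
      = M.testBit (x ^^^ (u % 2 ^ n) * 2 ^ b) := by
    intro n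
    induction n with
    | zero => intro _ x _; simp [Nat.mod_one]
    | succ n ih =>
      intro hn x hx
      simp only [cd_eq, tb_eq, Nat.add_eq] at ih ⊢
      rw [Nat.mod_pow_succ]
      split_ifs with h
      · rw [swp_bit (by omega) _ hx, ih (by omega) _
          (Nat.xor_lt_two_pow hx (Nat.pow_lt_pow_right (by omega) (by omega)))]
        rw [Nat.testBit_eq_decide_div_mod_eq, decide_eq_true_eq] at h
        rw [h, mul_one, add_mul, ← pow_add, add_comm n b, Nat.xor_assoc, Nat.xor_comm (2 ^ (b + n)),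
          xor_pow_of_false]
        apply Nat.testBit_lt_two_pow
        rw [add_comm, pow_add]
        exact Nat.mul_lt_mul_of_pos_right (Nat.mod_lt _ (by positivity)) (by positivity)
      · rw [ih (by omega) _ hx]
        rw [Nat.testBit_eq_decide_div_mod_eq, decide_eq_true_eq] at h
        rw [show u / 2 ^ n % 2 = 0 by omega]
        simp
  exact key 5 le_rfl x hx

theorem sh_bit (M : ℕ) {x y : ℕ} (hx : x < 2 ^ 14) (hy : y < 1024) :
    (sh M y).testBit x = M.testBit (x ^^^ y) := by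
  unfold sh
  rw [st_eq, sh5_bit le_rfl _ _ hx, sh5_bit (by omega), Nat.xor_assoc, nmod, ndiv]
  · congr 2
    revert y
    decide +kernel
  · apply Nat.xor_lt_two_pow hx
    omega

/-- bit as an element of the two-element field -/
def bt (x i : ℕ) : ZMod 2 := if x.testBit i = true then 1 else 0
def dg (x p : ℕ) : K4 := (bt x p, bt x (p + 1))
def ext (x l : ℕ) : K4 :=
  if l = 5 then dg x 0 + dg x 2 + dg x 4 + dg x 6 + dg x 8 + dg x 10 + dg x 12 else dg x (dp l)
def v1 (a : ℕ) : ℕ := if a = 5 then 0 else 2 ^ dp a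
def v2 (a : ℕ) : ℕ := if a = 5 then 0 else 2 ^ (dp a + 1)
def vk (c : K4) (a : ℕ) : ℕ := (if c.1 = 1 then v1 a else 0) ^^^ (if c.2 = 1 then v2 a else 0)
def kk (a : ℕ) : K4 := if a = 1 then (1, 0) else if a = 2 then (0, 1) else (1, 1)

theorem bt_xor (x y i : ℕ) : bt (x ^^^ y) i = bt x i + bt y i := by
  unfold bt
  rw [Nat.testBit_xor]
  cases x.testBit i <;> cases y.testBit i <;> decide
theorem dg_xor (x y p : ℕ) : dg (x ^^^ y) p = dg x p + dg y p := by
  simp [dg, bt_xor]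
theorem ext_xor (x y l : ℕ) : ext (x ^^^ y) l = ext x l + ext y l := by
  unfold ext
  split_ifs
  · simp only [dg_xor]; abel
  · exact dg_xor _ _ _
theorem ext_zero (l : ℕ) : ext 0 l = 0 := by
  unfold ext
  split_ifs <;> simp [dg, bt]
theorem ext_vk : ∀ c : K4, ∀ a < 8, ∀ l < 8,
    ext (vk c a) l = (if a = l then c else 0) + (if 5 = l then c else 0) := by decide +kernel
theorem vk_lt : ∀ c : K4, ∀ a < 8, vk c a < 2 ^ 14 := by decide +kernel
theorem vk_lt' : ∀ c : K4, ∀ a < 6, vk c a < 2 ^ 10 := by decide +kernel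
theorem dp_le : ∀ a < 8, dp a ≤ 12 := by decide +kernel
theorem ext_vk2 (c : K4) {a b l : ℕ} (ha : a < 8) (hb : b < 8) (hl : l < 8) (x : ℕ) :
    ext (x ^^^ vk c a ^^^ vk c b) l =
      ext x l + ((if a = l then c else 0) + (if b = l then c else 0)) := by
  rw [ext_xor, ext_xor, ext_vk c a ha l hl, ext_vk c b hb l hl]
  generalize (if 5 = l then c else 0) = u
  have := K4_add_self u
  linear_combination this

theorem s1_bit {a : ℕ} (ha : a < 8) (M : ℕ) {x : ℕ} (hx : x < 2 ^ 14) :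
    (s1 a M).testBit x = M.testBit (x ^^^ v1 a) := by
  unfold s1 v1
  simp only [cd_eq, Nat.beq_eq]
  split_ifs
  · simp
  · exact swp_bit (by have := dp_le a ha; omega) _ hx
theorem s2_bit {a : ℕ} (ha : a < 8) (M : ℕ) {x : ℕ} (hx : x < 2 ^ 14) :
    (s2 a M).testBit x = M.testBit (x ^^^ v2 a) := by
  unfold s2 v2
  simp only [cd_eq, Nat.beq_eq]
  split_ifs
  · simp
  · exact swp_bit (by have := dp_le a ha; omega) _ hx
theorem v1_lt : ∀ a < 8, v1 a < 2 ^ 14 := by decide +kernel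
theorem v2_lt : ∀ a < 8, v2 a < 2 ^ 14 := by decide +kernel
theorem vk10 (a : ℕ) : vk (1, 0) a = v1 a := by simp [vk]
theorem vk01 (a : ℕ) : vk (0, 1) a = v2 a := by simp [vk]
theorem vk11 (a : ℕ) : vk (1, 1) a = v1 a ^^^ v2 a := by simp [vk]

theorem addE_bit {a b : ℕ} (ha : a < 8) (hb : b < 8) (M : ℕ) {x : ℕ} (hx : x < 2 ^ 14) :
    (addE a b M).testBit x = true ↔
      ∃ c : K4, c ≠ 0 ∧ M.testBit (x ^^^ vk c a ^^^ vk c b) = true := by
  have l1 := Nat.xor_lt_two_pow hx (v1_lt a ha)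
  have l2 := Nat.xor_lt_two_pow hx (v2_lt a ha)
  have l3 := Nat.xor_lt_two_pow l2 (v2_lt b hb)
  have l4 := Nat.xor_lt_two_pow l3 (v1_lt a ha)
  unfold addE
  simp only [Nat.lor_eq, Nat.testBit_or, Bool.or_eq_true]
  rw [s1_bit ha _ hx, s1_bit hb _ l1, s2_bit ha _ hx, s2_bit hb _ l2, s2_bit ha _ hx,
    s2_bit hb _ l2, s1_bit ha _ l3, s1_bit hb _ l4]
  have e3 : x ^^^ v2 a ^^^ v2 b ^^^ v1 a ^^^ v1 b = x ^^^ vk (1, 1) a ^^^ vk (1, 1) b := by
    rw [vk11, vk11]
    ac_rfl
  rw [e3, ← vk10, ← vk10, ← vk01, ← vk01]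
  constructor
  · rintro ((h | h) | h)
    · exact ⟨_, by decide, h⟩
    · exact ⟨_, by decide, h⟩
    · exact ⟨_, by decide, h⟩
  · rintro ⟨c, hc, h⟩
    have : c = (1, 0) ∨ c = (0, 1) ∨ c = (1, 1) := by clear h; revert c; decide
    rcases this with rfl | rfl | rfl
    · exact Or.inl (Or.inl h)
    · exact Or.inl (Or.inr h)
    · exact Or.inr h

theorem sc_bit (a : ℕ) {l : ℕ} (hl : l < 8) (M : ℕ) {x : ℕ} (hx : x < 2 ^ 14) :
    (sc a l M).testBit x = M.testBit (x ^^^ vk (kk a) l) := by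
  unfold sc kk
  simp only [cd_eq, Nat.beq_eq]
  split_ifs
  · rw [vk10, s1_bit hl _ hx]
  · rw [vk01, s2_bit hl _ hx]
  · rw [vk11, s1_bit hl _ hx, s2_bit hl _ (Nat.xor_lt_two_pow hx (v1_lt l hl)), Nat.xor_assoc]

theorem a1k_bit (x : ℕ) : a1k.testBit x = decide (x < 1024) := by
  unfold a1k
  rw [Nat.sub_eq, Nat.pow_eq, Nat.testBit_two_pow_sub_one]
theorem a256_bit (x : ℕ) : a256.testBit x = decide (x < 256) := Nat.testBit_two_pow_sub_one _ _
theorem a64_bit (x : ℕ) : a64.testBit x = decide (x < 64) := Nat.testBit_two_pow_sub_one _ _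

theorem qk_bt {k x : ℕ} (hk : k ≤ 13) (hx : x < 1024) : bt (qk k) x = bt x k := by
  have : (qk k).testBit x = x.testBit k := by
    unfold qk
    rw [Nat.xor_eq, Nat.land_eq, Nat.testBit_xor, Nat.testBit_and, a1k_bit]
    have := mk_bit hk x
    cases h : x.testBit k <;> cases h' : (mk k).testBit x <;> simp_all
    omega
  unfold bt
  rw [this]

theorem bt_hi {x i : ℕ} (hx : x < 1024) (hi : 10 ≤ i) : bt x i = 0 := by
  unfold bt
  rw [Nat.testBit_lt_two_pow (lt_of_lt_of_le hx (Nat.pow_le_pow_right (n := 2) (by omega) hi))]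
  simp

theorem ext_hi {x l : ℕ} (hx : x < 1024) (hl : 6 ≤ l) : ext x l = 0 := by
  have : 10 ≤ dp l := by
    unfold dp
    simp only [cd_eq, Nat.ble_eq, Nat.mul_eq, Nat.sub_eq]
    split_ifs <;> omega
  unfold ext dg
  rw [if_neg (by omega), bt_hi hx this, bt_hi hx (by omega)]
  rfl

theorem b0_bt {l x : ℕ} (hl : l < 6) (hx : x < 1024) : bt (b0 l) x = (ext x l).1 := by
  unfold b0 ext dp
  simp only [cd_eq, Nat.ble_eq, Nat.mul_eq, Nat.xor_eq]
  by_cases h : l ≤ 4
  · rw [if_pos h, if_neg (by omega), if_pos h, qk_bt (by omega) hx]; rfl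
  · rw [if_neg h, if_pos (by omega)]
    simp only [bt_xor, dg, Prod.fst_add]
    rw [qk_bt (by omega) hx, qk_bt (by omega) hx, qk_bt (by omega) hx, qk_bt (by omega) hx,
      qk_bt (by omega) hx, bt_hi hx (i := 10) le_rfl, bt_hi hx (i := 12) (by omega)]
    ring

theorem b1_bt {l x : ℕ} (hl : l < 6) (hx : x < 1024) : bt (b1 l) x = (ext x l).2 := by
  unfold b1 ext dp
  simp only [cd_eq, Nat.ble_eq, Nat.mul_eq, Nat.xor_eq]
  by_cases h : l ≤ 4
  · rw [if_pos h, if_neg (by omega), if_pos h, qk_bt (by omega) hx]; rfl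
  · rw [if_neg h, if_pos (by omega)]
    simp only [bt_xor, dg, Prod.snd_add]
    rw [qk_bt (by omega) hx, qk_bt (by omega) hx, qk_bt (by omega) hx, qk_bt (by omega) hx,
      qk_bt (by omega) hx, bt_hi hx (i := 10 + 1) (by omega), bt_hi hx (i := 12 + 1) (by omega)]
    ring

theorem nzm_bit {l x : ℕ} (hl : l < 6) (hx : x < 1024) :
    (nzm l).testBit x = true ↔ ext x l ≠ 0 := by
  have h0 := b0_bt hl hx
  have h1 := b1_bt hl hx
  unfold nzm
  rw [Nat.lor_eq, Nat.testBit_or, ne_eq, Prod.ext_iff, ← h0, ← h1]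
  unfold bt
  cases (b0 l).testBit x <;> cases (b1 l).testBit x <;> simp

theorem zm_bit {l x : ℕ} (hl : l < 6) (hx : x < 1024) :
    (zm l).testBit x = true ↔ ext x l = 0 := by
  have := nzm_bit hl hx
  unfold zm
  rw [Nat.xor_eq, Nat.testBit_xor, a1k_bit]
  cases h : (nzm l).testBit x <;> simp_all

theorem km_bit (a : ℕ) {l x : ℕ} (hl : l < 6) (hx : x < 1024) :
    (km a l).testBit x = true ↔ ext x l ≠ 0 ∧ ext x l ≠ kk a := by
  have h0 := b0_bt hl hx
  have h1 := b1_bt hl hx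
  unfold km kk
  simp only [cd_eq, Nat.beq_eq, ne_eq, Prod.ext_iff, ← h0, ← h1, Nat.xor_eq]
  unfold bt
  split_ifs <;> simp_all [Nat.testBit_xor]

theorem pm_bit {a u : ℕ} (ha : a < 8) (hu : u < 256) : (pm a).testBit u = u.testBit a := by
  unfold pm
  rw [Nat.xor_eq, Nat.land_eq, Nat.testBit_xor, Nat.testBit_and, a256_bit]
  have := mk_bit (k := a) (by omega) u
  cases h : u.testBit a <;> cases h' : (mk a).testBit u <;> simp_all
  omega
theorem dif_bit {a b u : ℕ} (ha : a < 8) (hb : b < 8) (hu : u < 256) :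
    (dif a b).testBit u = true ↔ ¬ (u.testBit a = true ↔ u.testBit b = true) := by
  unfold dif
  rw [Nat.xor_eq, Nat.testBit_xor, pm_bit ha hu, pm_bit hb hu]
  cases u.testBit a <;> cases u.testBit b <;> simp
theorem sam_bit {a b u : ℕ} (ha : a < 8) (hb : b < 8) (hu : u < 256) :
    (sam a b).testBit u = true ↔ (u.testBit a = true ↔ u.testBit b = true) := by
  have := dif_bit ha hb hu
  unfold sam
  rw [Nat.xor_eq, Nat.testBit_xor, a256_bit]
  cases h : (dif a b).testBit u <;> simp_all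

end Pool.Agent.MP_e6539c_co.TW

end MrgPart1

-- ======== part 2: formerly Pool.Agent.MP_e6539c_co.TW.Struct
section MrgPart2

/-!
Structure of a minimal counterexample: simple, minimum degree three, small cuts are trivial.
-/

set_option autoImplicit false

namespace Pool.Agent.MP_e6539c_co.TW

open Finset MG

set_option synthInstance.maxSize 2000 in
set_option maxRecDepth 100000 in
theorem sigma_base (a b a' b' : K4) (h1 : a ≠ 0) (h2 : b ≠ 0) (h3 : a ≠ b) (h4 : a' ≠ 0)
    (h5 : b' ≠ 0) (h6 : a' ≠ b') :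
    ∃ σ : K4 →+ K4, (∀ x, x ≠ 0 → σ x ≠ 0) ∧ σ a = a' ∧ σ b = b' := by
  let s : K4 → K4 := fun x => if x = a then a' else if x = b then b' else if x = 0 then 0 else a' + b'
  have hs : ∀ x y, s (x + y) = s x + s y := by
    simp only [s]
    clear s
    revert a b a' b'
    decide +kernel
  refine ⟨AddMonoidHom.mk' s hs, ?_, ?_, ?_⟩
  · simp only [AddMonoidHom.mk'_apply, s]
    clear hs s
    revert a b a' b'
    decide +kernel
  · simp [s]
  · simp [s, h3.symm]

theorem K4_other : ∀ a : K4, a ≠ 0 → ∃ b, b ≠ 0 ∧ a ≠ b := by decide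

theorem K4_avoid : ∀ x : K4, ∃ d : K4, d ≠ 0 ∧ x + d ≠ 0 := by decide

open Classical

set_option linter.unusedSectionVars false

variable {V E : Type} [Fintype V] {G : MG V E}

theorem Min.contract (hG : Min G) {B : Finset E} (hB : B ⊆ G.A) (hne : B.Nonempty) :
    ∃ ψ, NZ (G.A \ B) ψ ∧ ∀ Y : Set V, (∀ e ∈ B, G.l e ∈ Y ↔ G.r e ∈ Y) →
      ∑ e ∈ G.cut (G.A \ B) Y, ψ e = 0 := by
  let s : Setoid V := ⟨G.Conn B Set.univ, ⟨Conn.refl, Conn.symm, Conn.trans⟩⟩
  let ρ : V → V := fun v => (Quotient.mk s v).out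
  have hρ1 : ∀ v, G.Conn B Set.univ (ρ v) v := fun v => Quotient.exact (Quotient.out_eq (Quotient.mk s v))
  have hρ2 : ∀ u v, G.Conn B Set.univ u v → ρ u = ρ v := fun u v h => by
    have : Quotient.mk s u = Quotient.mk s v := Quotient.sound h
    simp only [ρ, this]
  have closed : ∀ Y : Set V, (∀ e ∈ B, G.l e ∈ Y ↔ G.r e ∈ Y) → ∀ u v, G.Conn B Set.univ u v →
      (u ∈ Y ↔ v ∈ Y) := by
    intro Y hY u v h
    by_contra hc
    obtain ⟨e, he, -⟩ := h.cross hc
    rw [(ends_lr e).mem_cut_iff] at he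
    exact he.2 (hY e he.1)
  have hfib : G.Fib ρ := by
    intro u v huv
    have h1 : G.Conn B Set.univ u v := (hρ1 u).symm.trans (huv ▸ hρ1 v)
    exact h1.restrict.mono hB (fun w hw => (hρ2 _ _ hw.2).symm)
  have hbr : (G.minor (G.A \ B) ρ).Bridgeless := by
    intro Y
    change (G.cut (G.A \ B) (ρ ⁻¹' Y)).card ≠ 1
    have h0 : G.cut B (ρ ⁻¹' Y) = ∅ := by
      apply eq_empty_of_forall_notMem
      intro e he
      rw [(ends_lr e).mem_cut_iff] at he
      apply he.2
      simp only [Set.mem_preimage]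
      rw [hρ2 _ _ (Conn.single trivial trivial ⟨e, he.1, ends_lr e⟩)]
    have := hG.br (ρ ⁻¹' Y)
    rw [card_cut_split hB, h0] at this
    simpa using this
  obtain ⟨ψ, h1, h2⟩ := hG.mn _ ρ sdiff_subset (by
    rw [card_sdiff_of_subset hB]
    have := hne.card_pos
    have := card_le_card hB
    omega) hfib hbr
  refine ⟨ψ, h1, fun Y hY => ?_⟩
  have h3 := sum_bd (G := G.minor (G.A \ B) ρ) (G.A \ B) ψ Y
  rw [cut_minor] at h3
  have h4 : ρ ⁻¹' Y = Y := by
    ext v
    exact closed Y hY _ _ (hρ1 v)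
  rw [h4] at h3
  rw [← h3]
  exact sum_eq_zero fun v _ => h2 v

theorem Min.noloop (hG : Min G) {e : E} (he : e ∈ G.A) {a b : V} (hen : G.Ends e a b) : a ≠ b := by
  rintro rfl
  have hfib : G.Fib id := by
    intro u v huv
    simp only [id] at huv
    subst huv
    exact Conn.refl _
  obtain ⟨ψ, h1, h2⟩ := hG.mn (G.A.erase e) id (erase_subset _ _) (card_erase_lt_of_mem he) hfib (by
    intro Y
    change (G.cut (G.A.erase e) Y).card ≠ 1
    have : G.cut (G.A.erase e) Y = G.cut G.A Y := by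
      ext f
      rw [(ends_lr f).mem_cut_iff, (ends_lr f).mem_cut_iff, mem_erase]
      constructor
      · exact fun h => ⟨h.1.2, h.2⟩
      · refine fun h => ⟨⟨?_, h.1⟩, h.2⟩
        rintro rfl
        apply h.2
        rcases hen with ⟨h1, h2⟩ | ⟨h1, h2⟩ <;> rw [h1, h2]
    rw [this]
    exact hG.br Y)
  apply hG.nf
  refine ⟨Function.update ψ e (1, 0), ?_, ?_⟩
  · intro f hf
    by_cases hfe : f = e
    · subst hfe; simp
    · rw [Function.update_of_ne hfe]
      exact h1 f (mem_erase.2 ⟨hfe, hf⟩)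
  · intro v
    have : G.A = insert e (G.A.erase e) := (insert_erase he).symm
    rw [this, bd_insert (notMem_erase _ _) hen, K4_add_self, zero_add]
    rw [← h2 v]
    exact bd_congr fun f hf _ => Function.update_of_ne (mem_erase.1 hf).1 _ _

theorem Min.adj_ne (hG : Min G) {a b : V} (h : G.Adj G.A a b) : a ≠ b := by
  obtain ⟨e, he, hen⟩ := h
  exact hG.noloop he hen

theorem Min.contract_one (hG : Min G) {e : E} (he : e ∈ G.A) {a b : V} (hen : G.Ends e a b) :
    ∃ ψ, NZ (G.A.erase e) ψ ∧ (∀ v, v ≠ a → v ≠ b → G.bd (G.A.erase e) ψ v = 0) ∧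
      G.bd (G.A.erase e) ψ a = G.bd (G.A.erase e) ψ b := by
  obtain ⟨ψ, h1, h2⟩ := hG.contract (B := {e}) (by simpa using he) (singleton_nonempty e)
  rw [sdiff_singleton_eq_erase] at h1 h2
  refine ⟨ψ, h1, ?_, ?_⟩
  · intro v hva hvb
    rw [bd_eq_cut]
    apply h2
    intro f hf
    rw [mem_singleton.1 hf]
    rcases hen with ⟨h1, h2⟩ | ⟨h1, h2⟩ <;> simp [h1, h2, hva.symm, hvb.symm]
  · have hab := hG.noloop he hen
    have h3 := h2 {a, b} (by
      intro f hf
      rw [mem_singleton.1 hf]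
      rcases hen with ⟨h1, h2⟩ | ⟨h1, h2⟩ <;> simp [h1, h2])
    rw [← sum_bd' _ _ {a, b} _ (by simp), sum_pair hab] at h3
    exact K4_eq_of_add _ _ h3

theorem Min.extend (hG : Min G) {e : E} (he : e ∈ G.A) {a b : V} (hen : G.Ends e a b)
    {ψ : E → K4} (h1 : NZ (G.A.erase e) ψ)
    (h2 : ∀ v, v ≠ a → v ≠ b → G.bd (G.A.erase e) ψ v = 0)
    (h3 : G.bd (G.A.erase e) ψ a = G.bd (G.A.erase e) ψ b) : G.bd (G.A.erase e) ψ a = 0 := by
  by_contra hc
  have hab := hG.noloop he hen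
  apply hG.nf
  refine ⟨Function.update ψ e (G.bd (G.A.erase e) ψ a), ?_, ?_⟩
  · intro f hf
    by_cases hfe : f = e
    · subst hfe; simpa using hc
    · rw [Function.update_of_ne hfe]
      exact h1 f (mem_erase.2 ⟨hfe, hf⟩)
  · intro v
    have := bd_insert (notMem_erase e G.A) hen (Function.update ψ e (G.bd (G.A.erase e) ψ a)) v
    rw [insert_erase he] at this
    rw [this]
    rw [show G.bd (G.A.erase e) (Function.update ψ e (G.bd (G.A.erase e) ψ a)) v =
      G.bd (G.A.erase e) ψ v from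
      bd_congr fun f hf _ => Function.update_of_ne (mem_erase.1 hf).1 _ _]
    simp only [Function.update_self]
    by_cases hva : a = v
    · subst hva
      simp [hab.symm, K4_add_self]
    · by_cases hvb : b = v
      · subst hvb
        simp [hab, h3, K4_add_self]
      · simp [hva, hvb, h2 v (Ne.symm hva) (Ne.symm hvb)]

theorem Min.simple (hG : Min G) {e f : E} (he : e ∈ G.A) (hf : f ∈ G.A) {a b : V}
    (hen : G.Ends e a b) (hfn : G.Ends f a b) : e = f := by
  by_contra hef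
  have hab := hG.noloop he hen
  obtain ⟨ψ, h1, h2, h3⟩ := hG.contract_one he hen
  have h4 := hG.extend he hen h1 h2 h3
  have hf' : f ∈ G.A.erase e := mem_erase.2 ⟨Ne.symm hef, hf⟩
  obtain ⟨d, hd0, hd⟩ := K4_avoid (ψ f)
  have key : ∀ v, G.bd (G.A.erase e) (Function.update ψ f (ψ f + d)) v =
      G.bd (G.A.erase e) ψ v + ((if a = v then d else 0) + (if b = v then d else 0)) := by
    intro v
    rw [← insert_erase hf', bd_insert (notMem_erase _ _) hfn, bd_insert (notMem_erase _ _) hfn]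
    rw [show G.bd ((G.A.erase e).erase f) (Function.update ψ f (ψ f + d)) v =
      G.bd ((G.A.erase e).erase f) ψ v from
      bd_congr fun g hg _ => Function.update_of_ne (mem_erase.1 hg).1 _ _]
    simp only [Function.update_self]
    split_ifs <;> abel
  have h5 := hG.extend he hen (ψ := Function.update ψ f (ψ f + d)) (by
      intro g hg
      by_cases hgf : g = f
      · subst hgf; simpa using hd
      · rw [Function.update_of_ne hgf]; exact h1 g hg)
    (by
      intro v hva hvb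
      rw [key, h2 v hva hvb]
      simp [hva.symm, hvb.symm])
    (by rw [key, key, h3]; simp [hab, hab.symm])
  rw [key, h4] at h5
  simp [hab.symm, hd0] at h5

/-- edges at a vertex -/
noncomputable def MG.star (G : MG V E) (v : V) : Finset E := G.A.filter (fun e => G.Inc e v)

omit [Fintype V] in
theorem mem_star {e : E} {v : V} : e ∈ G.star v ↔ e ∈ G.A ∧ G.Inc e v := mem_filter

theorem Min.cut_single (hG : Min G) (v : V) : G.cut G.A {v} = G.star v := by
  ext e
  rw [(ends_lr e).mem_cut_iff, mem_star]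
  refine and_congr_right fun he => ?_
  have := hG.noloop he (ends_lr e)
  simp only [Set.mem_singleton_iff, Inc]
  constructor
  · tauto
  · rintro (h | h) h' <;> apply this
    · rw [h, h'.1 h]
    · rw [h, h'.2 h]

/-- non-isolated -/
def MG.NI (G : MG V E) (v : V) : Prop := ∃ e ∈ G.A, G.Inc e v

omit [Fintype V] in
theorem MG.Adj.ni {u v : V} (h : G.Adj G.A u v) : G.NI u := by
  obtain ⟨e, he, hen⟩ := h
  exact ⟨e, he, hen.inc_left⟩

theorem Min.deg (hG : Min G) {v : V} (hv : G.NI v) : 3 ≤ (G.star v).card := by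
  obtain ⟨e, he, hi⟩ := hv
  have h1 : (G.star v).card ≠ 1 := by rw [← hG.cut_single]; exact hG.br _
  have h0 : 0 < (G.star v).card := card_pos.2 ⟨e, mem_star.2 ⟨he, hi⟩⟩
  by_contra hc
  have h2 : (G.star v).card = 2 := by omega
  obtain ⟨w, hen⟩ := hi.exists_ends
  obtain ⟨ψ, h1, h3, h4⟩ := hG.contract_one he hen
  have h5 := hG.extend he hen h1 h3 h4
  have hes : e ∈ G.star v := mem_star.2 ⟨he, hi⟩
  obtain ⟨f, hf⟩ : ∃ f, (G.star v).erase e = {f} := card_eq_one.1 (by rw [card_erase_of_mem hes]; omega)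
  have hf1 : f ∈ (G.star v).erase e := by rw [hf]; exact mem_singleton_self f
  rw [bd_eq_cut] at h5
  have : G.cut (G.A.erase e) {v} = {f} := by
    rw [← hf, ← hG.cut_single]
    ext g
    simp only [cut, mem_filter, mem_erase]
    tauto
  rw [this, sum_singleton] at h5
  rw [mem_erase, mem_star] at hf1
  exact h1 f (mem_erase.2 ⟨hf1.1, hf1.2.1⟩) h5

theorem exists_sigma {α : Type} (C : Finset α) (hC : C.card ≤ 3) (f g : α → K4)
    (hf : ∀ x ∈ C, f x ≠ 0) (hg : ∀ x ∈ C, g x ≠ 0) (hfs : ∑ x ∈ C, f x = 0)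
    (hgs : ∑ x ∈ C, g x = 0) :
    ∃ σ : K4 →+ K4, (∀ x, x ≠ 0 → σ x ≠ 0) ∧ ∀ x ∈ C, σ (f x) = g x := by
  have base := sigma_base
  have other := K4_other
  rcases (by omega : C.card = 0 ∨ C.card = 1 ∨ C.card = 2 ∨ C.card = 3) with h | h | h | h
  · rw [card_eq_zero] at h
    subst h
    exact ⟨AddMonoidHom.id _, fun x hx => hx, by simp⟩
  · obtain ⟨x, rfl⟩ := card_eq_one.1 h
    exact absurd (by simpa using hfs) (hf x (by simp))
  · obtain ⟨x, y, hxy, rfl⟩ := card_eq_two.1 h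
    rw [sum_pair hxy] at hfs hgs
    obtain ⟨b, hb, hb'⟩ := other _ (hf x (by simp))
    obtain ⟨c, hc, hc'⟩ := other _ (hg x (by simp))
    obtain ⟨σ, h1, h2, -⟩ := base _ _ _ _ (hf x (by simp)) hb hb' (hg x (by simp)) hc hc'
    refine ⟨σ, h1, ?_⟩
    intro z hz
    simp only [mem_insert, mem_singleton] at hz
    rcases hz with rfl | rfl
    · exact h2
    · rw [← K4_eq_of_add _ _ hfs, ← K4_eq_of_add _ _ hgs]; exact h2
  · obtain ⟨x, y, z, hxy, hxz, hyz, rfl⟩ := card_eq_three.1 h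
    rw [sum_insert (by simp [hxy, hxz]), sum_pair hyz, ← add_assoc] at hfs hgs
    have e1 := K4_eq_of_add _ _ hfs
    have e2 := K4_eq_of_add _ _ hgs
    obtain ⟨σ, h1, h2, h3⟩ := base _ _ _ _ (hf x (by simp)) (hf y (by simp))
      (fun h => hf z (by simp) (by rw [← e1, h, K4_add_self]))
      (hg x (by simp)) (hg y (by simp))
      (fun h => hg z (by simp) (by rw [← e2, h, K4_add_self]))
    refine ⟨σ, h1, ?_⟩
    intro w hw
    simp only [mem_insert, mem_singleton] at hw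
    rcases hw with rfl | rfl | rfl
    · exact h2
    · exact h3
    · rw [← e1, ← e2, map_add, h2, h3]

theorem Min.small_cut (hG : Min G) (Y : Set V) (hY : (G.cut G.A Y).card ≤ 3) :
    (∀ e ∈ G.A, ¬ (G.l e ∈ Y ∧ G.r e ∈ Y)) ∨ (∀ e ∈ G.A, ¬ (G.l e ∉ Y ∧ G.r e ∉ Y)) := by
  by_contra hc
  push Not at hc
  obtain ⟨⟨e1, he1, h1⟩, ⟨e2, he2, h2⟩⟩ := hc
  let B1 := G.A.filter (fun e => G.l e ∈ Y ∧ G.r e ∈ Y)
  let B2 := G.A.filter (fun e => G.l e ∉ Y ∧ G.r e ∉ Y)
  obtain ⟨ψ1, n1, c1⟩ := hG.contract (B := B1) (filter_subset _ _) ⟨e1, mem_filter.2 ⟨he1, h1⟩⟩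
  obtain ⟨ψ2, n2, c2⟩ := hG.contract (B := B2) (filter_subset _ _) ⟨e2, mem_filter.2 ⟨he2, h2⟩⟩
  have hc1 : G.cut (G.A \ B1) Y = G.cut G.A Y := by
    ext e
    simp only [cut, mem_filter, mem_sdiff, B1]
    tauto
  have hc2 : G.cut (G.A \ B2) Y = G.cut G.A Y := by
    ext e
    simp only [cut, mem_filter, mem_sdiff, B2]
    tauto
  obtain ⟨σ, hσ1, hσ2⟩ := exists_sigma (G.cut G.A Y) hY ψ1 ψ2
    (fun e he => n1 e (cut_subset _ _ (hc1 ▸ he))) (fun e he => n2 e (cut_subset _ _ (hc2 ▸ he)))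
    (by rw [← hc1]; apply c1; intro e he; have := (mem_filter.1 he).2; tauto)
    (by rw [← hc2]; apply c2; intro e he; have := (mem_filter.1 he).2; tauto)
  apply hG.nf
  refine ⟨fun e => if e ∈ B1 then ψ2 e else σ (ψ1 e), ?_, ?_⟩
  · intro e he
    by_cases h : e ∈ B1
    · simp only [h, if_true]
      apply n2
      have := (mem_filter.1 h).2
      simp only [mem_sdiff, mem_filter, B2]
      tauto
    · simp only [h, if_false]
      exact hσ1 _ (n1 e (mem_sdiff.2 ⟨he, h⟩))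
  · intro v
    by_cases hv : v ∈ Y
    · have e1 : G.bd G.A (fun e => if e ∈ B1 then ψ2 e else σ (ψ1 e)) v = G.bd G.A ψ2 v := by
        apply bd_congr
        intro e he hi
        by_cases h : e ∈ B1
        · simp [h]
        · simp only [h, if_false]
          apply hσ2
          rw [(ends_lr e).mem_cut_iff]
          simp only [mem_filter, B1] at h
          rcases hi with hi | hi <;> subst hi <;> tauto
      rw [e1, bd_sub (B' := G.A \ B2) sdiff_subset, bd_eq_cut]
      · apply c2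
        intro e he
        have := (mem_filter.1 he).2
        simp only [Set.mem_singleton_iff]
        constructor <;> intro h <;> subst h <;> tauto
      · intro e he hi
        simp only [mem_sdiff, mem_filter, B2]
        rcases hi with hi | hi <;> subst hi <;> tauto
    · have e1 : G.bd G.A (fun e => if e ∈ B1 then ψ2 e else σ (ψ1 e)) v =
          G.bd G.A (fun e => σ (ψ1 e)) v := by
        apply bd_congr
        intro e he hi
        have : e ∉ B1 := by
          simp only [mem_filter, B1]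
          rcases hi with hi | hi <;> subst hi <;> tauto
        simp [this]
      rw [e1, bd_map, bd_sub (B' := G.A \ B1) sdiff_subset, bd_eq_cut, c1, map_zero]
      · intro e he
        have := (mem_filter.1 he).2
        simp only [Set.mem_singleton_iff]
        constructor <;> intro h <;> subst h <;> tauto
      · intro e he hi
        simp only [mem_sdiff, mem_filter, B1]
        rcases hi with hi | hi <;> subst hi <;> tauto

omit [Fintype V] in
theorem star_sub_cut {Y : Set V} (h : ∀ e ∈ G.A, ¬ (G.l e ∈ Y ∧ G.r e ∈ Y)) {u : V} (hu : u ∈ Y) :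
    G.star u ⊆ G.cut G.A Y := by
  intro e he
  rw [mem_star] at he
  rw [(ends_lr e).mem_cut_iff]
  have := h e he.1
  rcases he.2 with hi | hi <;> subst hi <;> tauto

theorem Min.cut_ge_three (hG : Min G) {Y : Set V} {u w : V} (hu : u ∈ Y) (hw : w ∉ Y)
    (hu' : G.NI u) (hw' : G.NI w) : 3 ≤ (G.cut G.A Y).card := by
  by_contra hc
  rcases hG.small_cut Y (by omega) with h | h
  · have := card_le_card (star_sub_cut h hu)
    have := hG.deg hu'
    omega
  · have := card_le_card (star_sub_cut (Y := Yᶜ) h hw)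
    rw [cut_compl] at this
    have := hG.deg hw'
    omega

theorem Min.two_stars (hG : Min G) {Y : Set V} (h : ∀ e ∈ G.A, ¬ (G.l e ∈ Y ∧ G.r e ∈ Y))
    {u u2 : V} (hu : u ∈ Y) (hu2 : u2 ∈ Y) (hne : u ≠ u2) (h1 : G.NI u) (h2 : G.NI u2) :
    6 ≤ (G.cut G.A Y).card := by
  have hd : Disjoint (G.star u) (G.star u2) := by
    rw [disjoint_left]
    intro e he he2
    rw [mem_star] at he he2
    apply h e he.1
    rcases he.2 with a | a <;> rcases he2.2 with b | b
    · exact absurd (a.symm.trans b) hne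
    · rw [a, b]; exact ⟨hu, hu2⟩
    · rw [a, b]; exact ⟨hu2, hu⟩
    · exact absurd (a.symm.trans b) hne
  have := card_le_card (union_subset (star_sub_cut h hu) (star_sub_cut h hu2))
  rw [card_union_of_disjoint hd] at this
  have := hG.deg h1
  have := hG.deg h2
  omega

theorem Min.cut_ge_four (hG : Min G) {Y : Set V} {u u2 w w2 : V} (hu : u ∈ Y) (hu2 : u2 ∈ Y)
    (hw : w ∉ Y) (hw2 : w2 ∉ Y) (h1 : u ≠ u2) (h2 : w ≠ w2)
    (hu' : G.NI u) (hu2' : G.NI u2) (hw' : G.NI w) (hw2' : G.NI w2) :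
    4 ≤ (G.cut G.A Y).card := by
  by_contra hc
  rcases hG.small_cut Y (by omega) with h | h
  · have := hG.two_stars h hu hu2 h1 hu' hu2'
    omega
  · have := hG.two_stars (Y := Yᶜ) h hw hw2 h2 hw' hw2'
    rw [cut_compl] at this
    omega

end Pool.Agent.MP_e6539c_co.TW

end MrgPart2

-- ======== part 3: formerly Pool.Agent.MP_e6539c_co.TW.Quasi
section MrgPart3

/-!
Vertex cuts of order at most three in a minimal counterexample, and the bag lemma.
-/

set_option autoImplicit false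

namespace Pool.Agent.MP_e6539c_co.TW

open Finset MG
open Classical

set_option linter.unusedSectionVars false

variable {V E : Type} [Fintype V] {G : MG V E}

theorem Min.side (hG : Min G) {B : Finset E} (hB : B ⊆ G.A) {N : Finset V} {D D' : Set V}
    (hD' : G.CSet (G.A \ B) D') (hD'ne : D'.Nonempty)
    (hD'B : ∀ e ∈ B, ∀ v, G.Inc e v → v ∉ D')
    (hND' : ∀ n ∈ N, n ∉ D' ∧ ∃ u ∈ D', G.Adj (G.A \ B) n u)
    (hD : G.CSet B D) (hND : ∀ n ∈ N, ∃ u ∈ D, G.Adj B n u)
    (hint : ∀ v, (∃ e ∈ B, G.Inc e v) → (∃ e ∈ G.A \ B, G.Inc e v) → v ∈ N)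
    (hcard : N.card < (G.A \ B).card) :
    ∃ ψ, NZ B ψ ∧ (∀ v, v ∉ N → G.bd B ψ v = 0) ∧ (2 ≤ N.card → ∀ n ∈ N, G.bd B ψ n ≠ 0) := by
  obtain ⟨d0, hd0⟩ := hD'ne
  obtain ⟨e0, he0⟩ : (G.A \ B).Nonempty := card_pos.1 (by omega)
  have hch : ∀ n, ∃ e, n ∈ N → e ∈ G.A \ B ∧ ∃ u ∈ D', G.Ends e n u := by
    intro n
    by_cases hn : n ∈ N
    · obtain ⟨u, hu, e, he, hen⟩ := (hND' n hn).2
      exact ⟨e, fun _ => ⟨he, u, hu, hen⟩⟩
    · exact ⟨e0, fun h => absurd h hn⟩
  choose s hs using hch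
  have sinj : ∀ n ∈ N, ∀ n' ∈ N, G.Inc (s n) n' → n = n' := by
    intro n hn n' hn' h
    obtain ⟨-, u, hu, hen⟩ := hs n hn
    rcases (hen.inc_iff n').1 h with h | h
    · exact h.symm
    · exact absurd (h ▸ hu) (hND' n' hn').1
  let S : Finset E := if 2 ≤ N.card then N.image s else ∅
  have hS : ∀ e ∈ S, 2 ≤ N.card ∧ ∃ n ∈ N, s n = e := by
    intro e he
    by_cases h : 2 ≤ N.card
    · simp only [S, h, if_true, mem_image] at he
      exact ⟨h, he⟩
    · simp [S, h] at he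
  have hS' : 2 ≤ N.card → ∀ n ∈ N, s n ∈ S := by
    intro h n hn
    simp only [S, h, if_true]
    exact mem_image_of_mem _ hn
  have hSB : S ⊆ G.A \ B := by
    intro e he
    obtain ⟨-, n, hn, rfl⟩ := hS e he
    exact (hs n hn).1
  have hdisj : Disjoint B S := Disjoint.mono_right hSB disjoint_sdiff
  have hScard : S.card ≤ N.card := by
    by_cases h : 2 ≤ N.card
    · simp only [S, h, if_true]; exact card_image_le
    · simp [S, h]
  let ρ : V → V := fun v => if v ∈ D' then d0 else v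
  have hfib : G.Fib ρ := by
    intro u v huv
    by_cases hu : u ∈ D' <;> by_cases hv : v ∈ D'
    · refine (hD' u hu v hv).mono sdiff_subset ?_
      intro w hw
      simp [ρ, hw, hu]
    · simp only [ρ, hu, hv, if_true, if_false] at huv
      exact absurd (huv ▸ hd0) hv
    · simp only [ρ, hu, hv, if_true, if_false] at huv
      exact absurd (huv ▸ hd0) hu
    · simp only [ρ, hu, hv, if_false] at huv
      subst huv
      exact Conn.refl _
  have ka : ∀ Y : Set V, (∀ n ∈ N, n ∉ Y) → (G.cut B Y).card ≠ 1 := by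
    intro Y hY
    have : G.cut G.A {v | v ∈ Y ∧ ∃ e ∈ B, G.Inc e v} = G.cut B Y := by
      ext e
      rw [(ends_lr e).mem_cut_iff, (ends_lr e).mem_cut_iff]
      simp only [Set.mem_ofPred_eq]
      constructor
      · rintro ⟨he, h⟩
        by_cases heB : e ∈ B
        · refine ⟨heB, fun h' => h ?_⟩
          constructor
          · exact fun h'' => ⟨h'.1 h''.1, e, heB, Or.inr rfl⟩
          · exact fun h'' => ⟨h'.2 h''.1, e, heB, Or.inl rfl⟩
        · exfalso
          apply h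
          constructor
          · intro h'
            exact absurd h'.1 (hY _ (hint _ h'.2 ⟨e, mem_sdiff.2 ⟨he, heB⟩, Or.inl rfl⟩))
          · intro h'
            exact absurd h'.1 (hY _ (hint _ h'.2 ⟨e, mem_sdiff.2 ⟨he, heB⟩, Or.inr rfl⟩))
      · rintro ⟨he, h⟩
        refine ⟨hB he, fun h' => h ?_⟩
        constructor
        · exact fun h'' => (h'.1 ⟨h'', e, he, Or.inl rfl⟩).1
        · exact fun h'' => (h'.2 ⟨h'', e, he, Or.inr rfl⟩).1
    rw [← this]
    exact hG.br _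
  have key : ∀ Y : Set V, (∀ u ∈ D', u ∉ Y) → (G.cut (B ∪ S) Y).card ≠ 1 := by
    intro Y hY h1
    have hsc : ∀ n ∈ N, s n ∈ S → (s n ∈ G.cut (B ∪ S) Y ↔ n ∈ Y) := by
      intro n hn hsn
      obtain ⟨-, u, hu, hen⟩ := hs n hn
      rw [hen.mem_cut_iff]
      have := hY u hu
      have : s n ∈ B ∪ S := mem_union_right _ hsn
      tauto
    by_cases hex : ∃ n ∈ N, n ∈ Y
    · obtain ⟨n, hn, hnY⟩ := hex
      by_cases h2 : 2 ≤ N.card
      · obtain ⟨f, hf⟩ := card_eq_one.1 h1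
        have e1 : s n = f := by
          rw [← mem_singleton, ← hf]
          exact (hsc n hn (hS' h2 n hn)).2 hnY
        obtain ⟨n', hn', hne⟩ := exists_mem_ne (by omega : 1 < N.card) n
        have hn'Y : n' ∉ Y := by
          intro h
          have e2 : s n' = f := by
            rw [← mem_singleton, ← hf]
            exact (hsc n' hn' (hS' h2 n' hn')).2 h
          obtain ⟨-, u, hu, hen⟩ := hs n hn
          exact hne (sinj n' hn' n hn (by rw [e2, ← e1]; exact hen.inc_left))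
        obtain ⟨u, hu, ha⟩ := hND n hn
        obtain ⟨u', hu', ha'⟩ := hND n' hn'
        have hc : G.Conn B Set.univ n n' :=
          (Conn.single (Set.mem_univ _) (Set.mem_univ _) ha).trans (((hD u hu u' hu').mono subset_rfl
            (Set.subset_univ _)).trans (Conn.single (Set.mem_univ _) (Set.mem_univ _) ha'.symm))
        obtain ⟨e, he, -⟩ := hc.cross (Y := Y) (by tauto)
        have e3 : e = f := by
          rw [← mem_singleton, ← hf]
          exact cut_mono subset_union_left _ he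
        have := (mem_sdiff.1 (hs n hn).1).2
        rw [e1, ← e3] at this
        exact this (cut_subset _ _ he)
      · have hSe : S = ∅ := by simp [S, h2]
        rw [hSe, union_empty, ← cut_compl] at h1
        refine ka Yᶜ ?_ h1
        intro n' hn'
        have : n' = n := card_le_one.1 (by omega) _ hn' _ hn
        simpa [this] using hnY
    · push Not at hex
      refine ka Y hex ?_
      rw [← h1]
      congr 1
      ext e
      constructor
      · exact fun h => cut_mono subset_union_left _ h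
      · intro h
        rcases mem_union.1 (cut_subset _ _ h) with h' | h'
        · rw [(ends_lr e).mem_cut_iff] at h ⊢
          exact ⟨h', h.2⟩
        · obtain ⟨-, n, hn, rfl⟩ := hS e h'
          exact absurd ((hsc n hn h').1 h) (hex n hn)
  obtain ⟨ψ, h1, h2⟩ := hG.mn (B ∪ S) ρ (union_subset hB (hSB.trans sdiff_subset)) (by
      rw [card_union_of_disjoint hdisj]
      rw [card_sdiff_of_subset hB] at hcard
      have := card_le_card hB
      omega) hfib (by
      intro Y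
      change (G.cut (B ∪ S) (ρ ⁻¹' Y)).card ≠ 1
      by_cases h : d0 ∈ Y
      · rw [← cut_compl]
        apply key
        intro u hu
        simp [ρ, hu, h]
      · apply key
        intro u hu
        simp [ρ, hu, h])
  have h3 : ∀ v, v ∉ D' → G.bd B ψ v + G.bd S ψ v = 0 := by
    intro v hv
    have := h2 v
    change (G.minor (B ∪ S) ρ).bd (B ∪ S) ψ v = 0 at this
    rw [bd_minor] at this
    have e1 : univ.filter (fun w => ρ w = v) = {v} := by
      ext w
      simp only [mem_filter, mem_univ, true_and, mem_singleton, ρ]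
      split_ifs with h
      · constructor
        · intro h'; exact absurd (h' ▸ hd0) hv
        · intro h'; exact absurd (h' ▸ h) hv
      · rfl
    rw [← bd_union hdisj, ← this]
    convert (sum_singleton (fun w => G.bd (B ∪ S) ψ w) v).symm
  refine ⟨ψ, fun e he => h1 e (mem_union_left _ he), ?_, ?_⟩
  · intro v hv
    by_cases hvD : v ∈ D'
    · exact bd_eq_zero fun e he hi => hD'B e he v hi hvD
    · have := h3 v hvD
      rw [bd_eq_zero (B := S), add_zero] at this
      · exact this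
      · intro e he hi
        obtain ⟨-, n, hn, rfl⟩ := hS e he
        obtain ⟨-, u, hu, hen⟩ := hs n hn
        rcases (hen.inc_iff v).1 hi with h | h
        · exact hv (h ▸ hn)
        · exact hvD (h ▸ hu)
  · intro h2' n hn
    have := h3 n (hND' n hn).1
    have e1 : G.bd S ψ n = ψ (s n) := by
      rw [bd_eq_cut]
      have : G.cut S {n} = {s n} := by
        ext e
        rw [mem_singleton]
        constructor
        · intro he
          obtain ⟨-, n', hn', rfl⟩ := hS e (cut_subset _ _ he)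
          rw [(ends_lr _).mem_cut_iff] at he
          have : G.Inc (s n') n := by
            have := he.2
            simp only [Set.mem_singleton_iff] at this
            unfold Inc
            tauto
          rw [sinj n' hn' n hn this]
        · rintro rfl
          obtain ⟨-, u, hu, hen⟩ := hs n hn
          rw [hen.mem_cut_iff]
          refine ⟨hS' h2' n hn, ?_⟩
          simp only [Set.mem_singleton_iff, true_iff]
          rintro rfl
          exact (hND' _ hn).1 hu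
      rw [this, sum_singleton]
    rw [e1] at this
    rw [K4_eq_of_add _ _ this]
    exact h1 _ (mem_union_right _ (hS' h2' n hn))

/-- neighbourhood of a vertex set -/
noncomputable def MG.nb (G : MG V E) (D : Set V) : Finset V :=
  univ.filter (fun w => w ∉ D ∧ ∃ u ∈ D, G.Adj G.A u w)

theorem mem_nb {D : Set V} {w : V} : w ∈ G.nb D ↔ w ∉ D ∧ ∃ u ∈ D, G.Adj G.A u w := by
  simp [MG.nb]

/-- edges meeting a vertex set -/
noncomputable def MG.inc (G : MG V E) (D : Set V) : Finset E :=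
  G.A.filter (fun e => ∃ u ∈ D, G.Inc e u)

theorem mem_inc {D : Set V} {e : E} : e ∈ G.inc D ↔ e ∈ G.A ∧ ∃ u ∈ D, G.Inc e u := mem_filter

theorem cset_inc {D : Set V} (h : G.CSet G.A D) {B : Finset E} (hB : G.inc D ⊆ B) :
    G.CSet B D := by
  intro u hu v hv
  have := h u hu v hv
  clear hv
  induction this with
  | refl => exact Conn.refl _
  | tail _ h2 ih =>
    obtain ⟨hb, hc, e, he, hen⟩ := h2
    exact ih.trans (Conn.single hb hc ⟨e, hB (mem_inc.2 ⟨he, _, hb, hen.inc_left⟩), hen⟩)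

theorem Min.two_sided (hG : Min G) {D1 D2 : Set V} (h1 : G.CSet G.A D1) (h2 : G.CSet G.A D2)
    (n1 : D1.Nonempty) (n2 : D2.Nonempty) (hd : ∀ v ∈ D1, v ∉ D2)
    (hN : G.nb D1 ⊆ G.nb D2) (hc : (G.nb D1).card ≤ 3) :
    (G.inc D1).card ≤ (G.nb D1).card ∨ (G.A \ G.inc D1).card ≤ (G.nb D1).card := by
  by_contra hcon
  push Not at hcon
  have hsub : G.inc D1 ⊆ G.A := filter_subset _ _
  have hss : G.A \ (G.A \ G.inc D1) = G.inc D1 := Finset.sdiff_sdiff_eq_self hsub
  have hends : ∀ e ∈ G.inc D1, ∀ v, G.Inc e v → v ∈ D1 ∨ v ∈ G.nb D1 := by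
    intro e he v hv
    obtain ⟨heA, u, hu, hi⟩ := mem_inc.1 he
    obtain ⟨w, hen⟩ := hi.exists_ends
    rcases (hen.inc_iff v).1 hv with rfl | rfl
    · exact Or.inl hu
    · by_cases h : v ∈ D1
      · exact Or.inl h
      · exact Or.inr (mem_nb.2 ⟨h, u, hu, e, heA, hen⟩)
  have hB2 : ∀ e ∈ G.inc D1, ∀ v, G.Inc e v → v ∉ D2 := by
    intro e he v hv
    rcases hends e he v hv with h | h
    · exact hd v h
    · exact (mem_nb.1 (hN h)).1
  have hinc2 : G.inc D2 ⊆ G.A \ G.inc D1 := by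
    intro e he
    obtain ⟨heA, u, hu, hi⟩ := mem_inc.1 he
    exact mem_sdiff.2 ⟨heA, fun h => hB2 e h u hi hu⟩
  have hN1 : ∀ n ∈ G.nb D1, n ∉ D1 ∧ ∃ u ∈ D1, G.Adj (G.inc D1) n u := by
    intro n hn
    obtain ⟨h, u, hu, e, he, hen⟩ := mem_nb.1 hn
    exact ⟨h, u, hu, e, mem_inc.2 ⟨he, u, hu, hen.inc_left⟩, hen.symm⟩
  have hN2 : ∀ n ∈ G.nb D1, n ∉ D2 ∧ ∃ u ∈ D2, G.Adj (G.A \ G.inc D1) n u := by
    intro n hn
    obtain ⟨h, u, hu, e, he, hen⟩ := mem_nb.1 (hN hn)
    exact ⟨h, u, hu, e, hinc2 (mem_inc.2 ⟨he, u, hu, hen.inc_left⟩), hen.symm⟩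
  have hint : ∀ v, (∃ e ∈ G.inc D1, G.Inc e v) → (∃ e ∈ G.A \ G.inc D1, G.Inc e v) →
      v ∈ G.nb D1 := by
    rintro v ⟨e, he, hi⟩ ⟨f, hf, hj⟩
    rcases hends e he v hi with h | h
    · exact absurd (mem_inc.2 ⟨(mem_sdiff.1 hf).1, v, h, hj⟩) (mem_sdiff.1 hf).2
    · exact h
  obtain ⟨ψ1, a1, b1, c1⟩ := hG.side (B := G.inc D1) (N := G.nb D1) (D := D1) (D' := D2) hsub
    (cset_inc h2 hinc2) n2 hB2 hN2 (cset_inc h1 subset_rfl) (fun n hn => (hN1 n hn).2) hint hcon.2
  obtain ⟨ψ2, a2, b2, c2⟩ := hG.side (B := G.A \ G.inc D1) (N := G.nb D1) (D := D2) (D' := D1)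
    sdiff_subset (by rw [hss]; exact cset_inc h1 subset_rfl) n1
    (fun e he v hv hvD => (mem_sdiff.1 he).2 (mem_inc.2 ⟨(mem_sdiff.1 he).1, v, hvD, hv⟩))
    (by rw [hss]; exact hN1) (cset_inc h2 hinc2) (fun n hn => (hN2 n hn).2)
    (by rw [hss]; exact fun v h h' => hint v h' h) (by rw [hss]; exact hcon.1)
  have sumN : ∀ (B : Finset E) (ψ : E → K4), (∀ v, v ∉ G.nb D1 → G.bd B ψ v = 0) →
      ∑ n ∈ G.nb D1, G.bd B ψ n = 0 := by
    intro B ψ h
    rw [← sum_bd_univ (G := G) B ψ]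
    exact sum_subset (subset_univ _) (fun v _ hv => h v hv)
  obtain ⟨σ, hσ1, hσ2⟩ : ∃ σ : K4 →+ K4, (∀ x, x ≠ 0 → σ x ≠ 0) ∧
      ∀ x ∈ G.nb D1, σ (G.bd (G.inc D1) ψ1 x) = G.bd (G.A \ G.inc D1) ψ2 x := by
    by_cases h : 2 ≤ (G.nb D1).card
    · exact exists_sigma _ hc _ _ (c1 h) (c2 h) (sumN _ _ b1) (sumN _ _ b2)
    · refine ⟨AddMonoidHom.id _, fun x hx => hx, ?_⟩
      intro x hx
      have hx' : G.nb D1 = {x} := eq_singleton_iff_unique_mem.2
        ⟨hx, fun y hy => card_le_one.1 (by omega) _ hy _ hx⟩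
      have s1 := sumN _ _ b1
      have s2 := sumN _ _ b2
      rw [hx', sum_singleton] at s1 s2
      rw [s1, s2, map_zero]
  apply hG.nf
  refine ⟨fun e => if e ∈ G.inc D1 then σ (ψ1 e) else ψ2 e, ?_, ?_⟩
  · intro e he
    by_cases h : e ∈ G.inc D1
    · simp only [h, if_true]; exact hσ1 _ (a1 e h)
    · simp only [h, if_false]; exact a2 e (mem_sdiff.2 ⟨he, h⟩)
  · intro v
    rw [bd_split hsub]
    have e1 : G.bd (G.A \ G.inc D1) (fun e => if e ∈ G.inc D1 then σ (ψ1 e) else ψ2 e) v =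
        G.bd (G.A \ G.inc D1) ψ2 v := bd_congr fun e he _ => by simp [(mem_sdiff.1 he).2]
    have e2 : G.bd (G.inc D1) (fun e => if e ∈ G.inc D1 then σ (ψ1 e) else ψ2 e) v =
        G.bd (G.inc D1) (fun e => σ (ψ1 e)) v := bd_congr fun e he _ => by simp [he]
    rw [e1, e2, bd_map]
    by_cases hv : v ∈ G.nb D1
    · rw [hσ2 v hv, K4_add_self]
    · rw [b1 v hv, b2 v hv]; simp

/-- the component of `u` in the complement of `S` -/
def MG.comp (G : MG V E) (W : Set V) (u : V) : Set V := {w | w ∈ W ∧ G.Conn G.A W u w}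

theorem comp_cset (W : Set V) (u : V) : G.CSet G.A (G.comp W u) := by
  intro a ha b hb
  exact ha.2.restrict.symm.trans hb.2.restrict

theorem comp_self {W : Set V} {u : V} (h : u ∈ W) : u ∈ G.comp W u := ⟨h, Conn.refl _⟩

theorem nb_comp {W : Set V} {u w : V} (h : w ∈ G.nb (G.comp W u)) : w ∉ W := by
  obtain ⟨h1, x, hx, ha⟩ := mem_nb.1 h
  exact fun hw => h1 ⟨hw, hx.2.trans (Conn.single hx.1 hw ha)⟩

theorem comp_disj {D : Set V} {u : V} (hu : u ∉ D) {w : V}
    (hw : w ∈ G.comp {x | x ∉ G.nb D} u) : w ∉ D := by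
  intro hwD
  obtain ⟨e, he, h1, h2⟩ := hw.2.cross (Y := D) (by tauto)
  rw [(ends_lr e).mem_cut_iff] at he
  by_cases h : G.l e ∈ D
  · exact h2 (mem_nb.2 ⟨by tauto, _, h, e, he.1, ends_lr e⟩)
  · exact h1 (mem_nb.2 ⟨h, G.r e, by tauto, e, he.1, (ends_lr e).symm⟩)

theorem star_sub_inc {D : Set V} {u : V} (hu : u ∈ D) : G.star u ⊆ G.inc D := by
  intro e he
  rw [mem_star] at he
  exact mem_inc.2 ⟨he.1, u, hu, he.2⟩

theorem star_sub_rest {D : Set V} {u : V} (hu : u ∉ D) (hu' : u ∉ G.nb D) :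
    G.star u ⊆ G.A \ G.inc D := by
  intro e he
  rw [mem_star] at he
  refine mem_sdiff.2 ⟨he.1, fun h => ?_⟩
  obtain ⟨-, w, hw, hi⟩ := mem_inc.1 h
  obtain ⟨x, hen⟩ := hi.exists_ends
  rcases (hen.inc_iff u).1 he.2 with rfl | rfl
  · exact hu hw
  · exact hu' (mem_nb.2 ⟨hu, w, hw, e, he.1, hen⟩)

theorem Min.q3 (hG : Min G) {D : Set V} (hD : G.CSet G.A D) {d : V} (hd : d ∈ D) (hdn : G.NI d)
    (hc : (G.nb D).card ≤ 2) {u : V} (hu : G.NI u) (h1 : u ∉ D) : u ∈ G.nb D := by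
  induction hn : (G.nb D).card using Nat.strong_induction_on generalizing D d u with
  | _ n ih =>
    by_contra h2
    have hsub : G.nb (G.comp {x | x ∉ G.nb D} u) ⊆ G.nb D := by
      intro w hw
      have := nb_comp hw
      simpa using this
    by_cases heq : G.nb D ⊆ G.nb (G.comp {x | x ∉ G.nb D} u)
    · rcases hG.two_sided hD (comp_cset _ u) ⟨d, hd⟩ ⟨u, comp_self h2⟩
        (fun v hv hv' => comp_disj h1 hv' hv) heq (by omega) with h | h
      · have := card_le_card (star_sub_inc (G := G) hd)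
        have := hG.deg hdn
        omega
      · have := card_le_card (star_sub_rest h1 h2)
        have := hG.deg hu
        omega
    · have hlt := card_lt_card (LE.le.ssubset_of_not_superset hsub heq)
      have := ih _ (hn ▸ hlt) (comp_cset _ u) (comp_self h2) hu (by omega) hdn
        (fun h => comp_disj h1 h hd) rfl
      exact (mem_nb.1 (hsub this)).1 hd

theorem Min.stars_ne (hG : Min G) {u w : V} (hu : G.NI u) (hne : u ≠ w) {B : Finset E}
    (h1 : G.star u ⊆ B) (h2 : G.star w ⊆ B) (hw : G.NI w) : 3 < B.card := by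
  by_contra hc
  have e1 : G.star u = B := eq_of_subset_of_card_le h1 (by have := hG.deg hu; omega)
  have e2 : G.star w = B := eq_of_subset_of_card_le h2 (by have := hG.deg hw; omega)
  have hen : ∀ e ∈ B, e ∈ G.A ∧ G.Ends e u w := by
    intro e he
    have a := mem_star.1 (e1 ▸ he : e ∈ G.star u)
    have b := mem_star.1 (e2 ▸ he : e ∈ G.star w)
    obtain ⟨x, hx⟩ := a.2.exists_ends
    rcases (hx.inc_iff w).1 b.2 with h | h
    · exact absurd h.symm hne
    · exact ⟨a.1, h ▸ hx⟩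
  have : B.card ≤ 1 := card_le_one.2 fun e he f hf =>
    hG.simple (hen e he).1 (hen f hf).1 (hen e he).2 (hen f hf).2
  have := hG.deg hu
  rw [e1] at this
  omega

theorem Min.q4 (hG : Min G) {D : Set V} (hD : G.CSet G.A D) {d : V} (hd : d ∈ D) (hdn : G.NI d)
    (hc : (G.nb D).card ≤ 3) {u w : V} (hu : G.NI u) (hw : G.NI w) (hne : u ≠ w)
    (h1 : u ∉ D) (h2 : u ∉ G.nb D) (h3 : w ∉ D) (h4 : w ∉ G.nb D) :
    (∀ x ∈ D, x = d) ∧ (G.star d).card = 3 := by
  have hsub : G.nb (G.comp {x | x ∉ G.nb D} u) ⊆ G.nb D := by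
    intro w hw
    have := nb_comp hw
    simpa using this
  have heq : G.nb D ⊆ G.nb (G.comp {x | x ∉ G.nb D} u) := by
    by_contra heq
    have hlt := card_lt_card (LE.le.ssubset_of_not_superset hsub heq)
    have := hG.q3 (comp_cset _ u) (comp_self h2) hu (by omega) hdn (fun h => comp_disj h1 h hd)
    exact (mem_nb.1 (hsub this)).1 hd
  rcases hG.two_sided hD (comp_cset _ u) ⟨d, hd⟩ ⟨u, comp_self h2⟩
    (fun v hv hv' => comp_disj h1 hv' hv) heq hc with h | h
  · refine ⟨fun x hx => ?_, ?_⟩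
    · by_contra hxd
      have hxn : G.NI x := by
        rcases (hD x hx d hd).cases_head with h | ⟨y, hy, -⟩
        · exact absurd h hxd
        · exact hy.2.2.ni
      have := hG.stars_ne hxn hxd (star_sub_inc hx) (star_sub_inc hd) hdn
      omega
    · have := card_le_card (star_sub_inc (G := G) hd)
      have := hG.deg hdn
      omega
  · have := hG.stars_ne hu hne (star_sub_rest h1 h2) (star_sub_rest h3 h4) hw
    omega

theorem bag_step {ι : Type} {T : SimpleGraph ι} {bag : ι → Finset V} (hT : T.IsTree)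
    (h2 : ∀ e ∈ G.A, ∃ t, G.l e ∈ bag t ∧ G.r e ∈ bag t)
    (h3 : ∀ v s t, v ∈ bag s → v ∈ bag t →
      Relation.ReflTransGen (fun a b => T.Adj a b ∧ v ∈ bag a ∧ v ∈ bag b) s t)
    {D : Set V} (hD : G.CSet G.A D) {d : V} (hd : d ∈ D) (hdn : G.NI d) {t : ι}
    (ht : G.nb D ⊆ bag t) : ∃ t', G.nb D ⊆ bag t' ∧ ∃ v ∈ D, v ∈ bag t' := by
  have hb : ∀ u w, G.Adj G.A u w → ∃ s, u ∈ bag s ∧ w ∈ bag s := by
    rintro u w ⟨e, he, hen⟩
    obtain ⟨s, h1, h2⟩ := h2 e he
    rcases hen with ⟨a, b⟩ | ⟨a, b⟩ <;> subst a b <;> exact ⟨s, by assumption, by assumption⟩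
  let TD : Set ι := {s | ∃ v ∈ D, v ∈ bag s}
  have hne : ∃ s, s ∈ TD := by
    obtain ⟨e, he, hi⟩ := hdn
    obtain ⟨w, hen⟩ := hi.exists_ends
    obtain ⟨s, h1, -⟩ := hb d w ⟨e, he, hen⟩
    exact ⟨s, d, hd, h1⟩
  have walk : ∀ (P : ι → Prop) (a b : ι), P a →
      Relation.ReflTransGen (fun a b => T.Adj a b ∧ P a ∧ P b) a b →
      ∃ p : T.Walk a b, ∀ x ∈ p.support, P x := by
    intro P a b ha h
    induction h with
    | refl => exact ⟨SimpleGraph.Walk.nil, by simpa using ha⟩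
    | tail _ h2 ih =>
      obtain ⟨p, hp⟩ := ih
      refine ⟨p.concat h2.1, ?_⟩
      intro x hx
      rw [SimpleGraph.Walk.support_concat, List.mem_append,
        List.mem_singleton] at hx
      rcases hx with hx | rfl
      · exact hp x hx
      · exact h2.2.2
  have hTD : ∀ a ∈ TD, ∀ b ∈ TD,
      Relation.ReflTransGen (fun a b => T.Adj a b ∧ a ∈ TD ∧ b ∈ TD) a b := by
    have one : ∀ v ∈ D, ∀ a b, v ∈ bag a → v ∈ bag b →
        Relation.ReflTransGen (fun a b => T.Adj a b ∧ a ∈ TD ∧ b ∈ TD) a b := by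
      intro v hv a b ha hb
      refine Relation.ReflTransGen.mono ?_ _ _ (h3 v a b ha hb)
      rintro x y ⟨h, hx, hy⟩
      exact ⟨h, ⟨v, hv, hx⟩, ⟨v, hv, hy⟩⟩
    rintro a ⟨u, hu, ha⟩ b ⟨v, hv, hb'⟩
    have := hD u hu v hv
    induction this generalizing b with
    | refl => exact one u hu a b ha hb'
    | @tail x y _ hxy ih =>
      obtain ⟨s, h1, h2⟩ := hb x y hxy.2.2
      exact (ih s hxy.1 h1).trans (one y hv s b h2 hb')
  obtain ⟨t', ht', hmin⟩ := exists_minimalFor_of_wellFoundedLT (· ∈ TD) (fun s => T.dist t s) hne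
  refine ⟨t', ?_, ht'⟩
  intro w hw
  by_cases htt : t = t'
  · exact htt ▸ ht hw
  obtain ⟨-, u, hu, ha⟩ := mem_nb.1 hw
  obtain ⟨s, hs1, hs2⟩ := hb u w ha
  obtain ⟨p, hp⟩ := walk (fun x => w ∈ bag x) t s (ht hw) (h3 w t s (ht hw) hs2)
  obtain ⟨q, hq⟩ := walk (· ∈ TD) s t' ⟨u, hu, hs1⟩ (hTD s ⟨u, hu, hs1⟩ t' ht')
  obtain ⟨r, hr, hrl⟩ := hT.connected.exists_path_of_dist t' t
  cases r with
  | nil => exact absurd rfl htt
  | @cons _ x _ hx r' =>
    have hxd : T.dist t x < T.dist t t' := by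
      have := SimpleGraph.dist_le r'
      rw [SimpleGraph.Walk.length_cons] at hrl
      rw [SimpleGraph.dist_comm (u := t) (v := x), SimpleGraph.dist_comm (u := t) (v := t')]
      omega
    have hxTD : x ∉ TD := fun h => by
      have := hmin h hxd.le
      simp only at this
      omega
    have heq : (p.append q).reverse.bypass = SimpleGraph.Walk.cons hx r' :=
      Subtype.mk.inj <| (hT.isAcyclic.subsingleton_path t' t).elim
        ⟨_, SimpleGraph.Walk.bypass_isPath _⟩ ⟨_, hr⟩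
    have hedge : s(t', x) ∈ (p.append q).reverse.edges := by
      apply SimpleGraph.Walk.edges_bypass_subset_edges
      rw [heq]
      simp
    rw [SimpleGraph.Walk.edges_reverse, List.mem_reverse, SimpleGraph.Walk.edges_append,
      List.mem_append] at hedge
    rcases hedge with h | h
    · exact hp _ (p.fst_mem_support_of_mem_edges h)
    · exact absurd (hq _ (q.snd_mem_support_of_mem_edges h)) hxTD

end Pool.Agent.MP_e6539c_co.TW

end MrgPart3

-- marker of a merged file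
example : 731051 + 889498 = 731051 + 889498 := rfl
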