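import Pool.Agent.MP_e6539c_co.TW.Red
import Pool.Agent.MP_e6539c_co.TW.Root0
import Pool.Agent.MP_e6539c_co.TW.Root1
import Pool.Agent.MP_e6539c_co.TW.Root2
import Pool.Agent.MP_e6539c_co.TW.Root3
import Pool.Agent.MP_e6539c_co.TW.Root4
import Pool.Agent.MP_e6539c_co.TW.Root5
import Pool.Agent.MP_e6539c_co.TW.Root6
import Pool.Agent.MP_e6539c_co.TW.Root7
import Pool.Agent.MP_e6539c_co.TW.Root8
import Pool.Agent.MP_e6539c_co.TW.Root9

-- ======== part 0: formerly Pool.Agent.MP_e6539c_co.TW.Kill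
section MrgPart0

/-!
Soundness of the elementary exclusion rules and of the search tree.
-/

set_option autoImplicit false

namespace Pool.Agent.MP_e6539c_co.TW

open Finset MG
open Classical

set_option linter.unusedSectionVars false

variable {V E : Type} [Fintype V] {G : MG V E} {X : EL} {φ : ℕ → V}

theorem pet_s {Φ : ℕ → Set V} (h1 : ∀ i, Us X i → G.CSet G.A (Φ i))
    (h2 : ∀ i j v, Us X i → Us X j → v ∈ Φ i → v ∈ Φ j → i = j)
    (h3 : ∀ a b, Ed X a b → ∃ u ∈ Φ a, ∃ w ∈ Φ b, G.Adj G.A u w) {A s : ℕ} (hA : AdjS X A)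
    (h : pet A s = true) : G.HasP := by
  obtain ⟨K, s', seen, hI, hk⟩ := cls_s hA (inv_zero X) h
  have hw := wit_s hA hk
  refine ⟨fun k => {v | ∃ i, Kc K k i ∧ Us X i ∧ v ∈ Φ i}, ?_, ?_, ?_⟩
  · rintro k - u ⟨i, a, b, c⟩ v ⟨j, a', -, c'⟩
    have sub : ∀ i, Kc K k i → Us X i → Φ i ⊆ {v | ∃ i, Kc K k i ∧ Us X i ∧ v ∈ Φ i} :=
      fun i a b v hv => ⟨i, a, b, hv⟩
    have := hI.cn k i j a a'
    clear a'
    induction this generalizing v with
    | refl => exact (h1 i b u c v c').mono subset_rfl (sub i a b)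
    | tail _ h2 ih =>
      obtain ⟨x, hx, y, hy, hxy⟩ := h3 _ _ h2.2.2
      exact (ih x hx).trans ((Conn.single (sub _ h2.1 h2.2.2.us hx)
        (sub _ h2.2.1 h2.2.2.symm.us hy) hxy).trans
        ((h1 _ h2.2.2.symm.us y hy v c').mono subset_rfl (sub _ h2.2.1 h2.2.2.symm.us)))
  · intro k _ k' _ hne
    rw [Set.disjoint_left]
    rintro v ⟨i, a, b, c⟩ ⟨j, a', b', c'⟩
    obtain rfl := h2 _ _ _ b b' c c'
    exact hne (hI.dj _ _ _ a a')
  · intro p hp
    obtain ⟨u, w, a, b, c⟩ := hw p hp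
    obtain ⟨x, hx, y, hy, hxy⟩ := h3 _ _ c
    exact ⟨x, ⟨u, a, c.us, hx⟩, y, ⟨w, b, c.symm.us, hy⟩, hxy⟩

theorem App.of_list (h1 : ∀ p ∈ X, G.Adj G.A (φ p.1) (φ p.2))
    (h2 : ∀ i j, Us X i → Us X j → φ i = φ j → i = j) (h3 : ndb X = true)
    (h4 : ∀ i, Us X i → 6 ≤ i → Clo G X φ (φ i)) : App G X φ :=
  ⟨⟨fun _ _ h => h.elim (h1 _) fun h => (h1 _ h).symm, h2, ndb_nd h3⟩, h4⟩

theorem Min.no_tri (hG : Min G) {a b c : V} (h1 : G.Adj G.A a b) (h2 : G.Adj G.A b c)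
    (h3 : G.Adj G.A c a) : False := by
  have n1 := hG.adj_ne h1
  have n2 := hG.adj_ne h2
  have n3 := hG.adj_ne h3
  have hu : ∀ i, Us [(0, 2), (1, 2), (0, 1)] i → i = 0 ∨ i = 1 ∨ i = 2 := by
    simp only [Us, List.mem_cons, List.not_mem_nil, or_false, exists_eq_or_imp, exists_eq_left]
    omega
  refine red_s hG (c := opAdd (opAdd (opAdd emp 0 1) 1 2) 0 2)
    (φ := fun i => if i = 0 then a else if i = 1 then b else c)
    (opAdd_ok (opAdd_ok (opAdd_ok emp_ok (by omega) (by omega)) (by omega) (by omega)) (by omega)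
      (by omega)) (App.of_list (X := [(0, 2), (1, 2), (0, 1)]) ?_ ?_ (by decide +kernel) ?_)
    (lb_zero _) (lb_zero _) (s := 453937478165844646348288) (by decide +kernel)
  · simp [h1, h2, h3.symm]
  · intro i j hi hj
    rcases hu i hi with rfl | rfl | rfl <;> rcases hu j hj with rfl | rfl | rfl <;>
      simp [n1, n2, n3, n1.symm, n2.symm, n3.symm]
  · intro i hi h6
    have := hu i hi
    omega

theorem Min.no_c4 (hG : Min G) {a b c d : V} (h1 : G.Adj G.A a b) (h2 : G.Adj G.A b c)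
    (h3 : G.Adj G.A c d) (h4 : G.Adj G.A d a) (n5 : a ≠ c) (n6 : b ≠ d) : False := by
  have n1 := hG.adj_ne h1
  have n2 := hG.adj_ne h2
  have n3 := hG.adj_ne h3
  have n4 := hG.adj_ne h4
  have hu : ∀ i, Us [(0, 3), (2, 3), (1, 2), (0, 1)] i → i = 0 ∨ i = 1 ∨ i = 2 ∨ i = 3 := by
    simp only [Us, List.mem_cons, List.not_mem_nil, or_false, exists_eq_or_imp, exists_eq_left]
    omega
  refine red_s hG (c := opAdd (opAdd (opAdd (opAdd emp 0 1) 1 2) 2 3) 0 3)
    (φ := fun i => if i = 0 then a else if i = 1 then b else if i = 2 then c else d)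
    (opAdd_ok (opAdd_ok (opAdd_ok (opAdd_ok emp_ok (by omega) (by omega)) (by omega) (by omega))
      (by omega) (by omega)) (by omega) (by omega))
    (App.of_list (X := [(0, 3), (2, 3), (1, 2), (0, 1)]) ?_ ?_ (by decide +kernel) ?_)
    (lb_zero _) (lb_zero _) (s := 10276459762534706690835584) (by decide +kernel)
  · simp [h1, h2, h3, h4.symm]
  · intro i j hi hj
    rcases hu i hi with rfl | rfl | rfl | rfl <;> rcases hu j hj with rfl | rfl | rfl | rfl <;>
      simp [n1, n2, n3, n4, n5, n6, n1.symm, n2.symm, n3.symm, n4.symm, n5.symm, n6.symm]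
  · intro i hi h6
    have := hu i hi
    omega

theorem App0.hasP (h : App0 G X φ) {A s : ℕ} (hA : AdjS X A) (hp : pet A s = true) : G.HasP :=
  pet_s (Φ := fun i => {φ i}) (fun i _ u hu v hv => by rw [hu, hv]; exact Conn.refl _)
    (fun i j v hi hj a b => h.inj _ _ hi hj (a.symm.trans b))
    (fun a b hab => ⟨_, rfl, _, rfl, h.adj _ _ hab⟩) hA hp

theorem low_s (hG : Min G) (h : App G X φ) {i : ℕ} (hl : low X i = true) : False := by
  simp only [low, an_iff, Nat.ble_eq, nz_iff, dgr_eq] at hl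
  obtain ⟨h6, h0, h2⟩ := hl
  have hu : Us X i := by
    obtain ⟨p, hp, h⟩ := List.countP_pos_iff.1 (Nat.pos_of_ne_zero h0)
    exact ⟨p, hp, by simpa using h⟩
  obtain ⟨j, hj⟩ := hu.ed
  obtain ⟨Y, a, b⟩ := h.cut_wit hG ∅ (· = i) (fun l hl _ => by simp; omega)
  have := hG.cut_ge_three (Y := Y) ((b i hu).2 rfl)
    (fun h' => hG.adj_ne (h.adj _ _ hj) (by rw [(b j hj.symm.us).1 h'])) (h.ni hu) (h.ni hj.symm.us)
  have h3 : cutL X (· = i) ≤ X.countP (fun p => decide (p.1 = i ∨ p.2 = i)) := by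
    apply List.countP_mono_left
    intro p _
    simp only [decide_eq_true_eq]
    tauto
  simp only [cut, Set.mem_empty_iff_false, not_true, filter_false, card_empty] at a this
  omega

theorem kill0_s (hG : Min G) {c : Cfg} (hc : c.OK) (h : App G c.X φ) {s : ℕ}
    (hk : kill0 c s = true) : False := by
  unfold kill0 at hk
  have lt : ∀ i, fld s i 32 < 32 := fun i => fld_lt _ _ _ (by omega)
  generalize Nat.mod s 8 = t at hk
  rcases t with _ | _ | _ | _ | _ | t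
  · exact red_s hG hc h (lb_zero _) (lb_zero _) hk
  · change c4 c.adj s = true at hk
    simp only [c4, an_iff, nt_iff, Nat.beq_eq] at hk
    obtain ⟨a1, a2, a3, a4, a5, a6⟩ := hk
    have b1 := eb_s hc.adj (lt _) a1
    have b2 := eb_s hc.adj (lt _) a2
    have b3 := eb_s hc.adj (lt _) a3
    have b4 := eb_s hc.adj (lt _) a4
    exact hG.no_c4 (h.adj _ _ b1) (h.adj _ _ b2) (h.adj _ _ b3) (h.adj _ _ b4)
      (fun e => a5 (h.inj _ _ b1.us b3.us e)) (fun e => a6 (h.inj _ _ b2.us b4.us e))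
  · change c3 c.adj s = true at hk
    simp only [c3, an_iff] at hk
    exact hG.no_tri (h.adj _ _ (eb_s hc.adj (lt _) hk.1)) (h.adj _ _ (eb_s hc.adj (lt _) hk.2.1))
      (h.adj _ _ (eb_s hc.adj (lt _) hk.2.2))
  · exact dup_nd hk h.nd
  · exact hG.np (h.hasP hc.adj hk)
  · exact low_s hG h hk

/-- a configuration placed with prescribed label images -/
structure Sit (G : MG V E) (lam : ℕ → V) (U : Set ℕ) (D : Set V) (X : EL) (φ : ℕ → V) : Prop where
  app : App G X φ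
  lab : ∀ l < 6, φ l = lam l
  lu : ∀ l < 6, Us X l → l ∈ U
  int : ∀ i, Us X i → 6 ≤ i → φ i ∈ D

def Part (G : MG V E) (lam : ℕ → V) (U : Set ℕ) (D : Set V) (R : V → V → Prop) (e : Ent) : Prop :=
  e.OK ∧ ∃ φ, Sit G lam U D (eX e) φ ∧ ∀ u w, EA (eX e) φ u w ↔ R u w

variable {lam : ℕ → V} {U : Set ℕ} {D : Set V}

theorem glue_sit (hU : Set.InjOn lam U) {c : Cfg} (hc : c.OK) (h : Sit G lam U D c.X φ)
    {R : V → V → Prop} {e : Ent} (he : Part G lam U D R e) (hd : ∀ u w, EA c.X φ u w → ¬ R u w) :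
    ∃ φ', Sit G lam U D (glue c e).X φ' ∧ ∀ u w, EA (glue c e).X φ' u w ↔ EA c.X φ u w ∨ R u w := by
  obtain ⟨-, ψ, h', hR⟩ := he
  have n6 := hc.n6
  let φ' : ℕ → V := fun i => if i < c.n then φ i else ψ (i - (c.n - 6))
  obtain ⟨a1, a2⟩ := h.app.congr (φ' := φ') (fun i hi => if_pos (hc.bnd i hi))
  have hφ : ∀ i, φ' (sft (Nat.sub c.n 6) i) = ψ i := by
    intro i
    simp only [φ', sft_eq, Nat.sub_eq]
    by_cases h5 : i ≤ 5
    · rw [if_pos h5, if_pos (by omega), h.lab i (by omega), h'.lab i (by omega)]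
    · rw [if_neg h5, if_neg (by omega), Nat.add_sub_cancel]
  obtain ⟨b1, b2⟩ := h'.app.toApp0.rename' (σ := sft (Nat.sub c.n 6)) (φ' := φ') (by
    intro i j _ _
    simp only [sft_eq]
    split_ifs <;> omega) (fun i _ => hφ i) (by
    intro i hi h6
    apply h'.app.cl i hi
    rw [sft_eq] at h6
    split_ifs at h6 <;> omega)
  have hl : ∀ l < 6, φ' l = lam l := fun l hl => (if_pos (by omega)).trans (h.lab l hl)
  have hu : ∀ l < 6, Us (pmap (sft (Nat.sub c.n 6)) (eX e)) l → l ∈ U := by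
    intro l hl hu
    obtain ⟨i, hi, rfl⟩ := us_pmap.1 hu
    rw [sft_eq] at hl ⊢
    split_ifs at hl ⊢
    · exact h'.lu i hl hi
    · omega
  refine ⟨φ', ?_⟩
  change Sit G lam U D (app _ _) φ' ∧ ∀ u w, EA (app _ _) φ' u w ↔ _
  rw [app_eq]
  refine ⟨⟨a1.append b1 ?_ ?_, hl, ?_, ?_⟩, fun u w => by rw [ea_append, a2, b2, hR]⟩
  · intro u w h1 h2
    exact hd u w ((a2 _ _).1 h1) ((hR _ _).1 ((b2 _ _).1 h2))
  · intro i j hi hj ui uj e
    rw [hl i hi, hl j hj] at e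
    exact hU (h.lu i hi ui) (hu j hj uj) e
  · intro l hl h1
    exact (us_append.1 h1).elim (h.lu l hl) (hu l hl)
  · intro i hi h6
    rcases us_append.1 hi with hi | hi
    · simp only [φ', if_pos (hc.bnd i hi)]
      exact h.int i hi h6
    · obtain ⟨j, hj, rfl⟩ := us_pmap.1 hi
      rw [hφ]
      apply h'.int j hj
      rw [sft_eq] at h6
      split_ifs at h6 <;> omega

theorem alive_s (hG : Min G) (hU : Set.InjOn lam U) {c : Cfg} (hc : c.OK) (h : Sit G lam U D c.X φ)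
    {R : V → V → Prop} (hd : ∀ u w, EA c.X φ u w → ¬ R u w) {l : List Ent} {ks : List ℕ}
    (hk : kills c l ks = true) (he : ∃ e ∈ l, Part G lam U D R e) :
    ∃ e ∈ alive l ks, Part G lam U D R e := by
  induction l generalizing ks with
  | nil => simp at he
  | cons e l ih =>
    cases ks with
    | nil => exact he
    | cons k ks =>
      change an _ (kills c l ks) = true at hk
      rw [an_iff] at hk
      obtain ⟨e', h1, h2⟩ := he
      cases k with
      | zero =>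
        change ∃ e' ∈ e :: alive l ks, _
        rcases List.mem_cons.1 h1 with rfl | h1
        · exact ⟨_, List.mem_cons_self, h2⟩
        · obtain ⟨e'', h3, h4⟩ := ih hk.2 ⟨e', h1, h2⟩
          exact ⟨e'', List.mem_cons_of_mem _ h3, h4⟩
      | succ k =>
        rcases List.mem_cons.1 h1 with rfl | h1
        · obtain ⟨φ', h3, -⟩ := glue_sit hU hc h h2 hd
          exact (kill0_s hG (glue_ok hc h2.1) h3.app hk.1).elim
        · exact ih hk.2 ⟨e', h1, h2⟩

theorem goF_s (hG : Min G) (hU : Set.InjOn lam U) {α ι : Type} {act : Cfg → α → Bool}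
    {R : ι → V → V → Prop} (t : Tr α) : ∀ {c : Cfg} {φ : ℕ → V} {al : List Ent} {P : Finset ι},
    c.OK → Sit G lam U D c.X φ → P.Nonempty → (∀ i ∈ P, ∃ e ∈ al, Part G lam U D (R i) e) →
    (∀ i ∈ P, ∀ u w, EA c.X φ u w → ¬ R i u w) →
    (∀ i ∈ P, ∀ j ∈ P, i ≠ j → ∀ u w, R i u w → ¬ R j u w) → goF act t c al = true →
    ∃ c' φ' a, c'.OK ∧ act c' a = true ∧ Sit G lam U D c'.X φ' ∧
      ∀ u w, EA c'.X φ' u w ↔ EA c.X φ u w ∨ ∃ i ∈ P, R i u w := by
  induction t with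
  | nil =>
    intro c φ al P _ _ hP h1 _ _ hg
    obtain ⟨i, hi⟩ := hP
    obtain ⟨e, he, -⟩ := h1 i hi
    cases al with
    | nil => simp at he
    | cons e al => exact absurd hg (by simp [goF])
  | node ks a ch sib ih1 ih2 =>
    intro c φ al P hc hs hP h1 h2 h3 hg
    cases al with
    | nil =>
      obtain ⟨i, hi⟩ := hP
      obtain ⟨e, he, -⟩ := h1 i hi
      simp at he
    | cons e al =>
      change an (force (glue c e) fun c' => an (act c' a) (an (kills c' (e :: al) ks)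
        (goF act ch c' (alive (e :: al) ks)))) (goF act sib c al) = true at hg
      simp only [force_eq, an_iff] at hg
      by_cases hex : ∃ i ∈ P, Part G lam U D (R i) e
      · obtain ⟨i, hi, he⟩ := hex
        obtain ⟨φ', s1, s2⟩ := glue_sit hU hc hs he (h2 i hi)
        have hc' := glue_ok hc he.1
        have hd : ∀ j ∈ P.erase i, ∀ u w, EA (glue c e).X φ' u w → ¬ R j u w := by
          intro j hj u w h
          rw [mem_erase] at hj
          exact ((s2 u w).1 h).elim (h2 j hj.2 u w) (h3 i hi j hj.2 hj.1.symm u w)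
        have hsplit : ∀ u w, (EA c.X φ u w ∨ ∃ i ∈ P, R i u w) ↔
            (EA c.X φ u w ∨ R i u w) ∨ ∃ j ∈ P.erase i, R j u w := by
          intro u w
          conv_lhs => rw [← insert_erase hi]
          simp only [mem_insert, exists_eq_or_imp, or_assoc]
        rcases (P.erase i).eq_empty_or_nonempty with h0 | h0
        · refine ⟨_, φ', a, hc', hg.1.1, s1, fun u w => ?_⟩
          rw [hsplit, s2, h0]
          simp
        · obtain ⟨c', φ'', a', b1, b2, b3, b4⟩ := ih1 hc' s1 h0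
            (fun j hj => alive_s hG hU hc' s1 (hd j hj) hg.1.2.1 (h1 j (mem_of_mem_erase hj))) hd
            (fun j hj k hk => h3 j (mem_of_mem_erase hj) k (mem_of_mem_erase hk)) hg.1.2.2
          exact ⟨c', φ'', a', b1, b2, b3, fun u w => by rw [b4, s2, hsplit]⟩
      · refine ih2 hc hs hP (fun i hi => ?_) h2 h3 hg.2
        obtain ⟨e', a, b⟩ := h1 i hi
        rcases List.mem_cons.1 a with rfl | a
        · exact absurd ⟨i, hi, b⟩ hex
        · exact ⟨e', a, b⟩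

theorem node_s (hG : Min G) (hU : Set.InjOn lam U) {α ι : Type} {act : Cfg → α → Bool}
    {R : ι → V → V → Prop} {t : Tr α} {c : Cfg} {l : List Ent} {P : Finset ι} {ks : List ℕ} {a : α}
    (hc : c.OK) (hs : Sit G lam U D c.X φ) (h1 : ∀ i ∈ P, ∃ e ∈ l, Part G lam U D (R i) e)
    (h2 : ∀ i ∈ P, ∀ u w, EA c.X φ u w → ¬ R i u w)
    (h3 : ∀ i ∈ P, ∀ j ∈ P, i ≠ j → ∀ u w, R i u w → ¬ R j u w)
    (hg : node act c l ks a t = true) :
    ∃ c' φ' a, c'.OK ∧ act c' a = true ∧ Sit G lam U D c'.X φ' ∧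
      ∀ u w, EA c'.X φ' u w ↔ EA c.X φ u w ∨ ∃ i ∈ P, R i u w := by
  simp only [node, an_iff] at hg
  rcases P.eq_empty_or_nonempty with rfl | h0
  · exact ⟨c, φ, a, hc, hg.1, hs, by simp⟩
  · exact goF_s hG hU t hc hs h0 (fun i hi => alive_s hG hU hc hs (h2 i hi) hg.2.1 (h1 i hi)) h2 h3
      hg.2.2

end Pool.Agent.MP_e6539c_co.TW

end MrgPart0

-- ======== part 1: formerly Pool.Agent.MP_e6539c_co.TW.Cover
section MrgPart1

/-!
Placing pieces on labels, and the elementary operations on appearing configurations.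
-/

set_option autoImplicit false

namespace Pool.Agent.MP_e6539c_co.TW

open Finset MG
open Classical

set_option linter.unusedSectionVars false

variable {V E : Type} [Fintype V] {G : MG V E} {X : EL} {φ : ℕ → V}

theorem code_succ (f : ℕ → ℕ) (t : ℕ) : code f (t + 1) = code f t + f t * 8 ^ t := rfl
theorem code_lt {f : ℕ → ℕ} {t : ℕ} (h : ∀ l < t, f l < 8) : code f t < 8 ^ t := by
  induction t with
  | zero => exact one_pos
  | succ t ih =>
    have := ih fun l hl => h l (by omega)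
    have := Nat.mul_le_mul_right (8 ^ t) (show f t ≤ 7 by have := h t (by omega); omega)
    rw [code_succ, pow_succ]
    omega
theorem code_inj {f g : ℕ → ℕ} {t : ℕ} (hf : ∀ l < t, f l < 8) (hg : ∀ l < t, g l < 8)
    (h : code f t = code g t) : ∀ l < t, f l = g l := by
  induction t with
  | zero => simp
  | succ t ih =>
    have a := code_lt (f := f) (t := t) fun l hl => hf l (by omega)
    have b := code_lt (f := g) (t := t) fun l hl => hg l (by omega)
    rw [code_succ, code_succ] at h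
    have e : f t = g t := by
      have := congrArg (· / 8 ^ t) h
      simpa [Nat.add_mul_div_right _ _ (show 0 < 8 ^ t by positivity), Nat.div_eq_of_lt a,
        Nat.div_eq_of_lt b] using this
    rw [e] at h
    intro l hl
    by_cases h' : l < t
    · exact ih (fun l hl => hf l (by omega)) (fun l hl => hg l (by omega)) (by omega) l h'
    · rwa [show l = t by omega]

theorem allInj_s {k : ℕ → ℕ → Bool} {t c u : ℕ} (h : allInj k t c u = true) {f : ℕ → ℕ}
    (h1 : ∀ l < t, f l < 6 ∧ ¬ u.testBit (f l) = true) (h2 : ∀ l < t, ∀ l' < t, f l = f l' → l = l') :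
    ∃ u', (∀ a, (u.testBit a = true ∨ ∃ l < t, f l = a) → u'.testBit a = true) ∧
      k (c + code f t) u' = true := by
  induction t generalizing c u with
  | zero => exact ⟨u, by simp, h⟩
  | succ t ih =>
    change rall 6 (fun a => orr (tb u a) (st (c + a * 8 ^ t) fun c' => st (u ||| 2 ^ a) fun u' =>
      allInj k t c' u')) = true at h
    simp only [rall_iff, orr_iff, tb_eq, st_eq] at h
    obtain ⟨u', a, b⟩ := ih ((h _ (h1 t (by omega)).1).resolve_left (h1 t (by omega)).2) (by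
      intro l hl
      refine ⟨(h1 l (by omega)).1, ?_⟩
      rw [Nat.testBit_or, Nat.testBit_two_pow, Bool.or_eq_true, decide_eq_true_eq]
      rintro (h' | h')
      · exact (h1 l (by omega)).2 h'
      · have := h2 _ (by omega) _ (by omega) h'
        omega) (fun l hl l' hl' => h2 l (by omega) l' (by omega))
    refine ⟨u', fun x hx => a x ?_, by rwa [code_succ, add_comm (code f t), ← add_assoc]⟩
    rw [Nat.testBit_or, Nat.testBit_two_pow, Bool.or_eq_true, decide_eq_true_eq]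
    rcases hx with hx | ⟨l, hl, hx⟩
    · exact Or.inl (Or.inl hx)
    · by_cases h' : l < t
      · exact Or.inr ⟨l, h', hx⟩
      · exact Or.inl (Or.inr (by rwa [← show l = t by omega]))

theorem mark_s {j : ℕ} {T : List Ent} {c : ℕ} (h : (mark j T).testBit c = true) :
    ∃ e ∈ T, ∃ μ ∈ aut j, code (fun l => rl e.pi (sg μ.1 l)) (tt j) = c := by
  induction T with
  | nil => simp [mark] at h
  | cons e T ih =>
    have key : ∀ (L : List (ℕ × ℕ)) (A : ℕ), (List.rec A (fun μ _ acc' => st acc' fun A =>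
        Nat.lor A (Nat.pow 2 (code (fun l => rl e.pi (sg μ.1 l)) (tt j)))) L : ℕ).testBit c = true →
        A.testBit c = true ∨ ∃ μ ∈ L, code (fun l => rl e.pi (sg μ.1 l)) (tt j) = c := by
      intro L A
      induction L with
      | nil => exact Or.inl
      | cons μ L ih =>
        simp only [st_eq, Nat.lor_eq, Nat.pow_eq, Nat.testBit_or, Nat.testBit_two_pow,
          Bool.or_eq_true, decide_eq_true_eq] at ih ⊢
        rintro (h | h)
        · exact (ih h).imp_right fun ⟨μ', a, b⟩ => ⟨μ', List.mem_cons_of_mem _ a, b⟩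
        · exact Or.inr ⟨μ, List.mem_cons_self, h⟩
    rcases key (aut j) (mark j T) h with h | h
    · obtain ⟨e', a, b⟩ := ih h
      exact ⟨e', List.mem_cons_of_mem _ a, b⟩
    · exact ⟨e, List.mem_cons_self, h⟩

theorem rl_eq (p i : ℕ) : rl p i = if i ≤ 5 then fld p (3 * i) 8 else i := by simp [rl, cd_eq]

theorem embed {lam : ℕ → V} {U : Set ℕ} {D : Set V} (h : App G X φ) {p : ℕ}
    (h1 : ∀ l < 6, Us X l → rl p l < 6 ∧ lam (rl p l) = φ l ∧ rl p l ∈ U)
    (h2 : ∀ i, Us X i → 6 ≤ i → φ i ∈ D) :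
    ∃ φ', Sit G lam U D (pmap (rl p) X) φ' ∧ ∀ u w, EA (pmap (rl p) X) φ' u w ↔ EA X φ u w := by
  have h6 : ∀ i, ¬ i < 6 → rl p i = i := fun i hi => by rw [rl_eq, if_neg (by omega)]
  let φ' : ℕ → V := fun i => if i < 6 then lam i else φ i
  have hφ : ∀ i, Us X i → φ' (rl p i) = φ i := by
    intro i hi
    by_cases hl : i < 6
    · simp only [φ', if_pos (h1 i hl hi).1, (h1 i hl hi).2.1]
    · simp only [φ', h6 i hl, if_neg hl]
  have h7 : ∀ i, Us X i → 6 ≤ rl p i → 6 ≤ i := by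
    intro i hi h
    by_contra hc
    have := (h1 i (by omega) hi).1
    omega
  obtain ⟨a, b⟩ := h.toApp0.rename' (σ := rl p) (φ' := φ')
    (fun i j hi hj e => h.inj _ _ hi hj (by rw [← hφ i hi, ← hφ j hj, e])) hφ
    (fun i hi h' => h.cl i hi (h7 i hi h'))
  refine ⟨φ', ⟨a, fun l hl => if_pos hl, ?_, ?_⟩, b⟩
  · intro l hl hu
    obtain ⟨i, hi, rfl⟩ := us_pmap.1 hu
    by_cases h' : i < 6
    · exact (h1 i h' hi).2.2
    · rw [h6 i h'] at hl; exact absurd hl h'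
  · intro l hu hl
    obtain ⟨i, hi, rfl⟩ := us_pmap.1 hu
    rw [hφ i hi]
    exact h2 i hi (h7 i hi hl)

structure POK (j : ℕ) : Prop where
  nd : ND (PP j)
  us : ∀ l < 6, Us (PP j) l ↔ l < tt j
  le : tt j ≤ 5
  pos : 1 ≤ tt j
  aut : ∀ μ ∈ aut j, isob (PP j) (PP j) μ.1 μ.2 = true
  root : ∀ r < tt j, ∃ μ ∈ TW.aut j, sg μ.1 r ∈ RR j

theorem pok_s {j : ℕ} (h : pieceOK j = true) : POK j := by
  simp only [pieceOK, an_iff, Nat.beq_eq, Nat.ble_eq, lall_iff, rall_iff, lany_iff] at h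
  obtain ⟨h1, h2, h3, h4, h5, h6⟩ := h
  refine ⟨ndb_nd h1, fun l hl => ?_, h3, h4, h5, fun r hr => ?_⟩
  · have := attOf_bit (PP j) l
    rw [h2, Nat.sub_eq, Nat.pow_eq, Nat.testBit_two_pow_sub_one] at this
    simpa [hl] using this.symm
  · obtain ⟨μ, a, r', b, c⟩ := h6 r hr
    exact ⟨μ, a, c ▸ b⟩

theorem pok : ∀ j ≤ 14, POK j := by
  have : rall 15 pieceOK = true := by decide +kernel
  exact fun j hj => pok_s ((rall_iff _ _).1 this j (by omega))

def Cov (G : MG V E) (j : ℕ) (T : List Ent) (n5 : Bool) : Prop :=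
  ∀ (lam : ℕ → V) (U : Set ℕ) (D : Set V) (ψ : ℕ → V) (π : ℕ → ℕ), App G (PP j) ψ →
    (∀ l < tt j, π l < 6 ∧ lam (π l) = ψ l ∧ π l ∈ U) → (n5 = true → ∃ l < tt j, π l = 5) →
    (∀ i, Us (PP j) i → 6 ≤ i → ψ i ∈ D) → ∃ e ∈ T, Part G lam U D (EA (PP j) ψ) e

theorem Cov.mono {j : ℕ} {T T' : List Ent} {n5 : Bool} (h : Cov G j T n5) (hT : ∀ e ∈ T, e ∈ T') :
    Cov G j T' n5 := by
  intro lam U D ψ π a b c d
  obtain ⟨e, h1, h2⟩ := h lam U D ψ π a b c d
  exact ⟨e, hT e h1, h2⟩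

theorem cover_s {j : ℕ} (hj : j ≤ 14) {T : List Ent} {n5 : Bool} (h : cover j T n5 = true) :
    Cov G j T n5 := by
  intro lam U D ψ π ha h1 h2 h3
  have hp := pok j hj
  have := hp.le
  simp only [cover, an_iff, lall_iff, st_eq, Nat.beq_eq] at h
  obtain ⟨u', a, b⟩ := allInj_s h.2 (f := π) (fun l hl => ⟨(h1 l hl).1, by simp⟩) (by
    intro l hl l' hl' e
    apply ha.inj _ _ ((hp.us l (by omega)).2 hl) ((hp.us l' (by omega)).2 hl')
    rw [← (h1 l hl).2.1, ← (h1 l' hl').2.1, e])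
  simp only [orr_iff, an_iff, nt_iff, tb_eq, zero_add] at b
  obtain ⟨e, he, μ, hμ, hc⟩ := mark_s (b.resolve_left fun h' => h'.2 (a 5 (Or.inr (h2 h'.1))))
  obtain ⟨φ1, c1, c2, c3, c4⟩ := ha.iso (hp.aut μ hμ) hp.nd
  have hl : ∀ l < tt j, sg μ.1 l < 6 := fun l hl =>
    ((isob_s (hp.aut μ hμ)).2.2 l ((hp.us l (by omega)).2 hl)).1 (by omega)
  have hπ := code_inj (fun l hl' => by
      have := hl l hl'
      rw [rl_eq, if_pos (by omega)]
      exact fld_lt _ _ _ (by omega))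
    (fun l hl => by have := (h1 l hl).1; omega) hc
  obtain ⟨φ2, d1, d2⟩ := embed (lam := lam) (U := U) (D := D) c1 (p := e.pi) (by
    intro l' hl' hu
    obtain ⟨l, e1, rfl, e2⟩ := c4 l' hu
    have hl := (hp.us l (e2.2 hl')).1 e1
    rw [hπ l hl, c3 l e1]
    exact h1 l hl) (by
    intro i' hu h6
    obtain ⟨i, e1, rfl, e2⟩ := c4 i' hu
    rw [c3 i e1]
    exact h3 i e1 (by omega))
  refine ⟨e, he, entOK_ok (h.1 e he).2, φ2, ?_⟩
  unfold eX
  rw [(h.1 e he).1]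
  exact ⟨d1, fun u w => (d2 u w).trans (c2 u w)⟩

theorem edge_app (hG : Min G) {u w : V} (h : G.Adj G.A u w) :
    ∃ ψ, App G (PP 0) ψ ∧ ψ 0 = u ∧ ψ 1 = w ∧ (∀ i, Us (PP 0) i → ¬ 6 ≤ i) ∧
      ∀ x y, EA (PP 0) ψ x y ↔ (u = x ∧ w = y) ∨ (u = y ∧ w = x) := by
  have n := hG.adj_ne h
  have hu : ∀ i, Us [(0, 1)] i → i = 0 ∨ i = 1 := by
    simp only [Us, List.mem_cons, List.not_mem_nil, or_false, exists_eq_left]
    omega
  rw [show PP 0 = [(0, 1)] from rfl]
  refine ⟨fun i => if i = 0 then u else w, App.of_list ?_ ?_ (by decide +kernel) ?_, rfl, rfl, ?_, ?_⟩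
  · simpa using h
  · intro i j hi hj
    rcases hu i hi with rfl | rfl <;> rcases hu j hj with rfl | rfl <;> simp [n, n.symm]
  · intro i hi h6
    have := hu i hi
    omega
  · intro i hi h6
    have := hu i hi
    omega
  · intro x y
    rw [ea_cons]
    simp [EA, Ed]

theorem Min.deg_nb (hG : Min G) {d : V} (hd : G.NI d) : 3 ≤ (G.nb {d}).card := by
  refine (hG.deg hd).trans (card_le_card_of_injOn (fun e => if G.l e = d then G.r e else G.l e) ?_ ?_)
  · intro e he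
    obtain ⟨heA, hi⟩ := mem_star.1 he
    have hen : G.Ends e d (if G.l e = d then G.r e else G.l e) := by
      split_ifs with h
      · exact Or.inl ⟨h, rfl⟩
      · exact Or.inr ⟨rfl, hi.resolve_left h⟩
    exact mem_nb.2 ⟨(hG.noloop heA hen).symm, d, rfl, e, heA, hen⟩
  · have hen : ∀ e ∈ G.star d, G.Ends e d (if G.l e = d then G.r e else G.l e) := by
      intro e he
      split_ifs with h
      · exact Or.inl ⟨h, rfl⟩
      · exact Or.inr ⟨rfl, (mem_star.1 he).2.resolve_left h⟩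
    intro e he f hf h
    simp only at h
    exact hG.simple (mem_star.1 he).1 (mem_star.1 hf).1 (hen e he) (h ▸ hen f hf)

theorem claw_app (hG : Min G) {d : V} (h : (G.nb {d}).card = 3) :
    ∃ ψ, App G (PP 1) ψ ∧ (∀ l < 3, ψ l ∈ G.nb {d}) ∧
      ∀ x y, EA (PP 1) ψ x y ↔ G.Adj G.A x y ∧ (x = d ∨ y = d) := by
  obtain ⟨a, b, c, n1, n2, n3, h⟩ := card_eq_three.1 h
  have hm : ∀ w, G.Adj G.A d w ↔ w = a ∨ w = b ∨ w = c := by
    intro w
    have := mem_nb (G := G) (D := {d}) (w := w)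
    simp only [h, mem_insert, mem_singleton, Set.mem_singleton_iff, exists_eq_left] at this
    rw [this]
    exact ⟨fun h => ⟨(hG.adj_ne h).symm, h⟩, fun h => h.2⟩
  have h1 := (hm a).2 (by simp)
  have h2 := (hm b).2 (by simp)
  have h3 := (hm c).2 (by simp)
  have n4 := hG.adj_ne h1
  have n5 := hG.adj_ne h2
  have n6 := hG.adj_ne h3
  have hu : ∀ i, Us [(6, 2), (1, 6), (0, 6)] i → i = 0 ∨ i = 1 ∨ i = 2 ∨ i = 6 := by
    simp only [Us, List.mem_cons, List.not_mem_nil, or_false, exists_eq_or_imp, exists_eq_left]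
    omega
  have he : ∀ x y, EA [(6, 2), (1, 6), (0, 6)]
      (fun i => if i = 0 then a else if i = 1 then b else if i = 2 then c else d) x y ↔
      G.Adj G.A x y ∧ (x = d ∨ y = d) := by
    intro x y
    have e0 : ¬ EA [] (fun i => if i = 0 then a else if i = 1 then b else if i = 2 then c else d) x y := by
      simp [EA, Ed]
    simp only [ea_cons, e0]
    simp only [OfNat.ofNat_ne_zero, OfNat.ofNat_ne_one, if_false, if_true, one_ne_zero, or_false,
      show (6 : ℕ) ≠ 2 by omega]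
    constructor
    · rintro ((⟨rfl, rfl⟩ | ⟨rfl, rfl⟩) | (⟨rfl, rfl⟩ | ⟨rfl, rfl⟩) | ⟨rfl, rfl⟩ | ⟨rfl, rfl⟩) <;>
        simp [h1, h2, h3, h1.symm, h2.symm, h3.symm]
    · rintro ⟨h', rfl | rfl⟩
      · rcases (hm y).1 h' with rfl | rfl | rfl <;> simp
      · rcases (hm x).1 h'.symm with rfl | rfl | rfl <;> simp
  rw [show PP 1 = [(6, 2), (1, 6), (0, 6)] from rfl]
  refine ⟨_, App.of_list ?_ ?_ (by decide +kernel) ?_, ?_, he⟩
  · simp [h3, h1.symm, h2.symm]
  · intro i j hi hj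
    rcases hu i hi with rfl | rfl | rfl | rfl <;> rcases hu j hj with rfl | rfl | rfl | rfl <;>
      simp [n1, n2, n3, n4, n5, n6, n1.symm, n2.symm, n3.symm, n4.symm, n5.symm, n6.symm]
  · intro i hi h6 w hw
    obtain rfl : i = 6 := by have := hu i hi; omega
    exact (he _ _).2 ⟨hw, Or.inl rfl⟩
  · intro l hl
    rw [h]
    interval_cases l <;> simp

theorem rn_inj {n a : ℕ} (hb : ∀ i, Us X i → i < n) :
    ∀ i j, Us X i → Us X j → rn a n i = rn a n j → i = j := by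
  intro i j hi hj
  have := hb i hi
  have := hb j hj
  simp only [rn_eq]
  split_ifs <;> omega

theorem App.forget (h : App G X φ) {n a : ℕ} (hb : ∀ i, Us X i → i < n) (hc : Clo G X φ (φ a)) :
    App G (pmap (rn a n) X) (fun i => if i = n then φ a else φ i) ∧
      ∀ u w, EA (pmap (rn a n) X) (fun i => if i = n then φ a else φ i) u w ↔ EA X φ u w := by
  refine h.toApp0.rename' (rn_inj hb) ?_ ?_
  · intro i hi
    have := hb i hi
    rw [rn_eq]
    by_cases h' : i = a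
    · simp [h']
    · rw [if_neg h', if_neg (by omega)]
  · intro i hi h6
    rw [rn_eq] at h6
    split_ifs at h6 with h'
    · exact h' ▸ hc
    · exact h.cl i hi h6

theorem App.add (hG : Min G) (h : App G X φ) {a b : ℕ} (ha : Us X a) (hb : Us X b)
    (hab : G.Adj G.A (φ a) (φ b)) (hn : ¬ EA X φ (φ a) (φ b)) : App G ((a, b) :: X) φ := by
  refine ⟨h.toApp0.cons hG hab hn (fun i hi => h.inj _ _ hi ha) (fun i hi => h.inj _ _ hi hb), ?_⟩
  intro i hi h6
  have : Us X i := by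
    rcases us_cons.1 hi with (rfl | rfl) | hi <;> assumption
  exact (h.cl i this h6).mono fun u w h => ea_cons.2 (Or.inr h)

theorem App.pend (hG : Min G) (h : App G X φ) {n a : ℕ} (hb : ∀ i, Us X i → i < n) (ha : Us X a)
    (ha6 : a < 6) {w : V} (hw : ¬ ∃ i, Us X i ∧ φ i = w) (haw : G.Adj G.A (φ a) w)
    (hc : ∀ z, G.Adj G.A (φ a) z → EA X φ (φ a) z ∨ z = w) :
    ∃ φ', App G ((n, a) :: pmap (rn a n) X) φ' ∧ φ' a = w ∧ (∀ i, Us X i → i ≠ a → φ' i = φ i) ∧
      ∀ x y, EA ((n, a) :: pmap (rn a n) X) φ' x y ↔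
        ((φ a = x ∧ w = y) ∨ (φ a = y ∧ w = x)) ∨ EA X φ x y := by
  have han := hb a ha
  let φ' : ℕ → V := fun i => if i = n then φ a else if i = a then w else φ i
  have e1 : φ' n = φ a := if_pos rfl
  have e2 : φ' a = w := (if_neg (by omega)).trans (if_pos rfl)
  have e3 : ∀ i, Us X i → i ≠ a → φ' i = φ i := fun i hi hia =>
    (if_neg (by have := hb i hi; omega)).trans (if_neg hia)
  have hφ : ∀ i, Us X i → φ' (rn a n i) = φ i := by
    intro i hi
    rw [rn_eq]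
    split_ifs with h'
    · rw [e1, h']
    · exact e3 i hi h'
  obtain ⟨a1, a2⟩ := h.toApp0.rename (rn_inj hb) hφ
  have he : ∀ x y, EA ((n, a) :: pmap (rn a n) X) φ' x y ↔
      ((φ a = x ∧ w = y) ∨ (φ a = y ∧ w = x)) ∨ EA X φ x y := by
    intro x y
    rw [ea_cons, a2, e1, e2]
  refine ⟨φ', ⟨a1.cons hG (by rwa [e1, e2]) ?_ ?_ ?_, ?_⟩, e2, e3, he⟩
  · rw [a2, e2]
    exact fun h' => hw h'.symm.us
  · intro j hj e
    obtain ⟨i, hi, rfl⟩ := us_pmap.1 hj
    rw [hφ i hi, e1] at e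
    rw [h.inj _ _ hi ha e, rn_eq, if_pos rfl]
  · intro j hj e
    obtain ⟨i, hi, rfl⟩ := us_pmap.1 hj
    rw [hφ i hi, e2] at e
    exact absurd ⟨i, hi, e⟩ hw
  · have hn : Clo G ((n, a) :: pmap (rn a n) X) φ' (φ a) := by
      intro z hz
      rw [he]
      rcases hc z hz with h' | rfl
      · exact Or.inr h'
      · exact Or.inl (Or.inl ⟨rfl, rfl⟩)
    intro j hj h6
    rcases us_cons.1 hj with (rfl | rfl) | hj
    · exact e1 ▸ hn
    · simp only at h6; omega
    · obtain ⟨i, hi, rfl⟩ := us_pmap.1 hj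
      rw [hφ i hi]
      rw [rn_eq] at h6
      split_ifs at h6 with h'
      · exact h' ▸ hn
      · exact (h.cl i hi h6).mono fun u w h => (he _ _).2 (Or.inr h)

end Pool.Agent.MP_e6539c_co.TW

end MrgPart1

-- ======== part 2: formerly Pool.Agent.MP_e6539c_co.TW.Rules
section MrgPart2

/-!
Rules that use the structure of the rest of the graph.
-/

set_option autoImplicit false

namespace Pool.Agent.MP_e6539c_co.TW

open Finset MG
open Classical

set_option linter.unusedSectionVars false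

variable {V E : Type} [Fintype V] {G : MG V E} {X : EL} {φ : ℕ → V}

def Out (X : EL) (φ : ℕ → V) : Set V := {v | ¬ ∃ i, Us X i ∧ φ i = v}

theorem cnt_eq (n x : ℕ) : cnt n x = ((range n).filter (fun i => x.testBit i = true)).card := by
  induction n with
  | zero => rfl
  | succ n ih =>
    change cd (tb x n) (Nat.succ (cnt n x)) (cnt n x) = _
    rw [range_add_one, filter_insert, cd_eq, tb_eq, ih]
    split_ifs
    · rw [card_insert_of_notMem (by simp)]
    · rfl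

theorem five_s (h : App0 G X φ) (h5 : five X = true) (T : Finset V) (hT : T.card ≤ 3) :
    ∃ i j, Us X i ∧ Us X j ∧ φ i ≠ φ j ∧ φ i ∉ T ∧ φ j ∉ T := by
  simp only [five, st_eq, Nat.ble_eq, cnt_eq, usedOf_bit] at h5
  rw [← card_image_of_injOn (f := φ) (fun i hi j hj =>
    h.inj _ _ (mem_filter.1 hi).2 (mem_filter.1 hj).2)] at h5
  have := le_card_sdiff T (((range 32).filter (Us X)).image φ)
  obtain ⟨u, hu, w, hw, hne⟩ := one_lt_card.1
    (show 1 < ((((range 32).filter (Us X)).image φ) \ T).card by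
      have e : ((range 32).filter (Us X)).image φ = image φ {i ∈ range 32 | Us X i} := rfl
      omega)
  rw [mem_sdiff, mem_image] at hu hw
  obtain ⟨⟨i, hi, rfl⟩, hu⟩ := hu
  obtain ⟨⟨j, hj, rfl⟩, hw⟩ := hw
  exact ⟨i, j, (mem_filter.1 hi).2, (mem_filter.1 hj).2, hne, hu, hw⟩

theorem out_ctx {e : E} (he : e ∈ G.A) {u : V} (hu : u ∈ Out X φ) (hi : G.Inc e u) :
    e ∈ G.A \ BX G X φ := mem_sdiff.2 ⟨he, fun h => hu (BX_us h hi)⟩

theorem App.out_lab (h : App G X φ) {u : V} (hu : u ∈ Out X φ) {i : ℕ} (hi : Us X i)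
    (ha : G.Adj G.A u (φ i)) : i < 6 := by
  obtain ⟨e, he, hen⟩ := ha
  exact h.ctx_lab (out_ctx he hu hen.inc_left) hi hen.inc_right

theorem starX_mem {n N : ℕ} {p : ℕ × ℕ} (h : p ∈ starX n N X) :
    p ∈ X ∨ (p.1 < 6 ∧ N.testBit p.1 = true ∧ p.2 = n) := by
  have : ∀ k, p ∈ (Nat.rec X (fun l acc => cd (tb N l) ((l, n) :: acc) acc) k : EL) →
      p ∈ X ∨ (p.1 < k ∧ N.testBit p.1 = true ∧ p.2 = n) := by
    intro k
    induction k with
    | zero => exact Or.inl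
    | succ k ih =>
      simp only [cd_eq, tb_eq] at ih ⊢
      have ih' := fun h => (ih h).imp_right fun h => And.intro (Nat.lt_succ_of_lt h.1) h.2
      split_ifs with hb
      · intro h'
        rcases List.mem_cons.1 h' with rfl | h'
        · exact Or.inr ⟨by simp, hb, rfl⟩
        · exact ih' h'
      · exact ih'
  exact this 6 h

theorem stars_s {c : Cfg} {ns : List ℕ} (h : stars c ns = true) {N : ℕ} (hN : N < 64)
    (h1 : sub N c.att = true) (h2 : 4 ≤ cnt 6 N) : ∃ s, star1 c N s = true := by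
  unfold stars at h
  generalize 64 = n at h hN
  induction n generalizing ns with
  | zero => omega
  | succ n ih =>
    simp only [cd_eq, an_iff, Nat.ble_eq] at h ih
    split_ifs at h with h'
    · cases ns with
      | nil => simp at h
      | cons s r =>
        change an _ _ = true at h
        rw [an_iff] at h
        by_cases e : N = n
        · exact ⟨s, e ▸ h.1⟩
        · exact ih h.2 (by omega)
    · exact ih h (by
        by_contra hc
        obtain rfl : N = n := by omega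
        exact h' ⟨h1, h2⟩)

theorem star1_s (hG : Min G) {c : Cfg} (hc : c.OK) (h : App G c.X φ) {D : Set V}
    (hD : G.CSet G.A D) (hO : D ⊆ Out c.X φ) {N s : ℕ}
    (hN : ∀ l, N.testBit l = true → l < 6 ∧ Us c.X l ∧ φ l ∈ G.nb D)
    (hs : star1 c N s = true) : False := by
  unfold star1 at hs
  generalize Nat.mod s 2 = t at hs
  cases t with
  | zero =>
    change st _ _ = true at hs
    rw [st_eq] at hs
    have hu : ∀ i, Us (starX c.n N c.X) i → i ≠ c.n → Us c.X i := by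
      rintro i ⟨p, hp, h'⟩ hi
      rcases starX_mem hp with hp | hp
      · exact ⟨p, hp, h'⟩
      · rcases h' with rfl | rfl
        · exact (hN _ hp.2.1).2.1
        · exact absurd hp.2.2 hi
    have he : ∀ a b, (a, b) ∈ starX c.n N c.X → ∃ u ∈ (if a = c.n then D else {φ a}),
        ∃ w ∈ (if b = c.n then D else {φ b}), G.Adj G.A u w := by
      intro a b hp
      rcases starX_mem hp with hp | hp
      · rw [if_neg (hc.bnd _ (us_l hp)).ne, if_neg (hc.bnd _ (us_r hp)).ne]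
        exact ⟨_, rfl, _, rfl, h.adj _ _ (Or.inl hp)⟩
      · obtain ⟨-, a1, a2⟩ := hN _ hp.2.1
        obtain ⟨-, u, hu, a3⟩ := mem_nb.1 a2
        rw [if_neg (hc.bnd _ a1).ne, if_pos hp.2.2]
        exact ⟨_, rfl, u, hu, a3.symm⟩
    refine hG.np (pet_s (Φ := fun i => if i = c.n then D else {φ i}) ?_ ?_ ?_ (adjOf_s _) hs)
    · intro i _
      split_ifs
      · exact hD
      · intro u hu v hv
        rw [hu, hv]
        exact Conn.refl _
    · intro i j v hi hj a b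
      by_cases e1 : i = c.n <;> by_cases e2 : j = c.n <;> simp only [e1, e2, if_true, if_false] at a b
      · rw [e1, e2]
      · exact absurd ⟨j, hu j hj e2, b.symm⟩ (hO a)
      · exact absurd ⟨i, hu i hi e1, a.symm⟩ (hO b)
      · exact h.inj _ _ (hu i hi e1) (hu j hj e2) (a.symm.trans b)
    · rintro a b (hp | hp)
      · exact he a b hp
      · obtain ⟨u, hu, w, hw, h'⟩ := he b a hp
        exact ⟨w, hw, u, hu, h'.symm⟩
  | succ t =>
    refine red_s hG hc h ?_ (lb_zero _) hs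
    intro Y hY
    obtain ⟨⟨i, i1, i2⟩, j, j1, j2⟩ := (ntm_bit (fun l hl => (hN l hl).1) (tr_lt 6 _)).1 hY
    rw [tr_bit] at i2 j2
    have hD' : G.CSet (G.A \ BX G c.X φ) D := cset_inc hD fun e he => by
      obtain ⟨he, u, hu, hi⟩ := mem_inc.1 he
      exact out_ctx he (hO hu) hi
    obtain ⟨-, u, hu, e, he, hen⟩ := mem_nb.1 (hN i i1).2.2
    obtain ⟨-, w, hw, f, hf, hfn⟩ := mem_nb.1 (hN j j1).2.2
    have : G.Conn (G.A \ BX G c.X φ) Set.univ (φ i) (φ j) :=
      (Conn.single (Set.mem_univ _) (Set.mem_univ _)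
        ⟨e, out_ctx he (hO hu) hen.inc_left, hen.symm⟩).trans
      (((hD' u hu w hw).mono subset_rfl (Set.subset_univ _)).trans
        (Conn.single (Set.mem_univ _) (Set.mem_univ _) ⟨f, out_ctx hf (hO hw) hfn.inc_left, hfn⟩))
    obtain ⟨g, hg, -⟩ := this.cross (Y := Y) (fun h => j2 ⟨(hN j j1).1, h.1 i2.2⟩)
    exact card_pos.2 ⟨g, hg⟩

theorem fin_s (hG : Min G) {c : Cfg} (hc : c.OK) (h : App G c.X φ)
    (hall : ∀ u w, G.Adj G.A u w → EA c.X φ u w) {s : ℕ} (hs : fin c s = true) : False := by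
  have h0 : G.A \ BX G c.X φ = ∅ := by
    apply eq_empty_of_forall_notMem
    intro e he
    rw [mem_ctx (ends_lr e)] at he
    exact he.2 (hall _ _ ⟨e, he.1, ends_lr e⟩)
  rcases s with _ | _ | s
  · change tb c.F 0 = true at hs
    have := ctx_F hG h.toApp0 hc.F (x := 0) (by omega) ⟨0, by simp [h0, NZ],
      by simp [h0, bd, pv, ext_zero], fun l _ _ => ext_zero l⟩
    rw [Nat.xor_eq, Nat.testBit_xor, a1k_bit, ← tb_eq, hs] at this
    simp at this
  · obtain ⟨t, ht⟩ := nz_ex hs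
    rw [Nat.land_eq, Nat.testBit_and, Bool.and_eq_true] at ht
    have h64 : t < 64 := ((mkM_bit _ _ _).1 ht.2).1
    obtain ⟨W, a, b⟩ := hc.L2 t h64 ht.1
    obtain ⟨Y', c1, d⟩ := h.cut_wit hG {v | ∃ i, Us c.X i ∧ φ i = v ∧ W i} W (fun l _ hu =>
      ⟨fun h => ⟨l, hu, rfl, h⟩, fun ⟨i, h1, h2, h3⟩ => h.inj _ _ h1 hu h2 ▸ h3⟩)
    obtain ⟨⟨i, i1, i2⟩, j, j1, j2⟩ := (ntm_bit (fun l hl => ((hc.att l).1 hl).1) h64).1 ht.2
    rw [hc.att] at i1 j1
    have := hG.cut_ge_three (Y := Y') ((d i i1.2).2 ((a i i1.1).2 i2))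
      (fun h' => j2 ((a j j1.1).1 ((d j j1.2).1 h'))) (h.ni i1.2) (h.ni j1.2)
    simp only [h0, cut, filter_empty, card_empty] at c1 this
    omega
  · exact kill0_s hG hc h hs

theorem lfil_mem {α : Type} {p : α → Bool} {l : List α} {a : α} (h : a ∈ l) (hp : p a = true) :
    a ∈ lfil p l := by
  induction l with
  | nil => simp at h
  | cons b l ih =>
    change a ∈ cd (p b) (b :: lfil p l) (lfil p l)
    rw [cd_eq]
    rcases List.mem_cons.1 h with rfl | h
    · simp [hp]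
    · split_ifs
      · exact List.mem_cons_of_mem _ (ih h)
      · exact ih h

theorem chk1_s (hG : Min G) {SC : List Ent} (h0 : Cov G 0 SC false) (h1 : Cov G 1 SC false)
    {c : Cfg} (hc : c.OK) (h : App G c.X φ) {k : K1} (hk : chk1 SC c k = true) : False := by
  unfold chk1 at hk
  rw [force_eq] at hk
  cases k with
  | k0 s => exact kill0_s hG hc h hk
  | star ns ks a t =>
  simp only [an_iff] at hk
  obtain ⟨k1, k2, k3⟩ := hk
  have hnb : ∀ D ⊆ Out c.X φ, ∀ w ∈ G.nb D, w ∉ Out c.X φ → ∃ l < 6, Us c.X l ∧ φ l = w := by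
    intro D hD w hw hw'
    obtain ⟨i, hi, rfl⟩ := not_not.1 hw'
    obtain ⟨-, u, hu, ha⟩ := mem_nb.1 hw
    exact ⟨i, h.out_lab (hD hu) hi ha, hi, rfl⟩
  have hclaw : ∀ d ∈ Out c.X φ, G.NI d → (G.nb {d}).card = 3 ∧ ∀ w ∈ G.nb {d}, w ∉ Out c.X φ := by
    intro d hd hn
    have hsub : G.comp (Out c.X φ) d ⊆ Out c.X φ := fun v hv => hv.1
    have h3 : (G.nb (G.comp (Out c.X φ) d)).card ≤ 3 := by
      by_contra h4
      let N := tr 6 (fun l => Us c.X l ∧ φ l ∈ G.nb (G.comp (Out c.X φ) d))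
      obtain ⟨s, hs⟩ := stars_s k2 (N := N) (tr_lt 6 _) (by
        rw [sub_iff]
        intro l hl
        rw [tr_bit] at hl
        exact (hc.att l).2 ⟨hl.1, hl.2.1⟩) (by
        rw [cnt_eq]
        refine le_trans (by omega) ((card_le_card (s := G.nb (G.comp (Out c.X φ) d)) ?_).trans
          (card_image_le (f := φ)))
        intro w hw
        obtain ⟨l, a, b, rfl⟩ := hnb _ hsub w hw (nb_comp hw)
        exact mem_image_of_mem _ (mem_filter.2 ⟨mem_range.2 a, (tr_bit _ _ _).2 ⟨a, b, hw⟩⟩))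
      exact star1_s hG hc h (comp_cset _ d) hsub (fun l hl => (tr_bit _ _ _).1 hl) hs
    obtain ⟨i, j, a1, a2, a3, a4, a5⟩ := five_s h.toApp0 k1 _ h3
    have := (hG.q4 (comp_cset _ d) (comp_self hd) hn h3 (h.ni a1) (h.ni a2) a3
      (fun h' => hsub h' ⟨i, a1, rfl⟩) a4 (fun h' => hsub h' ⟨j, a2, rfl⟩) a5).1
    have e : G.comp (Out c.X φ) d = {d} := Set.eq_singleton_iff_unique_mem.2 ⟨comp_self hd, this⟩
    refine ⟨le_antisymm (e ▸ h3) (hG.deg_nb hn), fun w hw => nb_comp (u := d) (e ▸ hw)⟩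
  let R : V ⊕ ℕ × ℕ → V → V → Prop := Sum.elim (fun d x y => G.Adj G.A x y ∧ (x = d ∨ y = d))
    (fun p x y => (φ p.1 = x ∧ φ p.2 = y) ∨ (φ p.1 = y ∧ φ p.2 = x))
  let P : Finset (V ⊕ ℕ × ℕ) := (univ.filter (fun d => d ∈ Out c.X φ ∧ G.NI d)).disjSum
    ((range 6 ×ˢ range 6).filter (fun p => p.1 < p.2 ∧ Us c.X p.1 ∧ Us c.X p.2 ∧
      G.Adj G.A (φ p.1) (φ p.2) ∧ ¬ EA c.X φ (φ p.1) (φ p.2)))
  have hP1 : ∀ d, Sum.inl d ∈ P ↔ d ∈ Out c.X φ ∧ G.NI d := by simp [P]
  have hP2 : ∀ a b, Sum.inr (a, b) ∈ P ↔ (a < 6 ∧ b < 6) ∧ a < b ∧ Us c.X a ∧ Us c.X b ∧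
      G.Adj G.A (φ a) (φ b) ∧ ¬ EA c.X φ (φ a) (φ b) := by simp [P]
  have hfil : ∀ R' : V → V → Prop, (∃ e ∈ SC, Part G φ {l | l < 6 ∧ Us c.X l} Set.univ R' e) →
      ∃ e ∈ lfil (fun e => sub e.att c.att) SC, Part G φ {l | l < 6 ∧ Us c.X l} Set.univ R' e := by
    rintro R' ⟨e, he, hp⟩
    refine ⟨e, lfil_mem he ((sub_iff _ _).2 fun l hl => ?_), hp⟩
    obtain ⟨⟨F, hF, -⟩, ψ, hs, -⟩ := hp
    have := (hF.att l).1 hl
    exact (hc.att l).2 (hs.lu l this.1 this.2)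
  obtain ⟨c', φ', a', b1, b2, b3, b4⟩ := node_s hG (lam := φ) (U := {l | l < 6 ∧ Us c.X l})
    (D := Set.univ) (R := R) (P := P) (fun i hi j hj => h.inj _ _ hi.2 hj.2) hc
    ⟨h, fun _ _ => rfl, fun l a b => ⟨a, b⟩, fun _ _ _ => Set.mem_univ _⟩ (by
      rintro (d | ⟨a, b⟩) hi <;> apply hfil
      · rw [hP1] at hi
        obtain ⟨ψ, a1, a2, a3⟩ := claw_app hG (hclaw d hi.1 hi.2).1
        have : ∀ l, ∃ m, l < 3 → m < 6 ∧ φ m = ψ l ∧ m < 6 ∧ Us c.X m := by
          intro l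
          by_cases hl : l < 3
          · obtain ⟨m, b1, b2, b3⟩ := hnb {d} (by simpa using hi.1) _ (a2 l hl)
              ((hclaw d hi.1 hi.2).2 _ (a2 l hl))
            exact ⟨m, fun _ => ⟨b1, b3, b1, b2⟩⟩
          · exact ⟨0, fun h => absurd h hl⟩
        choose π hπ using this
        have e : R (Sum.inl d) = EA (PP 1) ψ := by
          ext x y
          exact (a3 x y).symm
        rw [e]
        exact h1 _ _ _ ψ π a1 hπ (by simp) (fun _ _ _ => Set.mem_univ _)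
      · rw [hP2] at hi
        obtain ⟨ψ, a1, a2, a3, -, a4⟩ := edge_app hG hi.2.2.2.2.1
        have e : R (Sum.inr (a, b)) = EA (PP 0) ψ := by
          ext x y
          exact (a4 x y).symm
        rw [e]
        refine h0 _ _ _ ψ (fun l => if l = 0 then a else b) a1 ?_ (by simp)
          (fun _ _ _ => Set.mem_univ _)
        intro l hl
        change l < 2 at hl
        interval_cases l
        · exact ⟨hi.1.1, a2.symm, hi.1.1, hi.2.2.1⟩
        · exact ⟨hi.1.2, a3.symm, hi.1.2, hi.2.2.2.1⟩) (by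
      rintro (d | ⟨a, b⟩) hi u w he
      · rw [hP1] at hi
        rintro ⟨-, rfl | rfl⟩
        · exact hi.1 he.us
        · exact hi.1 he.symm.us
      · rw [hP2] at hi
        rintro (⟨rfl, rfl⟩ | ⟨rfl, rfl⟩)
        · exact hi.2.2.2.2.2 he
        · exact hi.2.2.2.2.2 he.symm) (by
      have mix : ∀ d a b, Sum.inl d ∈ P → Sum.inr (a, b) ∈ P → ∀ u w, R (Sum.inl d) u w →
          ¬ R (Sum.inr (a, b)) u w := by
        intro d a b hi hj u w
        rw [hP1] at hi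
        rw [hP2] at hj
        rintro ⟨-, rfl | rfl⟩ (⟨e1, e2⟩ | ⟨e1, e2⟩)
        · exact hi.1 ⟨_, hj.2.2.1, e1⟩
        · exact hi.1 ⟨_, hj.2.2.2.1, e2⟩
        · exact hi.1 ⟨_, hj.2.2.2.1, e2⟩
        · exact hi.1 ⟨_, hj.2.2.1, e1⟩
      rintro (d | ⟨a, b⟩) hi (d' | ⟨a', b'⟩) hj hne u w
      · rw [hP1] at hi hj
        have n : d ≠ d' := fun e => hne (by rw [e])
        have key : ¬ G.Adj G.A d d' := fun h' => (hclaw d hi.1 hi.2).2 d'
          (mem_nb.2 ⟨n.symm, d, rfl, h'⟩) hj.1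
        rintro ⟨h', rfl | rfl⟩ ⟨-, rfl | rfl⟩
        · exact n rfl
        · exact key h'
        · exact key h'.symm
        · exact n rfl
      · exact mix _ _ _ hi hj u w
      · exact fun h1 h2 => mix _ _ _ hj hi u w h2 h1
      · rw [hP2] at hi hj
        rintro (⟨rfl, rfl⟩ | ⟨rfl, rfl⟩) (⟨e1, e2⟩ | ⟨e1, e2⟩)
        · exact hne (by rw [h.inj _ _ hj.2.2.1 hi.2.2.1 e1, h.inj _ _ hj.2.2.2.1 hi.2.2.2.1 e2])
        · have := h.inj _ _ hj.2.2.1 hi.2.2.2.1 e1
          have := h.inj _ _ hj.2.2.2.1 hi.2.2.1 e2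
          omega
        · have := h.inj _ _ hj.2.2.1 hi.2.2.2.1 e1
          have := h.inj _ _ hj.2.2.2.1 hi.2.2.1 e2
          omega
        · exact hne (by rw [h.inj _ _ hj.2.2.1 hi.2.2.1 e1, h.inj _ _ hj.2.2.2.1 hi.2.2.2.1 e2])) k3
  refine fin_s hG b1 b3.app (fun u w huw => (b4 u w).2 ?_) b2
  by_cases hu : u ∈ Out c.X φ
  · exact Or.inr ⟨Sum.inl u, (hP1 _).2 ⟨hu, huw.ni⟩, huw, Or.inl rfl⟩
  by_cases hw : w ∈ Out c.X φ
  · exact Or.inr ⟨Sum.inl w, (hP1 _).2 ⟨hw, huw.symm.ni⟩, huw, Or.inr rfl⟩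
  obtain ⟨i, hi, rfl⟩ := not_not.1 hu
  obtain ⟨j, hj, rfl⟩ := not_not.1 hw
  rw [or_iff_not_imp_left]
  intro hn
  have hi6 : i < 6 := by
    by_contra h6
    exact hn (h.cl i hi (by omega) _ huw)
  have hj6 : j < 6 := by
    by_contra h6
    exact hn (h.cl j hj (by omega) _ huw.symm).symm
  rcases lt_trichotomy i j with h' | rfl | h'
  · exact ⟨Sum.inr (i, j), (hP2 _ _).2 ⟨⟨hi6, hj6⟩, h', hi, hj, huw, hn⟩, Or.inl ⟨rfl, rfl⟩⟩
  · exact absurd rfl (hG.adj_ne huw)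
  · exact ⟨Sum.inr (j, i), (hP2 _ _).2 ⟨⟨hj6, hi6⟩, h', hj, hi, huw.symm, fun h => hn h.symm⟩,
      Or.inr ⟨rfl, rfl⟩⟩

end Pool.Agent.MP_e6539c_co.TW

end MrgPart2

-- ======== part 3: formerly Pool.Agent.MP_e6539c_co.TW.Ext
section MrgPart3

/-!
Small cuts of the rest of the graph around one or two labelled vertices.
-/

set_option autoImplicit false

namespace Pool.Agent.MP_e6539c_co.TW

open Finset MG
open Classical

set_option linter.unusedSectionVars false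

variable {V E : Type} [Fintype V] {G : MG V E} {X : EL} {φ : ℕ → V}

theorem step_cases (h : App G X φ) (Y : Set V) {x z : V} (hx : x ∈ Y) (ha : G.Adj G.A x z)
    (hn : ¬ EA X φ x z) : z ∈ Out X φ ∩ Y ∨ (∃ l < 6, Us X l ∧ φ l = z ∧ z ∈ Y) ∨
      (z ∉ Y ∧ ∃ e ∈ G.cut (G.A \ BX G X φ) Y, G.Ends e x z) := by
  obtain ⟨e, he, hen⟩ := ha
  have hc := (mem_ctx hen).2 ⟨he, hn⟩
  by_cases hz : z ∈ Y
  · by_cases ho : z ∈ Out X φ
    · exact Or.inl ⟨ho, hz⟩
    · obtain ⟨i, hi, rfl⟩ := not_not.1 ho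
      exact Or.inr (Or.inl ⟨i, h.ctx_lab hc hi hen.inc_right, hi, rfl, hz⟩)
  · exact Or.inr (Or.inr ⟨hz, e, hen.mem_cut_iff.2 ⟨hc, by tauto⟩, hen⟩)

theorem nb_cases (h : App G X φ) (Y : Set V) {w z : V} (hz : z ∈ G.nb (G.comp (Out X φ ∩ Y) w)) :
    (∃ l < 6, Us X l ∧ φ l = z ∧ z ∈ Y) ∨ (z ∉ Y ∧ ∃ x ∈ G.comp (Out X φ ∩ Y) w,
      ∃ e ∈ G.cut (G.A \ BX G X φ) Y, G.Ends e x z) := by
  obtain ⟨-, x, hx, ha⟩ := mem_nb.1 hz
  rcases step_cases h Y hx.1.2 ha (fun h' => hx.1.1 h'.us) with h' | h' | h'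
  · exact absurd h' (nb_comp hz)
  · exact Or.inl h'
  · exact Or.inr ⟨h'.1, x, hx, h'.2⟩

theorem ext1 (hG : Min G) (h : App G X φ) (h5 : five X = true) {Y : Set V} {a : ℕ} (ha : φ a ∈ Y)
    (hY : ∀ l < 6, Us X l → φ l ∈ Y → l = a) (hc : G.cut (G.A \ BX G X φ) Y = ∅) :
    Clo G X φ (φ a) := by
  intro w hw
  by_contra hn
  rcases step_cases h Y ha hw hn with h' | ⟨l, a1, a2, rfl, a3⟩ | ⟨-, e, he, -⟩
  · have hsub : G.nb (G.comp (Out X φ ∩ Y) w) ⊆ {φ a} := by
      intro z hz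
      rcases nb_cases h Y hz with ⟨l, a1, a2, rfl, a3⟩ | ⟨-, _, -, e, he, -⟩
      · rw [hY l a1 a2 a3]; simp
      · simp [hc] at he
    obtain ⟨i, -, a1, -, -, a4, -⟩ := five_s h.toApp0 h5 {φ a} (by simp)
    exact a4 (hsub (hG.q3 (comp_cset _ w) (comp_self h') hw.symm.ni
      ((card_le_card hsub).trans (by simp)) (h.ni a1) (fun h'' => h''.1.1 ⟨i, a1, rfl⟩)))
  · exact hG.adj_ne hw (by rw [hY l a1 a2 a3])
  · simp [hc] at he

theorem ext2 (hG : Min G) (h : App G X φ) (h5 : five X = true) {Y : Set V} {a b : ℕ}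
    (hab : φ a ≠ φ b) (ua : Us X a) (ub : Us X b) (ha : φ a ∈ Y) (hb : φ b ∈ Y)
    (hY : ∀ l < 6, Us X l → φ l ∈ Y → l = a ∨ l = b)
    (hc : (G.cut (G.A \ BX G X φ) Y).card ≤ 1) :
    (∀ z, G.Adj G.A (φ a) z → EA X φ (φ a) z ∨ z = φ b) ∨
    (∀ z, G.Adj G.A (φ b) z → EA X φ (φ b) z ∨ z = φ a) ∨
    ∃ w ∈ Out X φ, G.Adj G.A (φ a) w ∧ G.Adj G.A (φ b) w ∧
      (∀ z, G.Adj G.A (φ a) z → EA X φ (φ a) z ∨ z = w) ∧
      ∀ z, G.Adj G.A (φ b) z → EA X φ (φ b) z ∨ z = w := by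
  obtain ⟨x0, z0, h0⟩ : ∃ x0 z0, ∀ e ∈ G.cut (G.A \ BX G X φ) Y, ∀ x z, G.Ends e x z → x ∈ Y →
      z ∉ Y → x = x0 ∧ z = z0 := by
    by_cases hex : ∃ e ∈ G.cut (G.A \ BX G X φ) Y, ∃ x z, G.Ends e x z ∧ x ∈ Y ∧ z ∉ Y
    · obtain ⟨e, he, x, z, a1, a2, a3⟩ := hex
      refine ⟨x, z, fun e' he' x' z' b1 b2 b3 => ?_⟩
      obtain rfl := card_le_one.1 hc _ he _ he'
      rcases b1.unique a1 with h' | h'
      · exact h'
      · exact absurd (h'.1 ▸ b2) a3
    · exact ⟨φ a, φ a, fun e he x z a1 a2 a3 => absurd ⟨e, he, x, z, a1, a2, a3⟩ hex⟩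
  have hZ : ∀ w ∈ Out X φ ∩ Y, G.NI w → w = x0 ∧ G.Adj G.A (φ a) w ∧ G.Adj G.A (φ b) w := by
    intro w hw hn
    have hsub : ∀ z ∈ G.nb (G.comp (Out X φ ∩ Y) w), z = φ a ∨ z = φ b ∨
        (z = z0 ∧ x0 ∈ G.comp (Out X φ ∩ Y) w) := by
      intro z hz
      rcases nb_cases h Y hz with ⟨l, a1, a2, rfl, a3⟩ | ⟨a1, x, hx, e, he, hen⟩
      · rcases hY l a1 a2 a3 with rfl | rfl <;> simp
      · obtain ⟨rfl, rfl⟩ := h0 e he x z hen hx.1.2 a1
        exact Or.inr (Or.inr ⟨rfl, hx⟩)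
    have h3 : (G.nb (G.comp (Out X φ ∩ Y) w)).card ≤ 3 := by
      refine (card_le_card (t := {φ a, φ b, z0}) fun z hz => ?_).trans card_le_three
      have := hsub z hz
      simp only [mem_insert, mem_singleton]
      tauto
    obtain ⟨i, j, a1, a2, a3, a4, a5⟩ := five_s h.toApp0 h5 _ h3
    have := (hG.q4 (comp_cset _ w) (comp_self hw) hn h3 (h.ni a1) (h.ni a2) a3
      (fun h' => h'.1.1 ⟨i, a1, rfl⟩) a4 (fun h' => h'.1.1 ⟨j, a2, rfl⟩) a5).1
    have e : G.comp (Out X φ ∩ Y) w = {w} := Set.eq_singleton_iff_unique_mem.2 ⟨comp_self hw, this⟩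
    rw [e] at hsub
    have two : ∀ p q : V, ¬ ∀ z ∈ G.nb {w}, z = p ∨ z = q := by
      intro p q h'
      have := (card_le_card (s := G.nb {w}) (t := {p, q}) fun z hz => by
        simpa using h' z hz).trans card_le_two
      have := hG.deg_nb hn
      omega
    have adj : ∀ z ∈ G.nb {w}, G.Adj G.A z w := fun z hz => by
      obtain ⟨-, u, rfl, h'⟩ := mem_nb.1 hz
      exact h'.symm
    refine ⟨?_, ?_, ?_⟩ <;> by_contra hc
    · refine two (φ a) (φ b) fun z hz => ?_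
      rcases hsub z hz with h' | h' | h'
      · exact Or.inl h'
      · exact Or.inr h'
      · exact absurd h'.2.symm hc
    · refine two (φ b) z0 fun z hz => ?_
      rcases hsub z hz with h' | h' | h'
      · exact absurd (h' ▸ adj z hz) hc
      · exact Or.inl h'
      · exact Or.inr h'.1
    · refine two (φ a) z0 fun z hz => ?_
      rcases hsub z hz with h' | h' | h'
      · exact Or.inl h'
      · exact absurd (h' ▸ adj z hz) hc
      · exact Or.inr h'.1
  have cn : ∀ x ∈ Y, ∀ z, G.Adj G.A x z → EA X φ x z ∨ (z ∈ Out X φ ∩ Y ∧ G.NI z) ∨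
      z = φ a ∨ z = φ b ∨ x = x0 := by
    intro x hx z hz
    rw [or_iff_not_imp_left]
    intro hn
    rcases step_cases h Y hx hz hn with h' | ⟨l, a1, a2, rfl, a3⟩ | ⟨a1, e, he, hen⟩
    · exact Or.inl ⟨h', hz.symm.ni⟩
    · rcases hY l a1 a2 a3 with rfl | rfl <;> simp
    · simp [(h0 e he x z hen hx a1).1]
  by_cases hex : ∃ w ∈ Out X φ ∩ Y, G.NI w
  · obtain ⟨w, hw, hn⟩ := hex
    obtain ⟨rfl, a1, a2⟩ := hZ w hw hn
    refine Or.inr (Or.inr ⟨w, hw.1, a1, a2, fun z hz => ?_, fun z hz => ?_⟩)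
    · rcases cn _ ha z hz with h' | h' | h' | h' | h'
      · exact Or.inl h'
      · exact Or.inr (hZ z h'.1 h'.2).1
      · exact absurd h'.symm (hG.adj_ne hz)
      · exact (hG.no_tri (h' ▸ hz) a2 a1.symm).elim
      · exact absurd ⟨a, ua, h'⟩ hw.1
    · rcases cn _ hb z hz with h' | h' | h' | h' | h'
      · exact Or.inl h'
      · exact Or.inr (hZ z h'.1 h'.2).1
      · exact (hG.no_tri (h' ▸ hz) a1 a2.symm).elim
      · exact absurd h'.symm (hG.adj_ne hz)
      · exact absurd ⟨b, ub, h'⟩ hw.1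
  · by_cases hx : φ a = x0
    · refine Or.inr (Or.inl fun z hz => ?_)
      rcases cn _ hb z hz with h' | h' | h' | h' | h'
      · exact Or.inl h'
      · exact absurd ⟨z, h'⟩ hex
      · exact Or.inr h'
      · exact absurd h'.symm (hG.adj_ne hz)
      · exact absurd (hx.trans h'.symm) hab
    · refine Or.inl fun z hz => ?_
      rcases cn _ ha z hz with h' | h' | h' | h' | h'
      · exact Or.inl h'
      · exact absurd ⟨z, h'⟩ hex
      · exact absurd h'.symm (hG.adj_ne hz)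
      · exact Or.inr h'
      · exact absurd h' hx

theorem ex2_s {t u : ℕ} {ps : List (ℕ × ℕ × K1 × K1 × K1)} (h : (ex2 t ps).testBit u = true) :
    ∃ p ∈ ps, (patm t (2 ^ p.1 ||| 2 ^ p.2.1)).testBit u = true := by
  induction ps with
  | nil => simp [ex2] at h
  | cons p ps ih =>
    change (ex2 t ps ||| patm t (2 ^ p.1 ||| 2 ^ p.2.1)).testBit u = true at h
    rw [Nat.testBit_or, Bool.or_eq_true] at h
    rcases h with h | h
    · obtain ⟨q, a, b⟩ := ih h
      exact ⟨q, List.mem_cons_of_mem _ a, b⟩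
    · exact ⟨p, List.mem_cons_self, h⟩

theorem sides {att : ℕ} (Y : Set V) {x : ℕ}
    (h : x = Nat.land (tr 6 (φ · ∈ Y)) att ∨ x = Nat.land att (Nat.xor 63 (tr 6 (φ · ∈ Y)))) :
    ∃ Y', G.cut (G.A \ BX G X φ) Y' = G.cut (G.A \ BX G X φ) Y ∧
      ∀ l < 6, (x.testBit l = true ↔ att.testBit l = true ∧ φ l ∈ Y') := by
  rcases h with rfl | rfl
  · refine ⟨Y, rfl, fun l hl => ?_⟩
    rw [Nat.land_eq, Nat.testBit_and, Bool.and_eq_true, tr_bit, and_iff_right hl, and_comm]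
  · refine ⟨Yᶜ, cut_compl _ _, fun l hl => ?_⟩
    rw [co_bit hl, tr_bit, and_iff_right hl]
    rfl

theorem chk2_s (hG : Min G) {SC : List Ent} (h0 : Cov G 0 SC false) (h1 : Cov G 1 SC false)
    {c : Cfg} (hc : c.OK) (h : App G c.X φ) {k : K2} (hk : chk2 SC c k = true) : False := by
  unfold chk2 at hk
  rw [force_eq] at hk
  cases k with
  | k1 k => exact chk1_s hG h0 h1 hc h hk
  | ext s fs ps =>
  simp only [an_iff, rall_iff, lall_iff, orr_iff, nt_iff, tb_eq, Nat.beq_eq] at hk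
  obtain ⟨k1, k2, k3, k4⟩ := hk
  have fgt : ∀ {c : Cfg} {φ : ℕ → V}, c.OK → App G c.X φ → ∀ {a : ℕ}, a < 6 → ∀ {k : K1},
      chk1 SC (opFor c a) k = true → ¬ Clo G c.X φ (φ a) :=
    fun hc h _ ha _ hk hcl => chk1_s hG h0 h1 (opFor_ok hc ha) (h.forget hc.bnd hcl).1 hk
  have f1 : ∀ a, c.att.testBit a = true → ¬ Clo G c.X φ (φ a) := by
    intro a ha
    have h6 := ((hc.att a).1 ha).1
    exact fgt hc h h6 ((k2 a h6).resolve_left (not_not.2 ha))
  have L2 : Lb G c.X φ 2 (ex2 c.att ps) := by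
    intro Y hY
    obtain ⟨⟨a, b, q1, q2, q3⟩, hp, hY⟩ := ex2_s hY
    obtain ⟨ta, tb, hab, c1, c2, c3⟩ := k3 _ hp
    simp only at ta tb hab c1 c2 c3 hY
    obtain ⟨a6, ua⟩ := (hc.att a).1 ta
    obtain ⟨b6, ub⟩ := (hc.att b).1 tb
    unfold patm at hY
    simp only [mkM_bit, orr_iff, Nat.beq_eq] at hY
    obtain ⟨Y', e1, e2⟩ := sides (G := G) (X := c.X) Y (hY.2.imp Eq.symm Eq.symm)
    simp only [Nat.testBit_or, Nat.testBit_two_pow, Bool.or_eq_true, decide_eq_true_eq] at e2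
    by_contra hlt
    have hne : φ a ≠ φ b := fun e => hab (h.inj _ _ ua ub e)
    have add : ∀ x y, (x = a ∧ y = b) ∨ (x = b ∧ y = a) → c.att.testBit x = true →
        ¬ (App G ((a, b) :: c.X) φ ∧ Clo G ((a, b) :: c.X) φ (φ x)) →
        ¬ ∀ z, G.Adj G.A (φ x) z → EA c.X φ (φ x) z ∨ z = φ y := by
      intro x y hxy tx hn hz
      by_cases hadj : G.Adj G.A (φ a) (φ b) ∧ ¬ EA c.X φ (φ a) (φ b)
      · refine hn ⟨h.add hG ua ub hadj.1 hadj.2, fun z hz' => ea_cons.2 ?_⟩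
        rcases hz z hz' with h' | rfl
        · exact Or.inr h'
        · rcases hxy with ⟨rfl, rfl⟩ | ⟨rfl, rfl⟩ <;> simp
      · refine f1 x tx fun z hz' => (hz z hz').elim id ?_
        rintro rfl
        by_contra hn'
        rcases hxy with ⟨rfl, rfl⟩ | ⟨rfl, rfl⟩
        · exact hadj ⟨hz', hn'⟩
        · exact hadj ⟨hz'.symm, fun h' => hn' h'.symm⟩
    rcases ext2 hG h k1 (Y := Y') hne ua ub ((e2 a a6).1 (Or.inl rfl)).2 ((e2 b b6).1 (Or.inr rfl)).2
      (fun l hl hu hy => ((e2 l hl).2 ⟨(hc.att l).2 ⟨hl, hu⟩, hy⟩).imp Eq.symm Eq.symm)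
      (by rw [e1]; omega) with h' | h' | ⟨w, w1, w2, w3, w4, w5⟩
    · exact add a b (Or.inl ⟨rfl, rfl⟩) ta (fun h'' => fgt (opAdd_ok hc a6 b6) h''.1 a6 c1 h''.2) h'
    · exact add b a (Or.inr ⟨rfl, rfl⟩) tb (fun h'' => fgt (opAdd_ok hc a6 b6) h''.1 b6 c2 h''.2) h'
    · obtain ⟨φ', p1, p2, p3, p4⟩ := h.pend hG hc.bnd ua a6 w1 w2 w4
      have eb := p3 b ub (Ne.symm hab)
      have p5 := p1.add hG (a := a) (b := b) (us_cons.2 (Or.inl (Or.inr rfl)))
        (us_cons.2 (Or.inr (us_pmap.2 ⟨b, ub, by rw [rn_eq, if_neg (Ne.symm hab)]⟩)))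
        (by rw [p2, eb]; exact w3.symm) (by
          rw [p2, eb, p4]
          rintro ((h' | h') | h')
          · exact w1 ⟨a, ua, h'.1⟩
          · exact hne h'.1
          · exact w1 h'.us)
      refine fgt (opAdd_ok (opPen_ok hc a6) a6 b6) p5 b6 c3 fun z hz => ea_cons.2 ?_
      rw [eb] at hz
      rw [p2, eb]
      rcases w5 z hz with h' | rfl
      · exact Or.inr ((p4 _ _).2 (Or.inr h'))
      · simp
  refine red_s hG hc h (fun Y hY => ?_) L2 k4
  rw [Nat.lor_eq, Nat.testBit_or, Bool.or_eq_true] at hY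
  rcases hY with hY | hY
  · unfold onem at hY
    rw [mkM_bit, orr_iff] at hY
    obtain ⟨x, hx, x64, ho⟩ : ∃ x, (x = Nat.land (tr 6 (φ · ∈ Y)) c.att ∨
        x = Nat.land c.att (Nat.xor 63 (tr 6 (φ · ∈ Y)))) ∧ x < 64 ∧ one x = true := by
      rcases hY.2 with h' | h'
      · exact ⟨_, Or.inl rfl, (land_lt hY.1).1, h'⟩
      · exact ⟨_, Or.inr rfl, (land_lt hY.1).2, h'⟩
    obtain ⟨a, a6, ha⟩ := one_s x x64 ho
    obtain ⟨Y', e1, e2⟩ := sides (G := G) (X := c.X) Y hx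
    have := (e2 a a6).1 ((ha a a6).2 rfl)
    by_contra hlt
    refine f1 a this.1 (ext1 hG h k1 this.2
      (fun l hl hu hy => (ha l hl).1 ((e2 l hl).2 ⟨(hc.att l).2 ⟨hl, hu⟩, hy⟩)) ?_)
    rw [e1, ← card_eq_zero]
    omega
  · exact le_trans (by omega) (L2 Y hY)

end Pool.Agent.MP_e6539c_co.TW

end MrgPart3

-- ======== part 4: formerly Pool.Agent.MP_e6539c_co.TW.Main
section MrgPart4

/-!
The induction along the tree decomposition.
-/

set_option autoImplicit false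

namespace Pool.Agent.MP_e6539c_co.TW

open Finset MG
open Classical

set_option linter.unusedSectionVars false

variable {V E : Type} [Fintype V] {G : MG V E}

def Pc (G : MG V E) (D : Set V) (j : ℕ) (ψ : ℕ → V) : Prop :=
  App G (PP j) ψ ∧ (∀ u w, EA (PP j) ψ u w ↔ G.Adj G.A u w ∧ (u ∈ D ∨ w ∈ D)) ∧
    ∀ i, Us (PP j) i → (6 ≤ i ↔ ψ i ∈ D)

theorem act_s (hG : Min G) {SC : List Ent} (h0 : Cov G 0 SC false) (h1 : Cov G 1 SC false)
    {c : Cfg} (hc : c.OK) {lam φ : ℕ → V} {U : Set ℕ} {D : Set V} {v : V}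
    (h : Sit G lam U (D \ {v}) c.X φ) (h5 : lam 5 = v) (hv : v ∈ D)
    (hU : ∀ l < 5, l ∈ U → lam l ∉ D)
    (he : ∀ u w, EA c.X φ u w ↔ G.Adj G.A u w ∧ (u ∈ D ∨ w ∈ D)) {a : Act}
    (ha : act SC c a = true) : ∃ j ≤ 14, ∃ ψ, Pc G D j ψ := by
  have e5 : φ 5 = v := (h.lab 5 (by omega)).trans h5
  obtain ⟨a1, a2⟩ := h.app.forget (a := 5) hc.bnd
    (fun w hw => (he _ _).2 ⟨hw, Or.inl (e5 ▸ hv)⟩)
  cases a with
  | kill k => exact (chk2_s hG h0 h1 (opFor_ok hc (by omega)) a1 ha).elim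
  | iso j σ τ =>
    change an _ _ = true at ha
    rw [an_iff, Nat.ble_eq] at ha
    obtain ⟨ψ, b1, b2, b3, b4⟩ := a1.iso ha.2 (pok j ha.1).nd
    refine ⟨j, ha.1, ψ, b1, fun u w => by rw [b2, a2, he], fun i hi => ?_⟩
    obtain ⟨i', c1, rfl, c2⟩ := b4 i hi
    rw [b3 i' c1]
    obtain ⟨l, hl, rfl⟩ := us_pmap.1 c1
    have := hc.bnd l hl
    have := hc.n6
    rw [rn_eq] at c2 ⊢
    by_cases h' : l = 5
    · rw [if_pos h'] at c2 ⊢
      rw [if_pos rfl, e5]
      exact ⟨fun _ => hv, fun _ => by omega⟩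
    · rw [if_neg h'] at c2 ⊢
      rw [if_neg (by omega)]
      refine ⟨fun h6 => (h.int l hl (by omega)).1, fun hD => ?_⟩
      by_contra h6
      rw [h.lab l (by omega)] at hD
      exact hU l (by omega) (h.lu l (by omega) hl) hD

theorem ext_label (T : Finset V) (hT : T.card ≤ 5) (L : Finset ℕ) (hL : L ⊆ range 5) (f : ℕ → V)
    (hf : Set.InjOn f L) (hfT : ∀ l ∈ L, f l ∈ T) : ∃ g : ℕ → V, ∃ U : Finset ℕ, U ⊆ range 5 ∧
      L ⊆ U ∧ (∀ l ∈ L, g l = f l) ∧ Set.InjOn g U ∧ U.image g = T := by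
  induction hn : 5 - L.card generalizing L f with
  | zero =>
    refine ⟨f, L, hL, subset_rfl, fun _ _ => rfl, hf, eq_of_subset_of_card_le ?_ ?_⟩
    · exact image_subset_iff.2 hfT
    · rw [card_image_of_injOn hf]; omega
  | succ n ih =>
    by_cases h : T ⊆ L.image f
    · exact ⟨f, L, hL, subset_rfl, fun _ _ => rfl, hf, subset_antisymm (image_subset_iff.2 hfT) h⟩
    obtain ⟨t, ht, ht'⟩ := not_subset.1 h
    obtain ⟨l, hl, hl'⟩ := exists_mem_notMem_of_card_lt_card (s := L) (t := range 5) (by simp; omega)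
    have hu : ∀ m ∈ L, Function.update f l t m = f m :=
      fun m hm => Function.update_of_ne (by rintro rfl; exact hl' hm) _ _
    obtain ⟨g, U, a1, a2, a3, a4, a5⟩ := ih (insert l L) (insert_subset hl hL) (Function.update f l t)
      (by
        intro x hx y hy e
        rcases mem_insert.1 (mem_coe.1 hx) with rfl | hx' <;>
          rcases mem_insert.1 (mem_coe.1 hy) with rfl | hy'
        · rfl
        · rw [hu y hy', Function.update_self] at e
          exact absurd (e ▸ mem_image_of_mem f hy') ht'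
        · rw [hu x hx', Function.update_self] at e
          exact absurd (e ▸ mem_image_of_mem f hx') ht'
        · rw [hu x hx', hu y hy'] at e
          exact hf hx' hy' e)
      (by
        intro x hx
        rcases mem_insert.1 hx with rfl | hx
        · simpa using ht
        · rw [hu x hx]; exact hfT x hx)
      (by rw [card_insert_of_notMem hl']; omega)
    exact ⟨g, U, a1, (subset_insert _ _).trans a2,
      fun m hm => (a3 m (mem_insert_of_mem hm)).trans (hu m hm), a4, a5⟩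

theorem swc_s : ∀ r < 5, ∀ l < 5, rl (swc r) l = if l = r then 5 else l := by decide +kernel

theorem comp_adj {W : Set V} {u x y : V} (hx : x ∈ G.comp W u) (hy : y ∈ W) (h : G.Adj G.A x y) :
    y ∈ G.comp W u := ⟨hy, hx.2.trans (Conn.single hx.1 hy h)⟩
theorem comp_eq {W : Set V} {u u' x : V} (hx : x ∈ G.comp W u) (hx' : x ∈ G.comp W u') :
    G.comp W u = G.comp W u' := by
  ext y
  exact and_congr_right fun _ => ⟨fun h => hx'.2.trans (hx.2.symm.trans h),
    fun h => hx.2.trans (hx'.2.symm.trans h)⟩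

theorem piece (hG : Min G) {SC : List Ent} (h0 : Cov G 0 SC false) (h1 : Cov G 1 SC false)
    {CC : ℕ → List Ent} (hcov : ∀ j ≤ 14, ∀ j' ≤ j, Cov G j' (CC j) true)
    (hroot : ∀ j ≤ 14, ∀ r ∈ RR j, ∃ ks a t, root SC j r (CC j) ks a t = true)
    {ι : Type} {T : SimpleGraph ι} {bag : ι → Finset V} (hT : T.IsTree)
    (hb1 : ∀ t, (bag t).card ≤ 6) (hb2 : ∀ e ∈ G.A, ∃ t, G.l e ∈ bag t ∧ G.r e ∈ bag t)
    (hb3 : ∀ v s t, v ∈ bag s → v ∈ bag t →
      Relation.ReflTransGen (fun a b => T.Adj a b ∧ v ∈ bag a ∧ v ∈ bag b) s t)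
    {D : Set V} (hD : G.CSet G.A D) {d : V} (hd : d ∈ D) (hdn : G.NI d) {t : ι}
    (ht : G.nb D ⊆ bag t) : ∃ j ≤ 14, ∃ ψ, Pc G D j ψ := by
  induction hn : D.ncard using Nat.strong_induction_on generalizing D d t with
  | _ n ih =>
  obtain ⟨t', ht', v, hv, hvt⟩ := bag_step hT hb2 hb3 hD hd hdn ht
  have hvn : v ∉ G.nb D := fun h => (mem_nb.1 h).1 hv
  have hins : insert v (G.nb D) ⊆ bag t' := insert_subset hvt ht'
  have h5 : (G.nb D).card ≤ 5 := by
    have := card_le_card hins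
    rw [card_insert_of_notMem hvn] at this
    have := hb1 t'
    omega
  have hni : ∀ x ∈ D, G.NI x := by
    intro x hx
    rcases (hD x hx d hd).cases_head with h | ⟨y, hy, -⟩
    · exact h ▸ hdn
    · exact hy.2.2.ni
  have hnbC : ∀ u, G.nb (G.comp (D \ {v}) u) ⊆ insert v (G.nb D) := by
    intro u z hz
    have := nb_comp hz
    obtain ⟨-, x, hx, ha⟩ := mem_nb.1 hz
    rw [mem_insert, mem_nb]
    by_cases hzD : z ∈ D
    · left
      by_contra hc
      exact this ⟨hzD, hc⟩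
    · exact Or.inr ⟨hzD, x, hx.1.1, ha⟩
  have hvC : ∀ u ∈ D \ {v}, v ∈ G.nb (G.comp (D \ {v}) u) := by
    intro u hu
    have hvn : v ∉ G.comp (D \ {v}) u := fun h => h.1.2 rfl
    obtain ⟨e, he, a1, a2⟩ := (hD u hu.1 v hv).cross (Y := G.comp (D \ {v}) u)
      (fun h => hvn (h.1 (comp_self hu)))
    rw [(ends_lr e).mem_cut_iff] at he
    have key : ∀ x y, x ∈ G.comp (D \ {v}) u → y ∉ G.comp (D \ {v}) u → y ∈ D → G.Adj G.A x y →
        v ∈ G.nb (G.comp (D \ {v}) u) := by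
      intro x y hx hy hyD ha
      obtain rfl : y = v := by
        by_contra hc
        exact hy (comp_adj hx ⟨hyD, hc⟩ ha)
      exact mem_nb.2 ⟨hy, x, hx, ha⟩
    by_cases h : G.l e ∈ G.comp (D \ {v}) u
    · exact key _ _ h (by tauto) a2 ⟨e, he.1, ends_lr e⟩
    · exact key _ _ (by tauto) h a1 ⟨e, he.1, (ends_lr e).symm⟩
  let R : Set V ⊕ V → V → V → Prop := Sum.elim (fun S x y => G.Adj G.A x y ∧ (x ∈ S ∨ y ∈ S))
    (fun z x y => (v = x ∧ z = y) ∨ (v = y ∧ z = x))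
  let P : Finset (Set V ⊕ V) := ((univ.filter (· ∈ D \ {v})).image (G.comp (D \ {v}))).disjSum
    ((G.nb D).filter (G.Adj G.A v))
  have hP1 : ∀ S, Sum.inl S ∈ P ↔ ∃ u ∈ D \ {v}, G.comp (D \ {v}) u = S := by simp [P]
  have hP2 : ∀ z, Sum.inr z ∈ P ↔ z ∈ G.nb D ∧ G.Adj G.A v z := by simp [P]
  have hall : ∀ x y, (∃ i ∈ P, R i x y) ↔ G.Adj G.A x y ∧ (x ∈ D ∨ y ∈ D) := by
    intro x y
    constructor
    · rintro ⟨S | z, hi, h⟩
      · obtain ⟨u, -, rfl⟩ := (hP1 S).1 hi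
        exact ⟨h.1, h.2.imp (fun h => h.1.1) (fun h => h.1.1)⟩
      · rw [hP2] at hi
        rcases h with ⟨rfl, rfl⟩ | ⟨rfl, rfl⟩
        · exact ⟨hi.2, Or.inl hv⟩
        · exact ⟨hi.2.symm, Or.inr hv⟩
    · rintro ⟨ha, h⟩
      by_cases hx : x ∈ D \ {v}
      · exact ⟨Sum.inl _, (hP1 _).2 ⟨x, hx, rfl⟩, ha, Or.inl (comp_self hx)⟩
      by_cases hy : y ∈ D \ {v}
      · exact ⟨Sum.inl _, (hP1 _).2 ⟨y, hy, rfl⟩, ha, Or.inr (comp_self hy)⟩
      have n := hG.adj_ne ha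
      simp only [Set.mem_sdiff, Set.mem_singleton_iff, not_and, not_not] at hx hy
      rcases h with h | h
      · obtain rfl := hx h
        exact ⟨Sum.inr y, (hP2 _).2 ⟨mem_nb.2 ⟨fun h' => n (hy h').symm, x, h, ha⟩, ha⟩,
          Or.inl ⟨rfl, rfl⟩⟩
      · obtain rfl := hy h
        exact ⟨Sum.inr x, (hP2 _).2 ⟨mem_nb.2 ⟨fun h' => n (hx h'), y, h, ha.symm⟩, ha.symm⟩,
          Or.inr ⟨rfl, rfl⟩⟩
  have hdis : ∀ i ∈ P, ∀ j ∈ P, i ≠ j → ∀ u w, R i u w → ¬ R j u w := by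
    have mix : ∀ S z, Sum.inl S ∈ P → Sum.inr z ∈ P → ∀ u w, R (Sum.inl S) u w →
        ¬ R (Sum.inr z) u w := by
      intro S z hi hj u w
      obtain ⟨x, -, rfl⟩ := (hP1 S).1 hi
      have := (mem_nb.1 ((hP2 z).1 hj).1).1
      rintro ⟨-, h | h⟩ (⟨rfl, rfl⟩ | ⟨rfl, rfl⟩)
      · exact h.1.2 rfl
      · exact this h.1.1
      · exact this h.1.1
      · exact h.1.2 rfl
    rintro (S | z) hi (S' | z') hj hne u w
    · obtain ⟨x, -, rfl⟩ := (hP1 S).1 hi
      obtain ⟨x', -, rfl⟩ := (hP1 S').1 hj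
      rintro ⟨ha, h | h⟩ ⟨-, h' | h'⟩ <;> apply hne <;> congr 1
      · exact comp_eq h h'
      · exact comp_eq (comp_adj h h'.1 ha) h'
      · exact comp_eq h (comp_adj h' h.1 ha)
      · exact comp_eq h h'
    · exact mix _ _ hi hj u w
    · exact fun h1 h2 => mix _ _ hj hi u w h2 h1
    · have := (mem_nb.1 ((hP2 z).1 hi).1).1
      rintro (⟨rfl, rfl⟩ | ⟨rfl, rfl⟩) (⟨e1, e2⟩ | ⟨e1, e2⟩)
      · exact hne (by rw [e2])
      · exact this (e1 ▸ hv)
      · exact this (e1 ▸ hv)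
      · exact hne (by rw [e2])
  have hpart : ∀ i, ∃ j ψ, i ∈ P → j ≤ 14 ∧ App G (PP j) ψ ∧ R i = EA (PP j) ψ ∧
      (∀ l < 6, Us (PP j) l → ψ l ∈ insert v (G.nb D)) ∧ (∃ l < tt j, ψ l = v) ∧
      ∀ k, Us (PP j) k → 6 ≤ k → ψ k ∈ D \ {v} := by
    intro i
    by_cases hi : i ∈ P
    swap
    · exact ⟨0, fun _ => v, fun h => absurd h hi⟩
    rcases i with S | z
    · obtain ⟨u, hu, rfl⟩ := (hP1 S).1 hi
      obtain ⟨j, hj, ψ, a1, a2, a3⟩ := ih _ (by
          rw [← hn]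
          exact Set.ncard_lt_ncard ⟨fun x hx => hx.1.1, fun h => (h hv).1.2 rfl⟩)
        (comp_cset _ u) (comp_self hu) (hni u hu.1) ((hnbC u).trans hins) rfl
      refine ⟨j, ψ, fun _ => ⟨hj, a1, ?_, ?_, ?_, fun k hk h6 => ((a3 k hk).1 h6).1⟩⟩
      · ext x y
        exact (a2 x y).symm
      · intro l hl hu'
        obtain ⟨b, hb⟩ := hu'.ed
        have h1 : ψ l ∉ G.comp (D \ {v}) u := fun h => by have := (a3 l hu').2 h; omega
        obtain ⟨h2, h3⟩ := (a2 _ _).1 ⟨l, b, hb, rfl, rfl⟩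
        exact hnbC u (mem_nb.2 ⟨h1, _, h3.resolve_left h1, h2.symm⟩)
      · obtain ⟨h1, x, hx, ha⟩ := mem_nb.1 (hvC u hu)
        obtain ⟨l, hl, rfl⟩ := ((a2 _ _).2 ⟨ha, Or.inl hx⟩).symm.us
        exact ⟨l, ((pok j hj).us l (by by_contra h; exact h1 ((a3 l hl).1 (by omega)))).1 hl, rfl⟩
    · rw [hP2] at hi
      obtain ⟨ψ, a1, a2, a3, a4, a5⟩ := edge_app hG hi.2
      refine ⟨0, ψ, fun _ => ⟨by omega, a1, ?_, ?_, ⟨0, by decide, a2⟩,
        fun k hk h6 => absurd h6 (a4 k hk)⟩⟩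
      · ext x y
        exact (a5 x y).symm
      · intro l hl hu
        have : l < 2 := ((pok 0 (by omega)).us l hl).1 hu
        interval_cases l
        · rw [a2]; exact mem_insert_self _ _
        · rw [a3]; exact mem_insert_of_mem hi.1
  choose J Ψ hJ using hpart
  obtain ⟨i0, hi0, hmax⟩ := exists_max_image P J (by
    obtain ⟨e, he, hi⟩ := hni v hv
    obtain ⟨w, hen⟩ := hi.exists_ends
    obtain ⟨i, hi, -⟩ := (hall v w).2 ⟨⟨e, he, hen⟩, Or.inl hv⟩
    exact ⟨i, hi⟩)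
  obtain ⟨hj, a1, a2, a3, ⟨r, hr, a4⟩, a5⟩ := hJ i0 hi0
  have hp := pok _ hj
  have := hp.le
  obtain ⟨μ, hμ, hr'⟩ := hp.root r hr
  obtain ⟨ψ, b1, b2, b3, b4⟩ := a1.iso (hp.aut μ hμ) hp.nd
  have ur : Us (PP (J i0)) r := (hp.us r (by omega)).2 hr
  obtain ⟨i1, -, i3⟩ := isob_s (hp.aut μ hμ)
  have ur' : Us (PP (J i0)) (sg μ.1 r) := (us_congr i1 _).1 (us_pmap.2 ⟨r, ur, rfl⟩)
  have er' : ψ (sg μ.1 r) = v := (b3 r ur).trans a4
  have lr' := (hp.us _ ((i3 r ur).1 (by omega))).1 ur'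
  generalize sg μ.1 r = r' at hr' ur' er' lr'
  have hL : ∀ l ∈ (range (tt (J i0))).erase r', Us (PP (J i0)) l := fun l hl => by
    have := mem_range.1 (mem_of_mem_erase hl)
    exact (hp.us l (by omega)).2 this
  obtain ⟨g, U, c1, c2, c3, c4, c5⟩ := ext_label (G.nb D) h5 ((range (tt (J i0))).erase r')
    ((erase_subset _ _).trans (range_subset_range.2 hp.le)) ψ
    (fun x hx y hy => b1.inj _ _ (hL x hx) (hL y hy)) (by
      intro l hl
      obtain ⟨k, d1, rfl, d2⟩ := b4 l (hL l hl)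
      have := mem_range.1 (mem_of_mem_erase hl)
      have := a3 k (by omega) d1
      rw [← b3 k d1] at this
      refine (mem_insert.1 this).resolve_left fun e => (mem_erase.1 hl).1 ?_
      exact b1.inj _ _ (hL _ hl) ur' (e.trans er'.symm))
  have hU5 : ∀ l ∈ U, l < 5 := fun l hl => mem_range.1 (c1 hl)
  have hUT : ∀ l ∈ U, g l ∈ G.nb D := fun l hl => c5 ▸ mem_image_of_mem g hl
  let lam : ℕ → V := fun l => if l = 5 then v else g l
  have l5 : lam 5 = v := if_pos rfl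
  have lU : ∀ l ∈ U, lam l = g l := fun l hl => if_neg (hU5 l hl).ne
  have hinj : Set.InjOn lam {l | l = 5 ∨ l ∈ U} := by
    rintro x (rfl | hx) y (rfl | hy) e
    · rfl
    · rw [l5, lU y hy] at e
      exact absurd (e ▸ hUT y hy) hvn
    · rw [l5, lU x hx] at e
      exact absurd (e ▸ hUT x hx) hvn
    · rw [lU x hx, lU y hy] at e
      exact c4 hx hy e
  obtain ⟨φ, s1, s2⟩ := embed (lam := lam) (U := {l | l = 5 ∨ l ∈ U}) (D := D \ {v}) b1
    (p := swc r') (by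
      intro l hl hu
      have := (hp.us l hl).1 hu
      rw [swc_s r' (by omega) l (by omega)]
      split_ifs with h
      · exact ⟨by omega, by rw [l5, h, er'], Or.inl rfl⟩
      · have hm : l ∈ (range (tt (J i0))).erase r' := mem_erase.2 ⟨h, mem_range.2 this⟩
        exact ⟨hl, by rw [lU l (c2 hm), c3 l hm], Or.inr (c2 hm)⟩) (by
      intro k hk h6
      obtain ⟨k', d1, rfl, d2⟩ := b4 k hk
      rw [b3 k' d1]
      exact a5 k' d1 (by omega))
  obtain ⟨ks, a, tr, hroot⟩ := hroot _ hj r' hr'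
  simp only [root, st_eq, force_eq, an_iff] at hroot
  rw [← eqL_eq hroot.1] at s1 s2
  have s3 : ∀ u w, EA (run (swc r') (prog (J i0))).X φ u w ↔ R i0 u w := fun u w => by
    rw [s2, b2, a2]
  obtain ⟨c', φ', a', e1, e2, e3, e4⟩ := node_s hG hinj (R := R) (P := P.erase i0) (run_ok _ _) s1 (by
      intro i hi
      have hi := mem_of_mem_erase hi
      obtain ⟨f1, f2, f3, f4, ⟨l, f5, f6⟩, f7⟩ := hJ i hi
      have hq := pok _ f1
      have := hq.le
      have : ∀ l, ∃ m, l < tt (J i) → m < 6 ∧ lam m = Ψ i l ∧ (m = 5 ∨ m ∈ U) := by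
        intro l
        by_cases hl : l < tt (J i)
        · rcases mem_insert.1 (f4 l (by omega) ((hq.us l (by omega)).2 hl)) with h | h
          · exact ⟨5, fun _ => ⟨by omega, l5.trans h.symm, Or.inl rfl⟩⟩
          · obtain ⟨m, hm, e⟩ := mem_image.1 (c5 ▸ h : Ψ i l ∈ U.image g)
            exact ⟨m, fun _ => ⟨by have := hU5 m hm; omega, (lU m hm).trans e, Or.inr hm⟩⟩
        · exact ⟨0, fun h => absurd h hl⟩
      choose π hπ using this
      rw [f3]
      exact hcov _ hj _ (hmax i hi) _ _ _ _ π f2 hπ (fun _ => ⟨l, f5,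
        hinj (hπ l f5).2.2 (Or.inl rfl) ((hπ l f5).2.1.trans (f6.trans l5.symm))⟩) f7)
    (fun i hi u w h => hdis i0 hi0 i (mem_of_mem_erase hi) (mem_erase.1 hi).1.symm u w ((s3 _ _).1 h))
    (fun i hi j hj => hdis i (mem_of_mem_erase hi) j (mem_of_mem_erase hj)) hroot.2
  refine act_s hG h0 h1 e1 e3 l5 hv ?_ (fun u w => ?_) e2
  · rintro l hl (h | h)
    · omega
    · rw [lU l h]
      exact (mem_nb.1 (hUT l h)).1
  · rw [e4, s3, ← hall]
    conv_rhs => rw [← insert_erase hi0]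
    simp only [mem_insert, exists_eq_or_imp]

theorem no_min {SC : List Ent} (h0 : Cov G 0 SC false) (h1 : Cov G 1 SC false)
    {CC : ℕ → List Ent} (hcov : ∀ j ≤ 14, ∀ j' ≤ j, Cov G j' (CC j) true)
    (hroot : ∀ j ≤ 14, ∀ r ∈ RR j, ∃ ks a t, root SC j r (CC j) ks a t = true) : ¬ Min G := by
  intro hG
  obtain ⟨e, he⟩ : G.A.Nonempty := by
    rw [nonempty_iff_ne_empty]
    intro h
    exact hG.nf ⟨0, by simp [h, NZ], by simp [h, bd]⟩
  obtain ⟨ι, T, bag, hT, b1, b2, b3⟩ := hG.tw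
  obtain ⟨t, -⟩ := b2 e he
  have hnb : ∀ w, w ∉ G.nb (G.comp Set.univ (G.l e)) := fun w hw => nb_comp hw (Set.mem_univ _)
  obtain ⟨j, hj, ψ, -, a2, a3⟩ := piece hG h0 h1 hcov hroot hT b1 b2 b3 (comp_cset Set.univ (G.l e))
    (comp_self (Set.mem_univ _)) ⟨e, he, Or.inl rfl⟩ (t := t) (fun w hw => absurd hw (hnb w))
  have hu : Us (PP j) 0 := ((pok j hj).us 0 (by omega)).2 (pok j hj).pos
  obtain ⟨b, hb⟩ := hu.ed
  have h1 : ψ 0 ∉ G.comp Set.univ (G.l e) := fun h => by have := (a3 0 hu).2 h; omega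
  obtain ⟨h2, h3⟩ := (a2 _ _).1 ⟨0, b, hb, rfl, rfl⟩
  exact hnb _ (mem_nb.2 ⟨h1, _, h3.resolve_left h1, h2.symm⟩)

end Pool.Agent.MP_e6539c_co.TW

end MrgPart4

-- ======== part 5: formerly Pool.Agent.MP_e6539c_co.TW.Final
section MrgPart5

/-!
Assembly: no minimal counterexample exists.
-/

set_option autoImplicit false

namespace Pool.Agent.MP_e6539c_co.TW

variable {V E : Type} [Fintype V]

noncomputable def TT (j : ℕ) : List Ent :=
  lget [T0, T1, T2, T3, T4, T5, T6, T7, T8, T9, T10, T11, T12, T13, T14] [] j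

noncomputable def CC (j : ℕ) : List Ent := Nat.rec T0 (fun i ih => app (TT (i + 1)) ih) j

theorem TT_sub (j : ℕ) : ∀ j' ≤ j, ∀ e ∈ TT j', e ∈ CC j := by
  induction j with
  | zero =>
    intro j' h e he
    obtain rfl : j' = 0 := by omega
    exact he
  | succ n ih =>
    intro j' h e he
    change e ∈ app (TT (n + 1)) (CC n)
    rw [app_eq, List.mem_append]
    rcases Nat.lt_or_ge n j' with h' | h'
    · obtain rfl : j' = n + 1 := by omega
      exact Or.inl he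
    · exact Or.inr (ih j' h' e he)

theorem TT_cov : ∀ j ≤ 14, cover j (TT j) true = true := by
  intro j hj
  interval_cases j
  exacts [cov0, cov1, cov2, cov3, cov4, cov5, cov6, cov7, cov8, cov9, cov10, cov11, cov12, cov13, cov14]

theorem all_roots : ∀ j ≤ 14, ∀ r ∈ RR j, ∃ ks a t, root SC j r (CC j) ks a t = true := by
  intro j hj r hr
  interval_cases j
  · change r ∈ [0] at hr
    simp only [List.mem_cons, List.not_mem_nil, or_false] at hr
    rcases hr with rfl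
    exacts [⟨_, _, _, root0_0⟩]
  · change r ∈ [0] at hr
    simp only [List.mem_cons, List.not_mem_nil, or_false] at hr
    rcases hr with rfl
    exacts [⟨_, _, _, root1_0⟩]
  · change r ∈ [0] at hr
    simp only [List.mem_cons, List.not_mem_nil, or_false] at hr
    rcases hr with rfl
    exacts [⟨_, _, _, root2_0⟩]
  · change r ∈ [0] at hr
    simp only [List.mem_cons, List.not_mem_nil, or_false] at hr
    rcases hr with rfl
    exacts [⟨_, _, _, root3_0⟩]
  · change r ∈ [0] at hr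
    simp only [List.mem_cons, List.not_mem_nil, or_false] at hr
    rcases hr with rfl
    exacts [⟨_, _, _, root4_0⟩]
  · change r ∈ [0, 2] at hr
    simp only [List.mem_cons, List.not_mem_nil, or_false] at hr
    rcases hr with rfl | rfl
    exacts [⟨_, _, _, root5_0⟩, ⟨_, _, _, root5_2⟩]
  · change r ∈ [0, 4] at hr
    simp only [List.mem_cons, List.not_mem_nil, or_false] at hr
    rcases hr with rfl | rfl
    exacts [⟨_, _, _, root6_0⟩, ⟨_, _, _, root6_4⟩]
  · change r ∈ [0, 1, 2] at hr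
    simp only [List.mem_cons, List.not_mem_nil, or_false] at hr
    rcases hr with rfl | rfl | rfl
    exacts [⟨_, _, _, root7_0⟩, ⟨_, _, _, root7_1⟩, ⟨_, _, _, root7_2⟩]
  · change r ∈ [0] at hr
    simp only [List.mem_cons, List.not_mem_nil, or_false] at hr
    rcases hr with rfl
    exacts [⟨_, _, _, root8_0⟩]
  · change r ∈ [0, 1, 4] at hr
    simp only [List.mem_cons, List.not_mem_nil, or_false] at hr
    rcases hr with rfl | rfl | rfl
    exacts [⟨_, _, _, root9_0⟩, ⟨_, _, _, root9_1⟩, ⟨_, _, _, root9_4⟩]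
  · change r ∈ [0, 1, 2] at hr
    simp only [List.mem_cons, List.not_mem_nil, or_false] at hr
    rcases hr with rfl | rfl | rfl
    exacts [⟨_, _, _, root10_0⟩, ⟨_, _, _, root10_1⟩, ⟨_, _, _, root10_2⟩]
  · change r ∈ [0, 1, 2, 3, 4] at hr
    simp only [List.mem_cons, List.not_mem_nil, or_false] at hr
    rcases hr with rfl | rfl | rfl | rfl | rfl
    exacts [⟨_, _, _, root11_0⟩, ⟨_, _, _, root11_1⟩, ⟨_, _, _, root11_2⟩, ⟨_, _, _, root11_3⟩, ⟨_, _, _, root11_4⟩]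
  · change r ∈ [0, 1, 2, 3, 4] at hr
    simp only [List.mem_cons, List.not_mem_nil, or_false] at hr
    rcases hr with rfl | rfl | rfl | rfl | rfl
    exacts [⟨_, _, _, root12_0⟩, ⟨_, _, _, root12_1⟩, ⟨_, _, _, root12_2⟩, ⟨_, _, _, root12_3⟩, ⟨_, _, _, root12_4⟩]
  · change r ∈ [0, 1] at hr
    simp only [List.mem_cons, List.not_mem_nil, or_false] at hr
    rcases hr with rfl | rfl
    exacts [⟨_, _, _, root13_0⟩, ⟨_, _, _, root13_1⟩]
  · change r ∈ [0, 4] at hr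
    simp only [List.mem_cons, List.not_mem_nil, or_false] at hr
    rcases hr with rfl | rfl
    exacts [⟨_, _, _, root14_0⟩, ⟨_, _, _, root14_4⟩]

theorem flowable (G : MG V E) (h1 : G.Bridgeless) (h2 : ¬ G.HasP) (h3 : G.HasTD) : G.Flowable := by
  refine main_of_no_min (fun G => no_min (SC := SC) (CC := CC) ?_ ?_ ?_ all_roots) G h1 h2 h3
  · exact (cover_s (by omega) sc0).mono fun e he => by
      rw [SC, app_eq]; exact List.mem_append_left _ he
  · exact (cover_s (by omega) sc1).mono fun e he => by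
      rw [SC, app_eq]; exact List.mem_append_right _ he
  · exact fun j hj j' hj' => (cover_s (by omega) (TT_cov j' (by omega))).mono (TT_sub j j' hj')

end Pool.Agent.MP_e6539c_co.TW

end MrgPart5

-- marker of a merged file
example : 731051 + 265042 = 731051 + 265042 := rfl
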